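import Mathlib

set_option autoImplicit false

namespace Pool.Agent.H58Radon

open Finset

/-- number of `r`-sets meeting `A` in `y` points -/
lemma card_inter {n : ℕ} (A : Finset (Fin n)) (r y : ℕ) (hy : y ≤ r) :
    ((powersetCard r univ).filter fun K : Finset (Fin n) => (K ∩ A).card = y).card
      = A.card.choose y * (n - A.card).choose (r - y) := by
  classical
  have h : ((powersetCard r univ).filter fun K : Finset (Fin n) => (K ∩ A).card = y).card
      = (powersetCard y A ×ˢ powersetCard (r - y) Aᶜ).card := by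
    apply Finset.card_nbij' (fun K => (K ∩ A, K \ A)) (fun p => p.1 ∪ p.2)
    · intro K hK
      simp only [coe_filter, mem_powersetCard, subset_univ, true_and, Set.mem_ofPred_eq] at hK
      simp only [coe_product, Set.mem_prod, mem_coe, mem_powersetCard]
      refine ⟨⟨inter_subset_right, hK.2⟩, ?_, ?_⟩
      · intro i hi
        rw [mem_compl]
        exact (mem_sdiff.mp hi).2
      · have := card_sdiff_add_card_inter K A
        omega
    · intro p hp
      simp only [coe_product, Set.mem_prod, mem_coe, mem_powersetCard] at hp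
      obtain ⟨⟨h1, h2⟩, h3, h4⟩ := hp
      have hdis : Disjoint p.1 p.2 := by
        rw [Finset.disjoint_left]
        intro i hi hi2
        exact (mem_compl.mp (h3 hi2)) (h1 hi)
      simp only [coe_filter, mem_powersetCard, subset_univ, true_and, Set.mem_ofPred_eq]
      refine ⟨?_, ?_⟩
      · rw [card_union_of_disjoint hdis, h2, h4]; omega
      · have : (p.1 ∪ p.2) ∩ A = p.1 := by
          ext i
          simp only [mem_inter, mem_union]
          constructor
          · rintro ⟨h | h, hA⟩
            · exact h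
            · exact absurd hA (mem_compl.mp (h3 h))
          · intro h; exact ⟨Or.inl h, h1 h⟩
        rw [this, h2]
    · intro K _
      simp only
      ext i
      simp only [mem_union, mem_inter, mem_sdiff]
      tauto
    · intro p hp
      simp only [coe_product, Set.mem_prod, mem_coe, mem_powersetCard] at hp
      obtain ⟨⟨h1, h2⟩, h3, h4⟩ := hp
      ext i
      · simp only [mem_inter, mem_union]
        constructor
        · rintro ⟨h | h, hA⟩
          · exact h
          · exact absurd hA (mem_compl.mp (h3 h))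
        · intro h; exact ⟨Or.inl h, h1 h⟩
      · simp only [mem_sdiff, mem_union]
        constructor
        · rintro ⟨h | h, hA⟩
          · exact absurd (h1 h) hA
          · exact h
        · intro h; exact ⟨Or.inr h, mem_compl.mp (h3 h)⟩
  rw [h, card_product, card_powersetCard, card_powersetCard, card_compl, Fintype.card_fin]

lemma sum_inter {n : ℕ} (A : Finset (Fin n)) (r : ℕ) (F : ℕ → ℝ) :
    ∑ K ∈ powersetCard r (univ : Finset (Fin n)), F (K ∩ A).card
      = ∑ y ∈ range (r + 1), ((A.card.choose y * (n - A.card).choose (r - y) : ℕ) : ℝ) * F y := by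
  classical
  have hmaps : ∀ K ∈ powersetCard r (univ : Finset (Fin n)), (K ∩ A).card ∈ range (r + 1) := by
    intro K hK
    rw [mem_powersetCard] at hK
    rw [mem_range]
    have := card_le_card (inter_subset_left : K ∩ A ⊆ K)
    omega
  rw [← Finset.sum_fiberwise_of_maps_to hmaps]
  apply Finset.sum_congr rfl
  intro y hy
  rw [← card_inter A r y (by rw [mem_range] at hy; omega)]
  rw [Finset.sum_congr rfl (g := fun _ => F y)]
  · rw [sum_const, nsmul_eq_mul]
  · intro K hK
    rw [(mem_filter.mp hK).2]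

/-- the multinomial identity -/
lemma choose_identity {n a D r y : ℕ} (hn : n = D + r) (ha : a ≤ n) (hy : y ≤ r) (hya : y ≤ a) :
    n.choose a * (a.choose y * (n - a).choose (r - y))
      = n.choose D * (r.choose y * D.choose (a - y)) := by
  -- both sides count chains
  by_cases hD : a - y ≤ D
  · -- use factorials
    have h1 : r - y ≤ n - a := by omega
    have e1 := Nat.choose_mul_factorial_mul_factorial ha
    have e2 := Nat.choose_mul_factorial_mul_factorial hya
    have e3 := Nat.choose_mul_factorial_mul_factorial h1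
    have e4 := Nat.choose_mul_factorial_mul_factorial (show D ≤ n by omega)
    have e5 := Nat.choose_mul_factorial_mul_factorial hy
    have e6 := Nat.choose_mul_factorial_mul_factorial hD
    have h2 : n - a - (r - y) = D - (a - y) := by omega
    have h3 : n - D = r := by omega
    rw [h2] at e3
    rw [h3] at e4
    have hpos : 0 < (y.factorial * (a - y).factorial) * ((r - y).factorial * (D - (a - y)).factorial) := by
      positivity
    apply Nat.eq_of_mul_eq_mul_right hpos
    calc n.choose a * (a.choose y * (n - a).choose (r - y)) *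
          ((y.factorial * (a - y).factorial) * ((r - y).factorial * (D - (a - y)).factorial))
        = n.choose a * (a.choose y * y.factorial * (a - y).factorial) *
          ((n - a).choose (r - y) * (r - y).factorial * (D - (a - y)).factorial) := by ring
      _ = n.factorial := by rw [e2, e3, e1]
      _ = n.choose D * (D.choose (a - y) * (a - y).factorial * (D - (a - y)).factorial) *
          (r.choose y * y.factorial * (r - y).factorial) := by rw [e5, e6, e4]
      _ = _ := by ring
  · have h1 : n - a < r - y := by omega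
    rw [Nat.choose_eq_zero_of_lt h1, Nat.choose_eq_zero_of_lt (show D < a - y by omega)]
    ring

section uni

variable {D : ℕ} {H : ℕ → ℝ}

/-- the symmetric unimodal weight, extended by zero -/
noncomputable def PP (D : ℕ) (H : ℕ → ℝ) (x : ℤ) : ℝ :=
  if 0 ≤ x ∧ x ≤ D then (D.choose x.toNat : ℝ) * H x.toNat else 0

lemma PP_nat {x : ℕ} : PP D H x = (D.choose x : ℝ) * H x := by
  unfold PP
  by_cases h : x ≤ D
  · rw [if_pos ⟨by positivity, by exact_mod_cast h⟩]; simp
  · rw [if_neg (by push Not; intro _; exact_mod_cast not_le.mp h),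
      Nat.choose_eq_zero_of_lt (not_le.mp h)]
    simp

lemma PP_neg {x : ℤ} (hx : x < 0) : PP D H x = 0 := by
  unfold PP; rw [if_neg (by omega)]

lemma PP_symm (hsym : ∀ x, x ≤ D → H x = H (D - x)) (x : ℤ) : PP D H (D - x) = PP D H x := by
  by_cases h : 0 ≤ x ∧ x ≤ D
  · obtain ⟨k, rfl⟩ := Int.eq_ofNat_of_zero_le h.1
    have hk : k ≤ D := by exact_mod_cast h.2
    have : (D : ℤ) - k = ((D - k : ℕ) : ℤ) := by omega
    rw [this, PP_nat, PP_nat, Nat.choose_symm hk, ← hsym k hk]
  · unfold PP
    rw [if_neg h, if_neg (by omega)]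

lemma PP_nonneg (hpos : ∀ x, x ≤ D → 0 < H x) (x : ℤ) : 0 ≤ PP D H x := by
  unfold PP
  split_ifs with h
  · have := hpos x.toNat (by omega)
    positivity
  · exact le_rfl

lemma PP_pos (hpos : ∀ x, x ≤ D → 0 < H x) {x : ℤ} (h : 0 ≤ x ∧ x ≤ D) : 0 < PP D H x := by
  unfold PP
  rw [if_pos h]
  have := hpos x.toNat (by omega)
  have h2 : 0 < D.choose x.toNat := Nat.choose_pos (by omega)
  positivity

lemma PP_step (hpos : ∀ x, x ≤ D → 0 < H x) (hmono : ∀ x, 2 * x + 1 ≤ D → H x ≤ H (x + 1))
    {x : ℕ} (hx : 2 * (x + 1) ≤ D) : PP D H x < PP D H (x + 1 : ℕ) := by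
  rw [PP_nat, PP_nat]
  have h1 : D.choose x < D.choose (x + 1) := by
    have e := Nat.choose_succ_right_eq D x
    have e0 : 0 < D.choose x := Nat.choose_pos (by omega)
    by_contra hcon
    push Not at hcon
    have : D.choose x * (D - x) ≤ D.choose x * (x + 1) := by
      rw [← e]; exact Nat.mul_le_mul_right _ hcon
    have := Nat.le_of_mul_le_mul_left this e0
    omega
  have h2 := hmono x (by omega)
  have h3 := hpos x (by omega)
  have h1' : (D.choose x : ℝ) < D.choose (x + 1) := by exact_mod_cast h1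
  nlinarith

lemma PP_lt (hpos : ∀ x, x ≤ D → 0 < H x) (hmono : ∀ x, 2 * x + 1 ≤ D → H x ≤ H (x + 1))
    (k : ℕ) : ∀ x : ℕ, 2 * (x + 1 + k) ≤ D → PP D H x < PP D H (x + 1 + k : ℕ) := by
  induction k with
  | zero => intro x hx; exact PP_step hpos hmono hx
  | succ k ih =>
    intro x hx
    have h1 := ih x (by omega)
    have h2 := PP_step hpos hmono (x := x + 1 + k) (by omega)
    have : x + 1 + (k + 1) = x + 1 + k + 1 := by ring
    rw [this]
    linarith

lemma PP_lt_left (hpos : ∀ x, x ≤ D → 0 < H x) (hmono : ∀ x, 2 * x + 1 ≤ D → H x ≤ H (x + 1))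
    {x x' : ℤ} (h1 : x < x') (h2 : 2 * x' ≤ D) :
    PP D H x ≤ PP D H x' ∧ (0 ≤ x' → PP D H x < PP D H x') := by
  rcases lt_or_ge x' 0 with h3 | h3
  · rw [PP_neg (h1.trans h3), PP_neg h3]
    exact ⟨le_rfl, fun h => absurd h (by omega)⟩
  · have key : PP D H x < PP D H x' := by
      rcases lt_or_ge x 0 with h4 | h4
      · rw [PP_neg h4]; exact PP_pos hpos ⟨h3, by omega⟩
      · obtain ⟨k, rfl⟩ := Int.eq_ofNat_of_zero_le h4
        obtain ⟨k', rfl⟩ := Int.eq_ofNat_of_zero_le h3
        have : ∃ j, k' = k + 1 + j := ⟨k' - (k + 1), by omega⟩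
        obtain ⟨j, rfl⟩ := this
        exact PP_lt hpos hmono j k (by omega)
    exact ⟨key.le, fun _ => key⟩

/-- comparison by distance to the centre -/
lemma PP_compare (hsym : ∀ x, x ≤ D → H x = H (D - x)) (hpos : ∀ x, x ≤ D → 0 < H x)
    (hmono : ∀ x, 2 * x + 1 ≤ D → H x ≤ H (x + 1)) {x x' : ℤ}
    (h : |2 * x - D| < |2 * x' - D|) :
    PP D H x' ≤ PP D H x ∧ (0 ≤ x → x ≤ D → PP D H x' < PP D H x) := by
  obtain ⟨u, hu1, hu2, hu3⟩ : ∃ u : ℤ, PP D H u = PP D H x ∧ 2 * u ≤ D ∧
      (D - 2 * u = |2 * x - D| ∧ (0 ≤ x → x ≤ D → 0 ≤ u)) := by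
    rcases le_total (2 * x) D with h1 | h1
    · exact ⟨x, rfl, h1, by rw [abs_of_nonpos (by omega)]; omega, fun h _ => h⟩
    · exact ⟨D - x, PP_symm hsym x, by omega, by rw [abs_of_nonneg (by omega)]; omega,
        fun _ h => by omega⟩
  obtain ⟨w, hw1, hw2, hw3⟩ : ∃ u : ℤ, PP D H u = PP D H x' ∧ 2 * u ≤ D ∧
      (D - 2 * u = |2 * x' - D|) := by
    rcases le_total (2 * x') D with h1 | h1
    · exact ⟨x', rfl, h1, by rw [abs_of_nonpos (by omega)]; omega⟩
    · exact ⟨D - x', PP_symm hsym x', by omega, by rw [abs_of_nonneg (by omega)]; omega⟩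
  have hwu : w < u := by omega
  have key := PP_lt_left hpos hmono hwu hu2
  rw [hu1, hw1] at key
  exact ⟨key.1, fun a b => key.2 (hu3.2 a b)⟩

end uni

/-- the antisymmetric weight -/
noncomputable def WW (r : ℕ) (p q : ℝ) (y : ℕ) : ℝ :=
  (r.choose y : ℝ) * (q ^ y * p ^ (r - y) - p ^ y * q ^ (r - y))

lemma WW_refl {r y : ℕ} (hy : y ≤ r) (p q : ℝ) : WW r p q (r - y) = - WW r p q y := by
  unfold WW
  rw [Nat.choose_symm hy, Nat.sub_sub_self hy]
  ring

lemma WW_pos {r y : ℕ} (hy : 2 * y < r) {p q : ℝ} (hq : 0 < q) (hpq : q < p) : 0 < WW r p q y := by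
  unfold WW
  have h1 : 0 < r.choose y := Nat.choose_pos (by omega)
  have hp : 0 < p := hq.trans hpq
  have h2 : q ^ y * p ^ (r - y) - p ^ y * q ^ (r - y)
      = (p ^ y * q ^ y) * (p ^ (r - 2 * y) - q ^ (r - 2 * y)) := by
    have : r - y = y + (r - 2 * y) := by omega
    rw [this, pow_add, pow_add]; ring
  rw [h2]
  have h3 : q ^ (r - 2 * y) < p ^ (r - 2 * y) := pow_lt_pow_left₀ hpq hq.le (by omega)
  have h4 : 0 < p ^ (r - 2 * y) - q ^ (r - 2 * y) := by linarith
  have h5 : (0 : ℝ) < (r.choose y : ℝ) := by exact_mod_cast h1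
  positivity

theorem main_sum {a D r : ℕ} (hr : 0 < r) (ha : 2 * a < D + r) {H : ℕ → ℝ}
    (hsym : ∀ x, x ≤ D → H x = H (D - x)) (hpos : ∀ x, x ≤ D → 0 < H x)
    (hmono : ∀ x, 2 * x + 1 ≤ D → H x ≤ H (x + 1)) {p q : ℝ} (hq : 0 < q) (hpq : q < p) :
    0 < ∑ y ∈ range (r + 1), WW r p q y * PP D H ((a : ℤ) - y) := by
  have h2 : 2 * ∑ y ∈ range (r + 1), WW r p q y * PP D H ((a : ℤ) - y)
      = ∑ y ∈ range (r + 1), WW r p q y * (PP D H ((a : ℤ) - y) - PP D H ((a : ℤ) - (r - y : ℕ))) := by
    have hrefl := Finset.sum_range_reflect (fun y => WW r p q y * PP D H ((a : ℤ) - y)) (r + 1)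
    have h3 : ∑ y ∈ range (r + 1), WW r p q (r + 1 - 1 - y) * PP D H ((a : ℤ) - (r + 1 - 1 - y : ℕ))
        = ∑ y ∈ range (r + 1), -(WW r p q y * PP D H ((a : ℤ) - (r - y : ℕ))) := by
      apply Finset.sum_congr rfl
      intro y hy
      rw [mem_range] at hy
      rw [show r + 1 - 1 - y = r - y by omega, WW_refl (by omega)]
      ring
    rw [two_mul]
    conv_lhs =>
      enter [2]
      rw [← hrefl]
    rw [h3, ← Finset.sum_add_distrib]
    apply Finset.sum_congr rfl
    intro y _
    ring
  have hterm : ∀ y ∈ range (r + 1),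
      0 ≤ WW r p q y * (PP D H ((a : ℤ) - y) - PP D H ((a : ℤ) - (r - y : ℕ))) := by
    intro y hy
    rw [mem_range] at hy
    rcases lt_trichotomy (2 * y) r with h | h | h
    · have h1 := WW_pos h hq hpq
      have h3 := (PP_compare hsym hpos hmono (x := (a : ℤ) - y) (x' := (a : ℤ) - (r - y : ℕ)) (by
        rw [← sq_lt_sq]
        have e1 : ((r - y : ℕ) : ℤ) = r - y := by omega
        rw [e1]
        have e2 : (0 : ℤ) < r - 2 * y := by omega
        have e3 : (0 : ℤ) < D + r - 2 * a := by omega
        nlinarith [mul_pos e2 e3])).1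
      exact mul_nonneg h1.le (by linarith)
    · have : r - y = y := by omega
      rw [this]; simp
    · have h1 : WW r p q y < 0 := by
        have h4 := WW_pos (y := r - y) (r := r) (by omega) hq hpq
        rw [WW_refl (by omega)] at h4
        linarith
      have h3 := (PP_compare hsym hpos hmono (x' := (a : ℤ) - y) (x := (a : ℤ) - (r - y : ℕ)) (by
        rw [← sq_lt_sq]
        have e1 : ((r - y : ℕ) : ℤ) = r - y := by omega
        rw [e1]
        have e2 : (0 : ℤ) < 2 * y - r := by omega
        have e3 : (0 : ℤ) < D + r - 2 * a := by omega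
        nlinarith [mul_pos e2 e3])).1
      exact mul_nonneg_of_nonpos_of_nonpos h1.le (by linarith)
  have hstrict : ∃ y ∈ range (r + 1),
      0 < WW r p q y * (PP D H ((a : ℤ) - y) - PP D H ((a : ℤ) - (r - y : ℕ))) := by
    refine ⟨a - D, ?_, ?_⟩
    · rw [mem_range]; omega
    · have h : 2 * (a - D) < r := by omega
      have h1 := WW_pos h hq hpq
      have h3 := (PP_compare hsym hpos hmono (x := (a : ℤ) - (a - D : ℕ))
        (x' := (a : ℤ) - (r - (a - D) : ℕ)) (by
        rw [← sq_lt_sq]
        have e1 : ((r - (a - D) : ℕ) : ℤ) = r - (a - D : ℕ) := by omega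
        rw [e1]
        have e2 : (0 : ℤ) < r - 2 * (a - D : ℕ) := by omega
        have e3 : (0 : ℤ) < D + r - 2 * a := by omega
        nlinarith [mul_pos e2 e3])).2 (by omega) (by omega)
      exact mul_pos h1 (by linarith)
  have := Finset.sum_pos' hterm hstrict
  linarith

/-- The combinatorial inequality for sums over `r`-sets (complements of `J`). -/
theorem comb_main {n : ℕ} (A : Finset (Fin n)) {D r : ℕ} (hn : n = D + r) (hr : 0 < r)
    (ha : 2 * A.card < n) {H : ℕ → ℝ}
    (hsym : ∀ x, x ≤ D → H x = H (D - x)) (hpos : ∀ x, x ≤ D → 0 < H x)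
    (hmono : ∀ x, 2 * x + 1 ≤ D → H x ≤ H (x + 1)) {p q : ℝ} (hq : 0 < q) (hpq : q < p) :
    ∑ K ∈ powersetCard r (univ : Finset (Fin n)),
        H (A.card - (K ∩ A).card) * (p ^ (K ∩ A).card * q ^ (r - (K ∩ A).card))
      < ∑ K ∈ powersetCard r (univ : Finset (Fin n)),
        H (A.card - (K ∩ A).card) * (q ^ (K ∩ A).card * p ^ (r - (K ∩ A).card)) := by
  classical
  rw [← sub_pos, ← Finset.sum_sub_distrib]
  have h1 : ∀ K ∈ powersetCard r (univ : Finset (Fin n)),
      H (A.card - (K ∩ A).card) * (q ^ (K ∩ A).card * p ^ (r - (K ∩ A).card)) -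
      H (A.card - (K ∩ A).card) * (p ^ (K ∩ A).card * q ^ (r - (K ∩ A).card))
      = (fun y => H (A.card - y) * (q ^ y * p ^ (r - y) - p ^ y * q ^ (r - y))) (K ∩ A).card := by
    intro K _; simp only; ring
  rw [Finset.sum_congr rfl h1,
    sum_inter A r (fun y => H (A.card - y) * (q ^ y * p ^ (r - y) - p ^ y * q ^ (r - y)))]
  have hA : A.card ≤ n := by
    have := card_le_univ A
    simpa using this
  have hc : 0 < (n.choose A.card : ℝ) := by exact_mod_cast Nat.choose_pos hA
  have hcD : 0 < (n.choose D : ℝ) := by exact_mod_cast Nat.choose_pos (by omega)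
  have key : (n.choose A.card : ℝ) * ∑ y ∈ range (r + 1),
      ((A.card.choose y * (n - A.card).choose (r - y) : ℕ) : ℝ) *
        (H (A.card - y) * (q ^ y * p ^ (r - y) - p ^ y * q ^ (r - y)))
      = (n.choose D : ℝ) * ∑ y ∈ range (r + 1), WW r p q y * PP D H ((A.card : ℤ) - y) := by
    rw [Finset.mul_sum, Finset.mul_sum]
    apply Finset.sum_congr rfl
    intro y hy
    rw [mem_range] at hy
    by_cases hya : y ≤ A.card
    · have e1 : (A.card : ℤ) - y = ((A.card - y : ℕ) : ℤ) := by omega
      rw [e1, PP_nat]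
      have e2 := choose_identity hn hA (show y ≤ r by omega) hya
      have e3 : (n.choose A.card : ℝ) * ((A.card.choose y * (n - A.card).choose (r - y) : ℕ) : ℝ)
          = (n.choose D : ℝ) * ((r.choose y : ℝ) * (D.choose (A.card - y) : ℝ)) := by
        exact_mod_cast e2
      unfold WW
      linear_combination (H (A.card - y) * (q ^ y * p ^ (r - y) - p ^ y * q ^ (r - y))) * e3
    · rw [PP_neg (by omega), Nat.choose_eq_zero_of_lt (not_le.mp hya)]
      simp
  have hmain := main_sum (a := A.card) hr (by omega) hsym hpos hmono hq hpq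
  have : 0 < (n.choose A.card : ℝ) * ∑ y ∈ range (r + 1),
      ((A.card.choose y * (n - A.card).choose (r - y) : ℕ) : ℝ) *
        (H (A.card - y) * (q ^ y * p ^ (r - y) - p ^ y * q ^ (r - y))) := by
    rw [key]; exact mul_pos hcD hmain
  exact (pos_iff_pos_of_mul_pos this).mp hc

end Pool.Agent.H58Radon
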