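import Mathlib

set_option autoImplicit false

namespace Pool.Agent.H58Radon

open Finset

section det

variable {n d : ℕ}

/-- `(τ, g)` lies in the cone generated by the vectors `v k • (1, x k)`. -/
def Feas (v : Fin n → ℝ) (x : Fin n → Fin d → ℝ) (τ : ℝ) (g : Fin d → ℝ) : Prop :=
  ∃ μ : Fin n → ℝ, (∀ k, 0 ≤ μ k) ∧ ∑ k, μ k * v k = τ ∧ ∑ k, (μ k * v k) • x k = g

/-- general position -/
structure Gen (x : Fin n → Fin d → ℝ) (g : Fin d → ℝ) : Prop where
  g1 : ∀ J : Finset (Fin n), J.card = d → ∀ c : Fin n → ℝ, (∀ k, k ∉ J → c k = 0) →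
    ∑ k, c k • x k = 0 → c = 0
  g2 : ∀ T : Finset (Fin n), T.card = d + 1 → ∀ c : Fin n → ℝ, (∀ k, k ∉ T → c k = 0) →
    ∑ k, c k = 0 → ∑ k, c k • x k = 0 → c = 0
  g3 : ∀ J : Finset (Fin n), J.card < d → ∀ c : Fin n → ℝ, (∀ k, k ∉ J → c k = 0) →
    ∑ k, c k • x k ≠ g
  g4 : ∀ J : Finset (Fin n), J.card = d → ∀ w : Fin d → ℝ, (∀ k ∈ J, w ⬝ᵥ x k = 1) →
    w ⬝ᵥ g ≠ 1 ∧ w ⬝ᵥ g ≠ -1

/-- representation with support exactly `J` -/
def Rep (v : Fin n → ℝ) (x : Fin n → Fin d → ℝ) (g : Fin d → ℝ) (J : Finset (Fin n)) (τ : ℝ) :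
    Prop :=
  ∃ μ : Fin n → ℝ, (∀ k ∈ J, 0 < μ k) ∧ (∀ k, k ∉ J → μ k = 0) ∧ ∑ k, μ k * v k = τ ∧
    ∑ k, (μ k * v k) • x k = g

def ExitJ (v : Fin n → ℝ) (x : Fin n → Fin d → ℝ) (g : Fin d → ℝ) (J : Finset (Fin n)) : Prop :=
  (∃ τ, |τ| < 1 ∧ Rep v x g J τ) ∧
    ∃ w : Fin d → ℝ, (∀ k ∈ J, w ⬝ᵥ x k = 1) ∧ ∀ k, k ∉ J → v k * (1 - w ⬝ᵥ x k) < 0

def EntryJ (v : Fin n → ℝ) (x : Fin n → Fin d → ℝ) (g : Fin d → ℝ) (J : Finset (Fin n)) : Prop :=
  (∃ τ, |τ| < 1 ∧ Rep v x g J τ) ∧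
    ∃ w : Fin d → ℝ, (∀ k ∈ J, w ⬝ᵥ x k = 1) ∧ ∀ k, k ∉ J → 0 < v k * (1 - w ⬝ᵥ x k)

/-- evaluation of the functional `(t, z) ↦ t - w ⬝ z` on a combination -/
lemma functional_eval (v : Fin n → ℝ) (x : Fin n → Fin d → ℝ) (w : Fin d → ℝ) (μ : Fin n → ℝ) :
    ∑ k, μ k * v k - w ⬝ᵥ (∑ k, (μ k * v k) • x k) = ∑ k, μ k * (v k * (1 - w ⬝ᵥ x k)) := by
  rw [dotProduct_sum, ← Finset.sum_sub_distrib]
  apply Finset.sum_congr rfl
  intro k _
  rw [dotProduct_smul, smul_eq_mul]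
  ring

/-- `w` exists for independent `J` -/
lemma exists_w {x : Fin n → Fin d → ℝ} {g : Fin d → ℝ} (hG : Gen x g) {J : Finset (Fin n)}
    (hJ : J.card = d) : ∃ w : Fin d → ℝ, ∀ k ∈ J, w ⬝ᵥ x k = 1 := by
  classical
  let e := J.orderIsoOfFin hJ
  let M : Matrix (Fin d) (Fin d) ℝ := fun i => x (e i)
  have hinj : Function.Injective fun c : Fin d → ℝ => Matrix.vecMul c M := by
    rw [← Matrix.coe_vecMulLinear, ← LinearMap.ker_eq_bot]
    rw [LinearMap.ker_eq_bot']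
    intro c hc
    let c' : Fin n → ℝ := fun k => if h : k ∈ J then c (e.symm ⟨k, h⟩) else 0
    have h0 : c' = 0 := by
      apply hG.g1 J hJ c'
      · intro k hk; simp [c', hk]
      · have h1 : ∑ k, c' k • x k = ∑ k ∈ J, c' k • x k := by
          symm
          apply Finset.sum_subset (Finset.subset_univ _)
          intro k _ hk; simp [c', hk]
        rw [h1, ← Finset.sum_coe_sort J]
        rw [← e.toEquiv.sum_comp]
        have h2 : ∀ i : Fin d, c' (e.toEquiv i) = c i := by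
          intro i
          have : ((e i : J) : Fin n) ∈ J := (e i).2
          simp [c']
        simp only [h2]
        have h3 : (∑ i, c i • M i) = Matrix.vecMul c M := by
          ext j; simp [Matrix.vecMul, dotProduct, Finset.sum_apply]
        simpa [h3, M] using hc
    ext i
    have := congrFun h0 (e i)
    simpa [c'] using this
  have hunit : IsUnit M := Matrix.vecMul_injective_iff_isUnit.mp hinj
  have hsurj : Function.Surjective M.mulVec := Matrix.mulVec_surjective_iff_isUnit.mpr hunit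
  obtain ⟨w, hw⟩ := hsurj 1
  refine ⟨w, ?_⟩
  intro k hk
  have := congrFun hw (e.symm ⟨k, hk⟩)
  simp only [Matrix.mulVec, M, Pi.one_apply] at this
  rw [dotProduct_comm]
  simpa using this

/-- the map on coefficient vectors supported on `T` -/
noncomputable def Lmap (v : Fin n → ℝ) (x : Fin n → Fin d → ℝ) (T : Finset (Fin n)) :
    (↥T → ℝ) →ₗ[ℝ] ℝ × (Fin d → ℝ) where
  toFun f := (∑ k : T, f k * v k, ∑ k : T, (f k * v k) • x k)
  map_add' f f' := by
    simp [add_mul, add_smul, Finset.sum_add_distrib]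
  map_smul' c f := by
    simp [mul_assoc, Finset.mul_sum, Finset.smul_sum, smul_smul]

/-- extension by zero -/
noncomputable def ext0 (T : Finset (Fin n)) (f : ↥T → ℝ) : Fin n → ℝ :=
  fun k => if h : k ∈ T then f ⟨k, h⟩ else 0

lemma ext0_sum {E : Type} [AddCommGroup E] [Module ℝ E] (T : Finset (Fin n)) (f : ↥T → ℝ)
    (y : Fin n → E) : ∑ k, ext0 T f k • y k = ∑ k : T, f k • y k := by
  have h1 : ∑ k, ext0 T f k • y k = ∑ k ∈ T, ext0 T f k • y k := by
    symm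
    apply Finset.sum_subset (Finset.subset_univ _)
    intro k _ hk; simp [ext0, hk]
  rw [h1, ← Finset.sum_coe_sort T]
  apply Finset.sum_congr rfl
  intro k _
  simp [ext0]

lemma ext0_Lmap (v : Fin n → ℝ) (x : Fin n → Fin d → ℝ) (T : Finset (Fin n)) (f : ↥T → ℝ) :
    (∑ k, ext0 T f k * v k, ∑ k, (ext0 T f k * v k) • x k) = Lmap v x T f := by
  have h1 := ext0_sum T f v
  have h2 := ext0_sum T f (fun k => v k • x k)
  simp only [smul_eq_mul] at h1
  simp only [smul_smul] at h2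
  rw [Prod.ext_iff]
  exact ⟨h1, h2⟩

lemma Lmap_injective {v : Fin n → ℝ} (hv : ∀ k, v k ≠ 0) {x : Fin n → Fin d → ℝ}
    {g : Fin d → ℝ} (hG : Gen x g) {T : Finset (Fin n)} (hT : T.card = d + 1) :
    Function.Injective (Lmap v x T) := by
  rw [← LinearMap.ker_eq_bot, LinearMap.ker_eq_bot']
  intro f hf
  rw [← ext0_Lmap, Prod.ext_iff] at hf
  have h0 := hG.g2 T hT (fun k => ext0 T f k * v k) (by intro k hk; simp [ext0, hk]) hf.1 hf.2
  ext k
  have := congrFun h0 k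
  simpa [ext0, hv k] using this

noncomputable def Lequiv {v : Fin n → ℝ} (hv : ∀ k, v k ≠ 0) {x : Fin n → Fin d → ℝ}
    {g : Fin d → ℝ} (hG : Gen x g) {T : Finset (Fin n)} (hT : T.card = d + 1) :
    (↥T → ℝ) ≃ₗ[ℝ] ℝ × (Fin d → ℝ) :=
  LinearMap.linearEquivOfInjective (Lmap v x T) (Lmap_injective hv hG hT) (by
    simp [hT, add_comm])

lemma Lequiv_apply {v : Fin n → ℝ} (hv : ∀ k, v k ≠ 0) {x : Fin n → Fin d → ℝ}
    {g : Fin d → ℝ} (hG : Gen x g) {T : Finset (Fin n)} (hT : T.card = d + 1) (f : ↥T → ℝ) :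
    Lequiv hv hG hT f = Lmap v x T f := rfl

/-- a direction supported on `T` moving `τ` up -/
lemma exists_dir {v : Fin n → ℝ} (hv : ∀ k, v k ≠ 0) {x : Fin n → Fin d → ℝ}
    {g : Fin d → ℝ} (hG : Gen x g) {T : Finset (Fin n)} (hT : T.card = d + 1) :
    ∃ δ : Fin n → ℝ, (∀ k, k ∉ T → δ k = 0) ∧ ∑ k, δ k * v k = 1 ∧
      ∑ k, (δ k * v k) • x k = 0 := by
  obtain ⟨f, hf⟩ := (Lequiv hv hG hT).surjective (1, 0)
  rw [Lequiv_apply, ← ext0_Lmap, Prod.ext_iff] at hf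
  exact ⟨ext0 T f, fun k hk => by simp [ext0, hk], hf.1, hf.2⟩

/-- Improving direction. -/
lemma improve {v : Fin n → ℝ} {x : Fin n → Fin d → ℝ} {g : Fin d → ℝ} {μ δ : Fin n → ℝ}
    {τ : ℝ} (hμ : ∀ k, 0 ≤ μ k) (hδ : ∀ k, 0 < μ k ∨ 0 ≤ δ k)
    (h1 : ∑ k, μ k * v k = τ) (h2 : ∑ k, (μ k * v k) • x k = g)
    (h3 : ∑ k, δ k * v k = 1) (h4 : ∑ k, (δ k * v k) • x k = 0) {τ' : ℝ} (hτ : τ < τ') :
    ∃ t, τ < t ∧ t ≤ τ' ∧ Feas v x t g := by
  have hev : ∀ᶠ ε in nhdsWithin (0 : ℝ) (Set.Ioi 0), (∀ k, 0 ≤ μ k + ε * δ k) := by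
    rw [Filter.eventually_all]
    intro k
    rcases hδ k with h | h
    · have hc : Filter.Tendsto (fun ε : ℝ => μ k + ε * δ k) (nhdsWithin 0 (Set.Ioi 0))
          (nhds (μ k + 0 * δ k)) := by
        apply Filter.Tendsto.mono_left _ nhdsWithin_le_nhds
        exact (continuous_const.add (continuous_id.mul continuous_const)).tendsto 0
      have := hc.eventually (lt_mem_nhds (show 0 < μ k + 0 * δ k by simpa using h))
      filter_upwards [this] with ε hε using hε.le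
    · filter_upwards [self_mem_nhdsWithin] with ε hε
      have : 0 ≤ ε * δ k := mul_nonneg (le_of_lt hε) h
      linarith [hμ k]
  have hev2 : ∀ᶠ ε in nhdsWithin (0 : ℝ) (Set.Ioi 0), ε < τ' - τ :=
    nhdsWithin_le_nhds (gt_mem_nhds (by linarith))
  obtain ⟨ε, ⟨h5, h6⟩, h7⟩ := ((hev.and hev2).and self_mem_nhdsWithin).exists
  have h7' : 0 < ε := h7
  refine ⟨τ + ε, by linarith, by linarith, fun k => μ k + ε * δ k, h5, ?_, ?_⟩
  · have : ∑ k, (μ k + ε * δ k) * v k = ∑ k, μ k * v k + ε * ∑ k, δ k * v k := by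
      rw [Finset.mul_sum, ← Finset.sum_add_distrib]
      apply Finset.sum_congr rfl; intro k _; ring
    rw [this, h1, h3]; ring
  · have : ∑ k, ((μ k + ε * δ k) * v k) • x k
        = ∑ k, (μ k * v k) • x k + ε • ∑ k, (δ k * v k) • x k := by
      rw [Finset.smul_sum, ← Finset.sum_add_distrib]
      apply Finset.sum_congr rfl; intro k _
      rw [smul_smul, ← add_smul]; congr 1; ring
    rw [this, h2, h4]; simp

/-- small support -/
lemma exists_small_support {v : Fin n → ℝ} {x : Fin n → Fin d → ℝ} {g : Fin d → ℝ} {τ : ℝ}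
    (h : Feas v x τ g) : ∃ μ : Fin n → ℝ, (∀ k, 0 ≤ μ k) ∧ ∑ k, μ k * v k = τ ∧
      ∑ k, (μ k * v k) • x k = g ∧ (univ.filter fun k => μ k ≠ 0).card ≤ d + 1 := by
  classical
  have hex : ∃ N : ℕ, ∃ μ : Fin n → ℝ, (∀ k, 0 ≤ μ k) ∧ ∑ k, μ k * v k = τ ∧
      ∑ k, (μ k * v k) • x k = g ∧ (univ.filter fun k => μ k ≠ 0).card = N := by
    obtain ⟨μ, h1, h2, h3⟩ := h
    exact ⟨_, μ, h1, h2, h3, rfl⟩
  obtain ⟨μ, h1, h2, h3, h4⟩ := Nat.find_spec hex
  refine ⟨μ, h1, h2, h3, ?_⟩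
  by_contra hcon
  push Not at hcon
  set T := univ.filter fun k => μ k ≠ 0 with hT
  -- a nontrivial dependency supported on T
  have hker : (Lmap v x T).ker ≠ ⊥ := by
    apply LinearMap.ker_ne_bot_of_finrank_lt
    simp
    omega
  obtain ⟨f, hf, hf0⟩ := (Submodule.ne_bot_iff _).mp hker
  rw [LinearMap.mem_ker, ← ext0_Lmap, Prod.ext_iff] at hf
  have hf1 : ∑ k, ext0 T f k * v k = 0 := hf.1
  have hf2 : ∑ k, (ext0 T f k * v k) • x k = 0 := hf.2
  -- choose sign such that some coefficient is positive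
  obtain ⟨c, hcT, hc1, hc2, k0, hk0⟩ : ∃ c : Fin n → ℝ, (∀ k, k ∉ T → c k = 0) ∧
      ∑ k, c k * v k = 0 ∧ ∑ k, (c k * v k) • x k = 0 ∧ ∃ k, 0 < c k := by
    obtain ⟨k, hk⟩ := Function.ne_iff.mp hf0
    have hk' : ext0 T f k ≠ 0 := by simpa [ext0] using hk
    rcases lt_or_gt_of_ne hk' with h | h
    · refine ⟨fun j => - ext0 T f j, fun j hj => by simp [ext0, hj], ?_, ?_, k, by linarith⟩
      · have : ∑ j, (- ext0 T f j) * v j = - ∑ j, ext0 T f j * v j := by
          rw [← Finset.sum_neg_distrib]; apply Finset.sum_congr rfl; intro j _; ring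
        rw [this, hf1]; simp
      · have : ∑ j, ((- ext0 T f j) * v j) • x j = - ∑ j, (ext0 T f j * v j) • x j := by
          rw [← Finset.sum_neg_distrib]; apply Finset.sum_congr rfl; intro j _
          rw [neg_mul, neg_smul]
        rw [this, hf2]; simp
    · exact ⟨ext0 T f, fun j hj => by simp [ext0, hj], hf1, hf2, k, h⟩
  -- the ratio test
  obtain ⟨j, hj, hjmin⟩ := Finset.exists_min_image (univ.filter fun k => 0 < c k)
    (fun k => μ k / c k) ⟨k0, by simp [hk0]⟩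
  simp only [Finset.mem_filter, Finset.mem_univ, true_and] at hj hjmin
  set t := μ j / c j with ht
  have ht0 : 0 ≤ t := div_nonneg (h1 j) hj.le
  have hjT : j ∈ T := by
    by_contra hjT
    rw [hcT j hjT] at hj
    exact lt_irrefl _ hj
  let μ' : Fin n → ℝ := fun k => μ k - t * c k
  have hμ' : ∀ k, 0 ≤ μ' k := by
    intro k
    by_cases hk : 0 < c k
    · have := hjmin k hk
      rw [le_div_iff₀ hk] at this
      simp only [μ']; linarith
    · push Not at hk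
      have : t * c k ≤ 0 := mul_nonpos_of_nonneg_of_nonpos ht0 hk
      simp only [μ']; linarith [h1 k]
  have hμ'j : μ' j = 0 := by
    simp only [μ', ht]
    field_simp
    ring
  have hsum1 : ∑ k, μ' k * v k = τ := by
    have : ∑ k, μ' k * v k = ∑ k, μ k * v k - t * ∑ k, c k * v k := by
      rw [Finset.mul_sum, ← Finset.sum_sub_distrib]
      apply Finset.sum_congr rfl; intro k _; simp only [μ']; ring
    rw [this, h2, hc1]; ring
  have hsum2 : ∑ k, (μ' k * v k) • x k = g := by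
    have : ∑ k, (μ' k * v k) • x k = ∑ k, (μ k * v k) • x k - t • ∑ k, (c k * v k) • x k := by
      rw [Finset.smul_sum, ← Finset.sum_sub_distrib]
      apply Finset.sum_congr rfl; intro k _
      simp only [μ']
      rw [smul_smul, ← sub_smul]; congr 1; ring
    rw [this, h3, hc2]; simp
  have hsub : (univ.filter fun k => μ' k ≠ 0) ⊂ T := by
    rw [Finset.ssubset_iff_of_subset]
    · exact ⟨j, hjT, by simp [hμ'j]⟩
    · intro k hk
      simp only [Finset.mem_filter, Finset.mem_univ, true_and] at hk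
      by_contra hkT
      have h5 : μ k = 0 := by
        by_contra h6
        exact hkT (by simp [hT, h6])
      apply hk
      simp [μ', h5, hcT k hkT]
  have hlt := Finset.card_lt_card hsub
  have := Nat.find_min' hex ⟨μ', hμ', hsum1, hsum2, rfl⟩
  omega

/-- the set of feasible `τ` is closed -/
lemma isClosed_feas {v : Fin n → ℝ} (hv : ∀ k, v k ≠ 0) {x : Fin n → Fin d → ℝ}
    {g : Fin d → ℝ} (hG : Gen x g) (hn : d + 1 ≤ n) : IsClosed {τ : ℝ | Feas v x τ g} := by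
  classical
  have hEq : {τ : ℝ | Feas v x τ g} = ⋃ T : {T : Finset (Fin n) // T.card = d + 1},
      {τ : ℝ | ∀ k, 0 ≤ (Lequiv hv hG T.2).symm (τ, g) k} := by
    ext τ
    simp only [Set.mem_setOf_eq, Set.mem_iUnion]
    constructor
    · intro h
      obtain ⟨μ, h1, h2, h3, h4⟩ := exists_small_support h
      obtain ⟨T, hsub, hT⟩ := Finset.exists_superset_card_eq h4 (by simpa using hn)
      refine ⟨⟨T, hT⟩, ?_⟩
      have h5 : Lequiv hv hG hT (fun k => μ k) = (τ, g) := by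
        rw [Lequiv_apply, ← ext0_Lmap]
        have h6 : ext0 T (fun k => μ k) = μ := by
          ext k
          by_cases hk : k ∈ T
          · simp [ext0, hk]
          · have : μ k = 0 := by
              by_contra h7
              exact hk (hsub (by simp [h7]))
            simp [ext0, hk, this]
        rw [h6, h2, h3]
      rw [← h5, LinearEquiv.symm_apply_apply]
      intro k; exact h1 _
    · rintro ⟨⟨T, hT⟩, h⟩
      refine ⟨ext0 T ((Lequiv hv hG hT).symm (τ, g)), ?_, ?_⟩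
      · intro k
        by_cases hk : k ∈ T
        · simp only [ext0, hk, dif_pos]; exact h _
        · simp [ext0, hk]
      · have h5 : Lequiv hv hG hT ((Lequiv hv hG hT).symm (τ, g)) = (τ, g) :=
          LinearEquiv.apply_symm_apply _ _
        rw [Lequiv_apply, ← ext0_Lmap, Prod.ext_iff] at h5
        exact h5
  rw [hEq]
  apply isClosed_iUnion_of_finite
  rintro ⟨T, hT⟩
  have : {τ : ℝ | ∀ k, 0 ≤ (Lequiv hv hG hT).symm (τ, g) k}
      = ⋂ k, {τ : ℝ | 0 ≤ (Lequiv hv hG hT).symm (τ, g) k} := by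
    ext τ; simp
  rw [this]
  apply isClosed_iInter
  intro k
  apply isClosed_le continuous_const
  have hc : Continuous (Lequiv hv hG hT).symm :=
    (Lequiv hv hG hT).symm.toLinearMap.continuous_of_finiteDimensional
  exact (continuous_apply k).comp (hc.comp (by fun_prop))

/-- Existence of an exit facet, with the location. -/
lemma exists_exit {v : Fin n → ℝ} (hv : ∀ k, v k ≠ 0) {x : Fin n → Fin d → ℝ}
    {g : Fin d → ℝ} (hG : Gen x g) (hn : d + 1 ≤ n) {τ₀ τ₁ : ℝ} (h0 : Feas v x τ₀ g)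
    (h1 : ¬ Feas v x τ₁ g) (h01 : τ₀ < τ₁) :
    ∃ J : Finset (Fin n), J.card = d ∧ ∃ τ, τ₀ ≤ τ ∧ τ < τ₁ ∧ Rep v x g J τ ∧
      ∃ w : Fin d → ℝ, (∀ k ∈ J, w ⬝ᵥ x k = 1) ∧ ∀ k, k ∉ J → v k * (1 - w ⬝ᵥ x k) < 0 := by
  classical
  have hcl := isClosed_feas hv hG hn
  have hcomp : IsCompact ({τ : ℝ | Feas v x τ g} ∩ Set.Icc τ₀ τ₁) := isCompact_Icc.inter_left hcl
  obtain ⟨τ, ⟨hτf, hτ0, hτ1⟩, hmax⟩ := hcomp.exists_isGreatest ⟨τ₀, h0, le_rfl, h01.le⟩
  have hτlt : τ < τ₁ := by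
    rcases lt_or_eq_of_le hτ1 with h | h
    · exact h
    · rw [h] at hτf; exact absurd hτf h1
  have hnomore : ∀ δ μ : Fin n → ℝ, (∀ k, 0 ≤ μ k) → (∀ k, 0 < μ k ∨ 0 ≤ δ k) →
      ∑ k, μ k * v k = τ → ∑ k, (μ k * v k) • x k = g → ∑ k, δ k * v k = 1 →
      ∑ k, (δ k * v k) • x k = 0 → False := by
    intro δ μ a1 a2 a3 a4 a5 a6
    obtain ⟨t, ht1, ht2, ht3⟩ := improve a1 a2 a3 a4 a5 a6 hτlt
    exact absurd (hmax ⟨ht3, by linarith, ht2⟩) (not_le.mpr ht1)
  obtain ⟨μ, m1, m2, m3, m4⟩ := exists_small_support hτf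
  set J := univ.filter fun k => μ k ≠ 0 with hJ
  have hJμ : ∀ k, k ∉ J → μ k = 0 := by
    intro k hk
    by_contra h
    exact hk (by simp [hJ, h])
  have hJpos : ∀ k ∈ J, 0 < μ k := by
    intro k hk
    simp only [hJ, Finset.mem_filter, Finset.mem_univ, true_and] at hk
    exact lt_of_le_of_ne (m1 k) (Ne.symm hk)
  have hJd : J.card = d := by
    rcases lt_trichotomy J.card d with h | h | h
    · exfalso
      exact hG.g3 J h (fun k => μ k * v k) (fun k hk => by simp [hJμ k hk]) m3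
    · exact h
    · exfalso
      have hT : J.card = d + 1 := by omega
      obtain ⟨δ, d1, d2, d3⟩ := exists_dir hv hG hT
      apply hnomore δ μ m1 _ m2 m3 d2 d3
      intro k
      by_cases hk : k ∈ J
      · exact Or.inl (hJpos k hk)
      · exact Or.inr (by rw [d1 k hk])
  obtain ⟨w, hw⟩ := exists_w hG hJd
  refine ⟨J, hJd, τ, hτ0, hτlt, ⟨μ, hJpos, hJμ, m2, m3⟩, w, hw, ?_⟩
  intro k hk
  have hT : (insert k J).card = d + 1 := by rw [Finset.card_insert_of_notMem hk, hJd]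
  obtain ⟨δ, d1, d2, d3⟩ := exists_dir hv hG hT
  have hval := functional_eval v x w δ
  rw [d2, d3] at hval
  have hsum : ∑ j, δ j * (v j * (1 - w ⬝ᵥ x j)) = δ k * (v k * (1 - w ⬝ᵥ x k)) := by
    rw [Finset.sum_eq_single k]
    · intro j _ hj
      by_cases hjJ : j ∈ J
      · rw [hw j hjJ]; ring
      · rw [d1 j (by simp [hj, hjJ])]; ring
    · intro h; exact absurd (Finset.mem_univ _) h
  rw [hsum] at hval
  simp only [dotProduct_zero, sub_zero] at hval
  by_contra hcon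
  push Not at hcon
  have hδk : 0 < δ k := by
    by_contra h
    push Not at h
    have := mul_nonpos_of_nonpos_of_nonneg h hcon
    linarith
  apply hnomore δ μ m1 _ m2 m3 d2 d3
  intro j
  by_cases hj : j ∈ J
  · exact Or.inl (hJpos j hj)
  · right
    by_cases hjk : j = k
    · rw [hjk]; exact hδk.le
    · rw [d1 j (by simp [hj, hjk])]

/-- reflection -/
lemma feas_neg {v : Fin n → ℝ} {x : Fin n → Fin d → ℝ} {g : Fin d → ℝ} {τ : ℝ} :
    Feas (-v) x (-τ) (-g) ↔ Feas v x τ g := by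
  unfold Feas
  constructor <;>
  · rintro ⟨μ, h1, h2, h3⟩
    refine ⟨μ, h1, ?_, ?_⟩
    · simp only [Pi.neg_apply, mul_neg, Finset.sum_neg_distrib] at *
      linarith
    · simp only [Pi.neg_apply, mul_neg, neg_smul, Finset.sum_neg_distrib] at *
      first
        | rw [h3]
        | (rw [← neg_inj, h3])

lemma rep_neg {v : Fin n → ℝ} {x : Fin n → Fin d → ℝ} {g : Fin d → ℝ} {τ : ℝ}
    {J : Finset (Fin n)} : Rep (-v) x (-g) J (-τ) ↔ Rep v x g J τ := by
  unfold Rep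
  constructor <;>
  · rintro ⟨μ, h0, h1, h2, h3⟩
    refine ⟨μ, h0, h1, ?_, ?_⟩
    · simp only [Pi.neg_apply, mul_neg, Finset.sum_neg_distrib] at *
      linarith
    · simp only [Pi.neg_apply, mul_neg, neg_smul, Finset.sum_neg_distrib] at *
      first
        | rw [h3]
        | (rw [← neg_inj, h3])

lemma Gen.neg {x : Fin n → Fin d → ℝ} {g : Fin d → ℝ} (hG : Gen x g) : Gen x (-g) where
  g1 := hG.g1
  g2 := hG.g2
  g3 := by
    intro J hJ c hc h
    apply hG.g3 J hJ (fun k => - c k) (fun k hk => by simp [hc k hk])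
    simp only [neg_smul, Finset.sum_neg_distrib]
    rw [h, neg_neg]
  g4 := by
    intro J hJ w hw
    obtain ⟨h1, h2⟩ := hG.g4 J hJ w hw
    simp only [dotProduct_neg]
    constructor
    · intro h; apply h2; linarith
    · intro h; apply h1; linarith

/-- Existence of an entry facet, with the location. -/
lemma exists_entry {v : Fin n → ℝ} (hv : ∀ k, v k ≠ 0) {x : Fin n → Fin d → ℝ}
    {g : Fin d → ℝ} (hG : Gen x g) (hn : d + 1 ≤ n) {τ₀ τ₁ : ℝ} (h0 : ¬ Feas v x τ₀ g)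
    (h1 : Feas v x τ₁ g) (h01 : τ₀ < τ₁) :
    ∃ J : Finset (Fin n), J.card = d ∧ ∃ τ, τ₀ < τ ∧ τ ≤ τ₁ ∧ Rep v x g J τ ∧
      ∃ w : Fin d → ℝ, (∀ k ∈ J, w ⬝ᵥ x k = 1) ∧ ∀ k, k ∉ J → 0 < v k * (1 - w ⬝ᵥ x k) := by
  obtain ⟨J, hJ, τ, a1, a2, a3, w, hw, hw2⟩ := exists_exit (v := -v)
    (fun k => by simpa using hv k) hG.neg hn (τ₀ := -τ₁) (τ₁ := -τ₀)
    (feas_neg.mpr h1) (fun h => h0 (feas_neg.mp h)) (by linarith)
  refine ⟨J, hJ, -τ, by linarith, by linarith, ?_, w, hw, ?_⟩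
  · rw [← rep_neg, neg_neg]; exact a3
  · intro k hk
    have := hw2 k hk
    simp only [Pi.neg_apply] at this
    linarith

lemma rep_feas {v : Fin n → ℝ} {x : Fin n → Fin d → ℝ} {g : Fin d → ℝ} {τ : ℝ}
    {J : Finset (Fin n)} (h : Rep v x g J τ) : Feas v x τ g := by
  obtain ⟨μ, h0, h1, h2, h3⟩ := h
  refine ⟨μ, fun k => ?_, h2, h3⟩
  by_cases hk : k ∈ J
  · exact (h0 k hk).le
  · rw [h1 k hk]

/-- the location of a representation is `w ⬝ g` -/
lemma rep_location {v : Fin n → ℝ} {x : Fin n → Fin d → ℝ} {g : Fin d → ℝ} {τ : ℝ}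
    {J : Finset (Fin n)} (h : Rep v x g J τ) {w : Fin d → ℝ} (hw : ∀ k ∈ J, w ⬝ᵥ x k = 1) :
    τ = w ⬝ᵥ g := by
  obtain ⟨μ, h0, h1, h2, h3⟩ := h
  have := functional_eval v x w μ
  rw [h2, h3, Finset.sum_eq_zero] at this
  · linarith
  · intro k _
    by_cases hk : k ∈ J
    · rw [hw k hk]; ring
    · rw [h1 k hk]; ring

/-- an exit bounds all feasible values from above -/
lemma exit_bound {v : Fin n → ℝ} {x : Fin n → Fin d → ℝ} {g : Fin d → ℝ}
    {J : Finset (Fin n)} {w : Fin d → ℝ} (hw : ∀ k ∈ J, w ⬝ᵥ x k = 1)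
    (hw2 : ∀ k, k ∉ J → v k * (1 - w ⬝ᵥ x k) < 0) {t : ℝ} (ht : Feas v x t g) :
    t ≤ w ⬝ᵥ g := by
  obtain ⟨μ, h1, h2, h3⟩ := ht
  have := functional_eval v x w μ
  rw [h2, h3] at this
  have h4 : ∑ k, μ k * (v k * (1 - w ⬝ᵥ x k)) ≤ 0 := by
    apply Finset.sum_nonpos
    intro k _
    by_cases hk : k ∈ J
    · rw [hw k hk]; simp
    · exact mul_nonpos_of_nonneg_of_nonpos (h1 k) (hw2 k hk).le
  linarith

lemma entry_bound {v : Fin n → ℝ} {x : Fin n → Fin d → ℝ} {g : Fin d → ℝ}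
    {J : Finset (Fin n)} {w : Fin d → ℝ} (hw : ∀ k ∈ J, w ⬝ᵥ x k = 1)
    (hw2 : ∀ k, k ∉ J → 0 < v k * (1 - w ⬝ᵥ x k)) {t : ℝ} (ht : Feas v x t g) :
    w ⬝ᵥ g ≤ t := by
  obtain ⟨μ, h1, h2, h3⟩ := ht
  have := functional_eval v x w μ
  rw [h2, h3] at this
  have h4 : 0 ≤ ∑ k, μ k * (v k * (1 - w ⬝ᵥ x k)) := by
    apply Finset.sum_nonneg
    intro k _
    by_cases hk : k ∈ J
    · rw [hw k hk]; simp
    · exact mul_nonneg (h1 k) (hw2 k hk).le
  linarith

/-- exit facets are unique -/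
lemma exit_unique {v : Fin n → ℝ} {x : Fin n → Fin d → ℝ} {g : Fin d → ℝ}
    {J J' : Finset (Fin n)} (hJ : J.card = J'.card) (h : ExitJ v x g J) (h' : ExitJ v x g J') :
    J = J' := by
  obtain ⟨⟨τ, hτ, hr⟩, w, hw, hw2⟩ := h
  obtain ⟨⟨τ', hτ', hr'⟩, w', hw', hw2'⟩ := h'
  have e1 := rep_location hr hw
  have e2 := rep_location hr' hw'
  have e3 : τ' ≤ τ := by rw [e1]; exact exit_bound hw hw2 (rep_feas hr')
  have e4 : τ ≤ τ' := by rw [e2]; exact exit_bound hw' hw2' (rep_feas hr)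
  have e5 : τ' = τ := le_antisymm e3 e4
  symm
  apply Finset.eq_of_subset_of_card_le _ hJ.le
  intro k hk
  by_contra hkJ
  obtain ⟨μ, h0, h1, h2, h3⟩ := hr'
  have := functional_eval v x w μ
  rw [h2, h3, e5, e1, sub_self] at this
  have h4 : ∑ k, μ k * (v k * (1 - w ⬝ᵥ x k)) < 0 := by
    apply Finset.sum_neg'
    · intro j _
      by_cases hj : j ∈ J
      · rw [hw j hj]; simp
      · apply mul_nonpos_of_nonneg_of_nonpos _ (hw2 j hj).le
        by_cases hj' : j ∈ J'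
        · exact (h0 j hj').le
        · rw [h1 j hj']
    · exact ⟨k, Finset.mem_univ _, mul_neg_of_pos_of_neg (h0 k hk) (hw2 k hkJ)⟩
  linarith

lemma entry_iff_exit {v : Fin n → ℝ} {x : Fin n → Fin d → ℝ} {g : Fin d → ℝ}
    {J : Finset (Fin n)} : EntryJ v x g J ↔ ExitJ (-v) x (-g) J := by
  unfold EntryJ ExitJ
  constructor
  · rintro ⟨⟨τ, h1, h2⟩, w, hw, hw2⟩
    refine ⟨⟨-τ, by simpa using h1, rep_neg.mpr h2⟩, w, hw, ?_⟩
    intro k hk
    have := hw2 k hk
    simp only [Pi.neg_apply]; linarith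
  · rintro ⟨⟨τ, h1, h2⟩, w, hw, hw2⟩
    refine ⟨⟨-τ, by simpa using h1, ?_⟩, w, hw, ?_⟩
    · rw [← rep_neg, neg_neg]; exact h2
    · intro k hk
      have := hw2 k hk
      simp only [Pi.neg_apply] at this; linarith

lemma entry_unique {v : Fin n → ℝ} {x : Fin n → Fin d → ℝ} {g : Fin d → ℝ}
    {J J' : Finset (Fin n)} (hJ : J.card = J'.card) (h : EntryJ v x g J)
    (h' : EntryJ v x g J') : J = J' :=
  exit_unique hJ (entry_iff_exit.mp h) (entry_iff_exit.mp h')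

open Classical in
/-- Counting identity between the feasibility at `-1` and `1` and the exits and entries. -/
theorem count_identity {v : Fin n → ℝ} (hv : ∀ k, v k ≠ 0) {x : Fin n → Fin d → ℝ}
    {g : Fin d → ℝ} (hG : Gen x g) (hn : d + 1 ≤ n) :
    (if Feas v x (-1) g then 1 else 0)
        + ((powersetCard d univ).filter fun J : Finset (Fin n) => EntryJ v x g J).card
      = (if Feas v x 1 g then 1 else 0)
        + ((powersetCard d univ).filter fun J : Finset (Fin n) => ExitJ v x g J).card := by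
  have hex1 : ((powersetCard d univ).filter fun J : Finset (Fin n) => ExitJ v x g J).card ≤ 1 := by
    rw [Finset.card_le_one]
    intro J hJ J' hJ'
    simp only [Finset.mem_filter, Finset.mem_powersetCard, Finset.subset_univ, true_and] at hJ hJ'
    exact exit_unique (hJ.1.trans hJ'.1.symm) hJ.2 hJ'.2
  have hen1 : ((powersetCard d univ).filter fun J : Finset (Fin n) => EntryJ v x g J).card ≤ 1 := by
    rw [Finset.card_le_one]
    intro J hJ J' hJ'
    simp only [Finset.mem_filter, Finset.mem_powersetCard, Finset.subset_univ, true_and] at hJ hJ'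
    exact entry_unique (hJ.1.trans hJ'.1.symm) hJ.2 hJ'.2
  -- location facts
  have hloc : ∀ J : Finset (Fin n), J.card = d → ∀ τ, Rep v x g J τ → ∀ w : Fin d → ℝ,
      (∀ k ∈ J, w ⬝ᵥ x k = 1) → -1 ≤ τ → τ ≤ 1 → |τ| < 1 := by
    intro J hJ τ hr w hw h1 h2
    obtain ⟨a, b⟩ := hG.g4 J hJ w hw
    rw [← rep_location hr hw] at a b
    rw [abs_lt]
    exact ⟨lt_of_le_of_ne h1 (Ne.symm b), lt_of_le_of_ne h2 a⟩
  have hexit_pos : (∃ J : Finset (Fin n), J.card = d ∧ ExitJ v x g J) →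
      ((powersetCard d univ).filter fun J : Finset (Fin n) => ExitJ v x g J).card = 1 := by
    rintro ⟨J, hJ, hE⟩
    apply le_antisymm hex1
    exact Finset.card_pos.mpr ⟨J, by simp [hJ, hE]⟩
  have hexit_zero : (¬ ∃ J : Finset (Fin n), J.card = d ∧ ExitJ v x g J) →
      ((powersetCard d univ).filter fun J : Finset (Fin n) => ExitJ v x g J).card = 0 := by
    intro h
    rw [Finset.card_eq_zero, Finset.filter_eq_empty_iff]
    intro J hJ hE
    simp only [Finset.mem_powersetCard, Finset.subset_univ, true_and] at hJ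
    exact h ⟨J, hJ, hE⟩
  have hentry_pos : (∃ J : Finset (Fin n), J.card = d ∧ EntryJ v x g J) →
      ((powersetCard d univ).filter fun J : Finset (Fin n) => EntryJ v x g J).card = 1 := by
    rintro ⟨J, hJ, hE⟩
    apply le_antisymm hen1
    exact Finset.card_pos.mpr ⟨J, by simp [hJ, hE]⟩
  have hentry_zero : (¬ ∃ J : Finset (Fin n), J.card = d ∧ EntryJ v x g J) →
      ((powersetCard d univ).filter fun J : Finset (Fin n) => EntryJ v x g J).card = 0 := by
    intro h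
    rw [Finset.card_eq_zero, Finset.filter_eq_empty_iff]
    intro J hJ hE
    simp only [Finset.mem_powersetCard, Finset.subset_univ, true_and] at hJ
    exact h ⟨J, hJ, hE⟩
  -- an exit excludes feasibility at 1
  have hexit_no1 : (∃ J : Finset (Fin n), J.card = d ∧ ExitJ v x g J) → ¬ Feas v x 1 g := by
    rintro ⟨J, hJ, ⟨τ, hτ, hr⟩, w, hw, hw2⟩ h
    have := exit_bound hw hw2 h
    rw [← rep_location hr hw] at this
    rw [abs_lt] at hτ
    linarith
  have hentry_no : (∃ J : Finset (Fin n), J.card = d ∧ EntryJ v x g J) → ¬ Feas v x (-1) g := by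
    rintro ⟨J, hJ, ⟨τ, hτ, hr⟩, w, hw, hw2⟩ h
    have := entry_bound hw hw2 h
    rw [← rep_location hr hw] at this
    rw [abs_lt] at hτ
    linarith
  by_cases hm : Feas v x (-1) g <;> by_cases hp : Feas v x 1 g
  · rw [if_pos hm, if_pos hp, hexit_zero (fun h => hexit_no1 h hp),
      hentry_zero (fun h => hentry_no h hm)]
  · obtain ⟨J, hJ, τ, h1, h2, hr, w, hw, hw2⟩ := exists_exit hv hG hn hm hp (by norm_num)
    rw [if_pos hm, if_neg hp, hentry_zero (fun h => hentry_no h hm),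
      hexit_pos ⟨J, hJ, ⟨τ, hloc J hJ τ hr w hw h1 h2.le, hr⟩, w, hw, hw2⟩]
  · obtain ⟨J, hJ, τ, h1, h2, hr, w, hw, hw2⟩ := exists_entry hv hG hn hm hp (by norm_num)
    rw [if_neg hm, if_pos hp, hexit_zero (fun h => hexit_no1 h hp),
      hentry_pos ⟨J, hJ, ⟨τ, hloc J hJ τ hr w hw h1.le h2, hr⟩, w, hw, hw2⟩]
  · rw [if_neg hm, if_neg hp]
    by_cases he : ∃ J : Finset (Fin n), J.card = d ∧ ExitJ v x g J
    · rw [hexit_pos he]
      obtain ⟨J, hJ, ⟨τ, hτ, hr⟩, w, hw, hw2⟩ := he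
      rw [abs_lt] at hτ
      obtain ⟨J', hJ', τ', h1, h2, hr', w', hw', hw2'⟩ :=
        exists_entry hv hG hn hm (rep_feas hr) hτ.1
      rw [hentry_pos ⟨J', hJ', ⟨τ', hloc J' hJ' τ' hr' w' hw' h1.le (by linarith), hr'⟩,
        w', hw', hw2'⟩]
    · rw [hexit_zero he, hentry_zero]
      rintro ⟨J, hJ, ⟨τ, hτ, hr⟩, w, hw, hw2⟩
      rw [abs_lt] at hτ
      obtain ⟨J', hJ', τ', h1, h2, hr', w', hw', hw2'⟩ :=
        exists_exit hv hG hn (rep_feas hr) hp hτ.2
      exact he ⟨J', hJ', ⟨τ', hloc J' hJ' τ' hr' w' hw' (by linarith) h2.le, hr'⟩, w', hw', hw2'⟩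

end det

end Pool.Agent.H58Radon
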