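import Mathlib

set_option autoImplicit false

namespace Pool.Agent.H58Radon

open MeasureTheory ProbabilityTheory Finset
open scoped ENNReal

/-- split off the coordinate `0` in a lower integral over a finite product -/
lemma lintegral_pi_succ {n : ℕ} {α : Type} [MeasurableSpace α] (μ : Fin (n + 1) → Measure α)
    [∀ i, SigmaFinite (μ i)] (F : (Fin (n + 1) → α) → ℝ≥0∞) (hF : Measurable F) :
    ∫⁻ x, F x ∂(Measure.pi μ)
      = ∫⁻ a, ∫⁻ y : Fin n → α, F (Fin.cons a y) ∂(Measure.pi fun i => μ i.succ) ∂(μ 0) := by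
  have hmp := (measurePreserving_piFinSuccAbove (α := fun _ => α) μ 0).symm
  rw [← hmp.lintegral_comp hF]
  have h2 : Measurable fun p : α × (Fin n → α) => F (Fin.cons p.1 p.2) := by
    apply hF.comp
    rw [measurable_pi_iff]
    intro i
    refine Fin.cases ?_ ?_ i
    · simpa using measurable_fst
    · intro j
      simp only [Fin.cons_succ]
      exact (measurable_pi_apply j).comp measurable_snd
  have h3 : ∀ p : α × (Fin n → α),
      (MeasurableEquiv.piFinSuccAbove (fun _ => α) 0).symm p = (Fin.cons p.1 p.2 : Fin (n+1) → α) := by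
    intro p
    rw [MeasurableEquiv.piFinSuccAbove_symm_apply]
    simp [Fin.insertNthEquiv]
  simp_rw [h3]
  rw [lintegral_prod _ h2.aemeasurable]
  simp only [Fin.zero_succAbove]

lemma lintegral_fin_prod {n : ℕ} {α : Type} [MeasurableSpace α] (μ : Fin n → Measure α)
    [∀ i, SigmaFinite (μ i)] (f : Fin n → α → ℝ≥0∞) (hf : ∀ i, Measurable (f i)) :
    ∫⁻ x : Fin n → α, ∏ i, f i (x i) ∂(Measure.pi μ) = ∏ i, ∫⁻ a, f i a ∂(μ i) := by
  induction n with
  | zero => simp
  | succ n ih =>
    rw [lintegral_pi_succ μ _ (by fun_prop)]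
    simp only [Fin.prod_univ_succ, Fin.cons_zero, Fin.cons_succ]
    have h1 : ∀ a, ∫⁻ y : Fin n → α, f 0 a * ∏ i : Fin n, f i.succ (y i)
        ∂(Measure.pi fun i => μ i.succ) = f 0 a * ∏ i : Fin n, ∫⁻ a, f i.succ a ∂(μ i.succ) := by
      intro a
      rw [lintegral_const_mul _ (by fun_prop), ih (fun i => μ i.succ) (fun i => f i.succ)
        (fun i => hf _)]
    simp_rw [h1]
    rw [lintegral_mul_const _ (hf 0)]

lemma pi_withDensity {n : ℕ} {α : Type} [MeasurableSpace α] (μ : Fin n → Measure α)
    [∀ i, SigmaFinite (μ i)] (f : Fin n → α → ℝ≥0∞) (hf : ∀ i, Measurable (f i))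
    [∀ i, SigmaFinite ((μ i).withDensity (f i))] :
    Measure.pi (fun i => (μ i).withDensity (f i))
      = (Measure.pi μ).withDensity (fun x => ∏ i, f i (x i)) := by
  apply Measure.pi_eq
  intro s hs
  rw [withDensity_apply _ (MeasurableSet.univ_pi hs)]
  rw [← lintegral_indicator (MeasurableSet.univ_pi hs)]
  have h1 : ∀ x : Fin n → α, (Set.univ.pi s).indicator (fun x => ∏ i, f i (x i)) x
      = ∏ i, (s i).indicator (f i) (x i) := by
    intro x
    by_cases hx : x ∈ Set.univ.pi s
    · rw [Set.indicator_of_mem hx]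
      apply Finset.prod_congr rfl
      intro i _
      rw [Set.indicator_of_mem (hx i (Set.mem_univ i))]
    · rw [Set.indicator_of_notMem hx]
      simp only [Set.mem_pi, Set.mem_univ, forall_const, not_forall] at hx
      obtain ⟨i, hi⟩ := hx
      symm
      apply Finset.prod_eq_zero (Finset.mem_univ i)
      rw [Set.indicator_of_notMem hi]
  simp_rw [h1]
  rw [lintegral_fin_prod μ (fun i => (s i).indicator (f i)) (fun i => (hf i).indicator (hs i))]
  apply Finset.prod_congr rfl
  intro i _
  rw [lintegral_indicator (hs i), withDensity_apply _ (hs i)]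

/-- the standard Gaussian measure on `ℝ^d` as a product measure -/
noncomputable def gam (d : ℕ) : Measure (Fin d → ℝ) := Measure.pi fun _ => gaussianReal 0 1

instance (d : ℕ) : IsProbabilityMeasure (gam d) := by unfold gam; infer_instance

/-- the law of `n` independent standard Gaussian points -/
noncomputable def Gam (n d : ℕ) : Measure (Fin n → Fin d → ℝ) := Measure.pi fun _ => gam d

instance (n d : ℕ) : IsProbabilityMeasure (Gam n d) := by unfold Gam; infer_instance

/-- the density of `gam d` -/
noncomputable def dens (d : ℕ) (x : Fin d → ℝ) : ℝ≥0∞ := ∏ i, gaussianPDF 0 1 (x i)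

lemma measurable_dens (d : ℕ) : Measurable (dens d) := by
  unfold dens
  have := measurable_gaussianPDF 0 1
  fun_prop

lemma gam_eq (d : ℕ) : gam d = volume.withDensity (dens d) := by
  unfold gam
  have h : gaussianReal 0 1 = volume.withDensity (gaussianPDF 0 1) :=
    gaussianReal_of_var_ne_zero 0 one_ne_zero
  have hsf : SigmaFinite ((volume : Measure ℝ).withDensity (gaussianPDF 0 1)) := by
    rw [← h]; infer_instance
  simp_rw [h]
  exact pi_withDensity (n := d) (fun _ => (volume : Measure ℝ)) (fun _ => gaussianPDF 0 1)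
    (fun _ => measurable_gaussianPDF 0 1)

lemma Gam_eq (n d : ℕ) : Gam n d = volume.withDensity (fun x => ∏ k, dens d (x k)) := by
  unfold Gam
  have h := gam_eq d
  have hsf : SigmaFinite ((volume : Measure (Fin d → ℝ)).withDensity (dens d)) := by
    rw [← h]; infer_instance
  simp_rw [h]
  exact pi_withDensity (n := n) (fun _ => (volume : Measure (Fin d → ℝ))) (fun _ => dens d)
    (fun _ => measurable_dens d)

/-- explicit form -/
lemma dens_eq (d : ℕ) (x : Fin d → ℝ) :
    dens d x = ENNReal.ofReal (((√(2 * Real.pi))⁻¹) ^ d * Real.exp (-(x ⬝ᵥ x) / 2)) := by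
  unfold dens
  simp only [gaussianPDF, gaussianPDFReal]
  rw [← ENNReal.ofReal_prod_of_nonneg (fun i _ => by positivity)]
  congr 1
  simp only [sub_zero, NNReal.coe_one, mul_one]
  rw [Finset.prod_mul_distrib, Finset.prod_const, Finset.card_univ, Fintype.card_fin,
    ← Real.exp_sum]
  congr 2
  rw [← Finset.sum_div, Finset.sum_neg_distrib]
  simp [dotProduct, sq]

lemma gam_ac (d : ℕ) : gam d ≪ volume := by
  rw [gam_eq]; exact withDensity_absolutelyContinuous _ _

lemma Gam_ac (n d : ℕ) : Gam n d ≪ volume := by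
  rw [Gam_eq]; exact withDensity_absolutelyContinuous _ _

/-- If every line in a fixed direction meets `S` in a null set then `S` is null. -/
lemma null_of_line {E : Type} [NormedAddCommGroup E] [NormedSpace ℝ E] [MeasurableSpace E]
    [BorelSpace E] [FiniteDimensional ℝ E] (μ : Measure E) [μ.IsAddHaarMeasure] {S : Set E}
    (hS : MeasurableSet S) (v : E) (h : ∀ x : E, volume {t : ℝ | x + t • v ∈ S} = 0) :
    μ S = 0 := by
  have hmeas : Measurable fun p : E × ℝ => p.1 + p.2 • v := by fun_prop
  have h1 : ∫⁻ t : ℝ, μ {x | x + t • v ∈ S} = 0 := by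
    have : ∀ t : ℝ, μ {x | x + t • v ∈ S} = ∫⁻ x, S.indicator (fun _ => 1) (x + t • v) ∂μ := by
      intro t
      have hm : MeasurableSet {x | x + t • v ∈ S} := by
        exact (by fun_prop : Measurable fun x : E => x + t • v) hS
      rw [← lintegral_indicator_one hm]
      rfl
    simp_rw [this]
    rw [lintegral_lintegral_swap]
    · have h2 : ∀ x : E, ∫⁻ t : ℝ, S.indicator (fun _ => (1 : ℝ≥0∞)) (x + t • v) = 0 := by
        intro x
        have hm : MeasurableSet {t : ℝ | x + t • v ∈ S} := by
          exact (by fun_prop : Measurable fun t : ℝ => x + t • v) hS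
        rw [← h x, ← lintegral_indicator_one hm]
        rfl
      simp_rw [h2]
      simp
    · apply Measurable.aemeasurable
      exact (measurable_one.indicator hS).comp (by fun_prop)
  have h3 : ∀ t : ℝ, μ {x | x + t • v ∈ S} = μ S := by
    intro t
    exact measure_preimage_add_right μ (t • v) S
  simp_rw [h3] at h1
  rw [lintegral_const, Real.volume_univ] at h1
  by_contra hne
  rw [ENNReal.mul_top hne] at h1
  exact ENNReal.top_ne_zero h1

end Pool.Agent.H58Radon
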