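import Mathlib
import Pool.Agent.H58Radon.Det
import Pool.Agent.H58Radon.Meas

set_option autoImplicit false

namespace Pool.Agent.H58Radon

open MeasureTheory ProbabilityTheory Finset
open scoped ENNReal

lemma haarPiPi (n d : ℕ) : (volume : Measure (Fin n → Fin d → ℝ)).IsAddHaarMeasure :=
  Measure.pi.isAddHaarMeasure (fun _ : Fin n => (volume : Measure (Fin d → ℝ)))

lemma haarPiPiProd (n d : ℕ) : ((volume : Measure (Fin n → Fin d → ℝ)).prod
    (volume : Measure (Fin d → ℝ))).IsAddHaarMeasure := by
  have := haarPiPi n d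
  exact MeasureTheory.Measure.prod.instIsAddHaarMeasure _ _

variable {n d : ℕ}

/-- the matrix with rows `x (e i)` -/
def Mat (x : Fin n → Fin d → ℝ) (e : Fin d → Fin n) : Matrix (Fin d) (Fin d) ℝ :=
  Matrix.of fun i => x (e i)

lemma continuous_Mat (e : Fin d → Fin n) : Continuous fun x : Fin n → Fin d → ℝ => Mat x e := by
  unfold Mat
  fun_prop

lemma measurable_inv_entry {Ω : Type} [MeasurableSpace Ω] {M : Ω → Matrix (Fin d) (Fin d) ℝ}
    (hM : ∀ i j, Measurable fun ω => M ω i j) (i j : Fin d) :
    Measurable fun ω => (M ω)⁻¹ i j := by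
  have h0 : Measurable fun ω => (fun i j => M ω i j : Fin d → Fin d → ℝ) := by
    rw [measurable_pi_iff]; intro i; rw [measurable_pi_iff]; intro j; exact hM i j
  have h1 : Measurable fun X : Fin d → Fin d → ℝ => (Matrix.of X)⁻¹ i j := by
    simp only [Matrix.inv_def, Ring.inverse_eq_inv', Matrix.smul_apply, smul_eq_mul]
    apply Measurable.mul
    · apply Measurable.inv
      apply Continuous.measurable
      apply Continuous.matrix_det
      exact continuous_id
    · apply Continuous.measurable
      have : Continuous fun X : Fin d → Fin d → ℝ => (Matrix.of X).adjugate := by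
        apply Continuous.matrix_adjugate
        exact continuous_id
      exact (continuous_apply j).comp ((continuous_apply i).comp this)
  exact h1.comp h0

/-- the dual vector `w` -/
noncomputable def wvec (M : Matrix (Fin d) (Fin d) ℝ) : Fin d → ℝ := M⁻¹.mulVec 1

lemma wvec_apply (M : Matrix (Fin d) (Fin d) ℝ) (i : Fin d) : wvec M i = ∑ j, M⁻¹ i j := by
  simp [wvec, Matrix.mulVec, dotProduct]

/-- the explicit general position conditions -/
structure GenC (x : Fin n → Fin d → ℝ) (g : Fin d → ℝ) (e : Fin d → Fin n) : Prop where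
  a : (Mat x e).det ≠ 0
  b : ∀ k, k ∉ Set.range e → wvec (Mat x e) ⬝ᵥ x k ≠ 1
  c : ∀ i, Matrix.vecMul g (Mat x e)⁻¹ i ≠ 0
  d1 : wvec (Mat x e) ⬝ᵥ g ≠ 1
  d2 : wvec (Mat x e) ⬝ᵥ g ≠ -1

lemma Mat_mulVec_wvec {M : Matrix (Fin d) (Fin d) ℝ} (h : M.det ≠ 0) : M.mulVec (wvec M) = 1 := by
  rw [wvec, Matrix.mulVec_mulVec, Matrix.mul_nonsing_inv _ (isUnit_iff_ne_zero.mpr h),
    Matrix.one_mulVec]

lemma eq_wvec {M : Matrix (Fin d) (Fin d) ℝ} (h : M.det ≠ 0) {w : Fin d → ℝ}
    (hw : M.mulVec w = 1) : w = wvec M := by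
  rw [wvec, ← hw, Matrix.mulVec_mulVec, Matrix.nonsing_inv_mul _ (isUnit_iff_ne_zero.mpr h),
    Matrix.one_mulVec]

/-- a combination supported on the range of an injective `e` -/
lemma sum_range {x : Fin n → Fin d → ℝ} {e : Fin d → Fin n} (he : Function.Injective e)
    {c : Fin n → ℝ} (hc : ∀ k, k ∉ Set.range e → c k = 0) :
    ∑ k, c k • x k = Matrix.vecMul (fun i => c (e i)) (Mat x e) := by
  classical
  have h1 : ∑ k, c k • x k = ∑ k ∈ univ.image e, c k • x k := by
    symm
    apply Finset.sum_subset (Finset.subset_univ _)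
    intro k _ hk
    rw [hc k (by simpa using hk)]; simp
  rw [h1, Finset.sum_image (fun a _ b _ h => he h)]
  ext j
  simp [Matrix.vecMul, dotProduct, Mat, Finset.sum_apply]

lemma gen_of_genC {x : Fin n → Fin d → ℝ} {g : Fin d → ℝ} (hn : d ≤ n)
    (h : ∀ e : Fin d → Fin n, Function.Injective e → GenC x g e) : Gen x g := by
  classical
  have hrange : ∀ J : Finset (Fin n), ∀ hJ : J.card = d, ∀ k,
      k ∉ Set.range (J.orderEmbOfFin hJ) ↔ k ∉ J := by
    intro J hJ k
    rw [Finset.range_orderEmbOfFin]; simp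
  have g1 : ∀ J : Finset (Fin n), J.card = d → ∀ c : Fin n → ℝ, (∀ k, k ∉ J → c k = 0) →
      ∑ k, c k • x k = 0 → c = 0 := by
    intro J hJ c hc h0
    have hC := h _ (J.orderEmbOfFin hJ).injective
    rw [sum_range (J.orderEmbOfFin hJ).injective
      (fun k hk => hc k ((hrange J hJ k).mp hk))] at h0
    have h1 : (fun i => c (J.orderEmbOfFin hJ i)) = 0 := by
      have := congrArg (fun z => Matrix.vecMul z (Mat x (J.orderEmbOfFin hJ))⁻¹) h0
      simp only [Matrix.vecMul_vecMul, Matrix.zero_vecMul] at this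
      rwa [Matrix.mul_nonsing_inv _ (isUnit_iff_ne_zero.mpr hC.a), Matrix.vecMul_one] at this
    ext k
    by_cases hk : k ∈ J
    · have : k ∈ Set.range (J.orderEmbOfFin hJ) := by
        rw [Finset.range_orderEmbOfFin]; exact hk
      obtain ⟨i, rfl⟩ := this
      exact congrFun h1 i
    · exact hc k hk
  refine ⟨g1, ?_, ?_, ?_⟩
  · intro T hT c hc h1 h2
    have hzero : ∀ k ∈ T, c k = 0 := by
      intro k hk
      have hJ : (T.erase k).card = d := by rw [Finset.card_erase_of_mem hk, hT]; rfl
      have hC := h _ ((T.erase k).orderEmbOfFin hJ).injective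
      set w := wvec (Mat x ((T.erase k).orderEmbOfFin hJ)) with hw
      have hwJ : ∀ j ∈ T.erase k, w ⬝ᵥ x j = 1 := by
        intro j hj
        have : j ∈ Set.range ((T.erase k).orderEmbOfFin hJ) := by
          rw [Finset.range_orderEmbOfFin]; exact hj
        obtain ⟨i, rfl⟩ := this
        have := congrFun (Mat_mulVec_wvec hC.a) i
        rw [dotProduct_comm]
        rw [← hw] at this
        exact this
      have hwk : w ⬝ᵥ x k ≠ 1 := hC.b k (by
        rw [hrange]; simp)
      have e1 : w ⬝ᵥ (∑ j, c j • x j) = ∑ j, c j * (w ⬝ᵥ x j) := by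
        rw [dotProduct_sum]
        apply Finset.sum_congr rfl
        intro j _; rw [dotProduct_smul, smul_eq_mul]
      rw [h2, dotProduct_zero] at e1
      have e2 : ∑ j, c j * (w ⬝ᵥ x j - 1) = 0 := by
        simp only [mul_sub, mul_one]
        rw [Finset.sum_sub_distrib, ← e1, h1]; ring
      rw [Finset.sum_eq_single k] at e2
      · rcases mul_eq_zero.mp e2 with h3 | h3
        · exact h3
        · exact absurd (by linarith) hwk
      · intro j _ hj
        by_cases hjT : j ∈ T
        · rw [hwJ j (Finset.mem_erase.mpr ⟨hj, hjT⟩)]; ring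
        · rw [hc j hjT]; ring
      · intro h; exact absurd (Finset.mem_univ _) h
    ext k
    by_cases hk : k ∈ T
    · exact hzero k hk
    · exact hc k hk
  · intro J hJ c hc h0
    obtain ⟨J', hJJ', hJ'⟩ := Finset.exists_superset_card_eq (s := J) hJ.le (by simpa using hn)
    have hC := h _ (J'.orderEmbOfFin hJ').injective
    have hc' : ∀ k, k ∉ Set.range (J'.orderEmbOfFin hJ') → c k = 0 := by
      intro k hk
      rw [hrange] at hk
      exact hc k (fun h => hk (hJJ' h))
    rw [sum_range (J'.orderEmbOfFin hJ').injective hc'] at h0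
    have h1 : (fun i => c (J'.orderEmbOfFin hJ' i))
        = Matrix.vecMul g (Mat x (J'.orderEmbOfFin hJ'))⁻¹ := by
      rw [← h0, Matrix.vecMul_vecMul, Matrix.mul_nonsing_inv _ (isUnit_iff_ne_zero.mpr hC.a),
        Matrix.vecMul_one]
    obtain ⟨k, hk, hkJ⟩ : ∃ k ∈ J', k ∉ J := by
      by_contra hcon
      push Not at hcon
      have := Finset.card_le_card (fun k hk => hcon k hk : J' ⊆ J)
      omega
    have : k ∈ Set.range (J'.orderEmbOfFin hJ') := by
      rw [Finset.range_orderEmbOfFin]; exact hk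
    obtain ⟨i, rfl⟩ := this
    apply hC.c i
    rw [← h1]
    exact hc _ hkJ
  · intro J hJ w hw
    have hC := h _ (J.orderEmbOfFin hJ).injective
    have : w = wvec (Mat x (J.orderEmbOfFin hJ)) := by
      apply eq_wvec hC.a
      ext i
      have := hw (J.orderEmbOfFin hJ i) (Finset.orderEmbOfFin_mem _ _ _)
      rw [dotProduct_comm] at this
      simpa [Matrix.mulVec, Mat] using this
    rw [this]
    exact ⟨hC.d1, hC.d2⟩

/-- measurability of the dual vector -/
lemma measurable_wvec {Ω : Type} [MeasurableSpace Ω] {M : Ω → Matrix (Fin d) (Fin d) ℝ}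
    (hM : ∀ i j, Measurable fun ω => M ω i j) : Measurable fun ω => wvec (M ω) := by
  rw [measurable_pi_iff]
  intro i
  simp only [wvec_apply]
  exact Finset.measurable_sum _ fun j _ => measurable_inv_entry hM i j

lemma measurable_Mat_entry (e : Fin d → Fin n) (i j : Fin d) :
    Measurable fun x : Fin n → Fin d → ℝ => Mat x e i j := by
  unfold Mat
  simp only [Matrix.of_apply]
  fun_prop

/-- generic statement: an affine condition on a free vector is a null event -/
lemma null_affine {L : (Fin n → Fin d → ℝ) × (Fin d → ℝ) → Fin d → ℝ} (hL : Measurable L)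
    {z : (Fin n → Fin d → ℝ) × (Fin d → ℝ) → Fin d → ℝ} (hz : Measurable z) (r : ℝ)
    (dir : Fin d → (Fin n → Fin d → ℝ) × (Fin d → ℝ))
    (h1 : ∀ (j : Fin d) (p : (Fin n → Fin d → ℝ) × (Fin d → ℝ)) (t : ℝ), L (p + t • dir j) = L p)
    (h2 : ∀ (j : Fin d) (p : (Fin n → Fin d → ℝ) × (Fin d → ℝ)) (t : ℝ),
      z (p + t • dir j) = z p + t • (Pi.single j (1 : ℝ) : Fin d → ℝ)) :
    ∀ᵐ p ∂((volume : Measure (Fin n → Fin d → ℝ)).prod (volume : Measure (Fin d → ℝ))),
      L p ≠ 0 → L p ⬝ᵥ z p ≠ r := by
  have hH := haarPiPiProd n d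
  have hmd : Measurable fun p => L p ⬝ᵥ z p := by
    simp only [dotProduct]
    exact Finset.measurable_sum _ fun i _ =>
      ((measurable_pi_apply i).comp hL).mul ((measurable_pi_apply i).comp hz)
  have hnull : ∀ j : Fin d, ∀ᵐ p ∂((volume : Measure (Fin n → Fin d → ℝ)).prod
      (volume : Measure (Fin d → ℝ))), ¬ (L p j ≠ 0 ∧ L p ⬝ᵥ z p = r) := by
    intro j
    rw [ae_iff]
    simp only [not_not]
    apply null_of_line _ _ (dir j)
    · intro p
      apply Set.Subsingleton.measure_zero
      intro t ht s hs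
      simp only [Set.mem_ofPred_eq, h1, h2, dotProduct_add, dotProduct_smul, smul_eq_mul,
        dotProduct_single, mul_one] at ht hs
      have h3 : t * L p j = s * L p j := by linarith [ht.2, hs.2]
      exact mul_right_cancel₀ ht.1 h3
    · apply MeasurableSet.inter
      · exact (measurableSet_singleton (0 : ℝ)).compl.preimage ((measurable_pi_apply j).comp hL)
      · exact (measurableSet_singleton r).preimage hmd
  have hall := ae_all_iff.mpr hnull
  filter_upwards [hall] with p hp hL0 hr
  obtain ⟨j, hj⟩ := Function.ne_iff.mp hL0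
  exact hp j ⟨hj, hr⟩

lemma det_ae (e : Fin d → Fin n) (he : Function.Injective e) :
    ∀ᵐ p ∂((volume : Measure (Fin n → Fin d → ℝ)).prod (volume : Measure (Fin d → ℝ))),
      (Mat p.1 e).det ≠ 0 := by
  classical
  have hH := haarPiPiProd n d
  rw [ae_iff]
  simp only [not_not]
  let v : Fin n → Fin d → ℝ := fun k i => if k = e i then 1 else 0
  apply null_of_line _ _ (v, 0)
  · intro p
    have hpoly : ∀ t : ℝ, (Mat (p + t • (v, (0 : Fin d → ℝ))).1 e).det
        = Polynomial.eval t (Matrix.charpoly (-(Mat p.1 e))) := by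
      intro t
      rw [Matrix.eval_charpoly]
      congr 1
      ext i j
      simp only [Mat, Prod.fst_add, Prod.smul_fst, Matrix.of_apply, Pi.add_apply, Pi.smul_apply,
        smul_eq_mul, Matrix.sub_apply, Matrix.neg_apply, v, he.eq_iff, Matrix.scalar_apply,
        Matrix.diagonal_apply]
      split_ifs <;> ring
    have hfin : {t : ℝ | Polynomial.eval t (Matrix.charpoly (-(Mat p.1 e))) = 0}.Finite := by
      have hne : Matrix.charpoly (-(Mat p.1 e)) ≠ 0 := (Matrix.charpoly_monic _).ne_zero
      exact (Polynomial.rootSet_finite (Matrix.charpoly (-(Mat p.1 e))) ℝ).subset (by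
        intro t ht
        rw [Polynomial.mem_rootSet]
        exact ⟨hne, by simpa using ht⟩)
    have : {t : ℝ | p + t • (v, (0 : Fin d → ℝ)) ∈
        {a : (Fin n → Fin d → ℝ) × (Fin d → ℝ) | (Mat a.1 e).det = 0}}
        = {t : ℝ | Polynomial.eval t (Matrix.charpoly (-(Mat p.1 e))) = 0} := by
      ext t
      simp only [Set.mem_ofPred_eq, ← hpoly t]
    rw [this]
    exact hfin.measure_zero _
  · have : Continuous fun p : (Fin n → Fin d → ℝ) × (Fin d → ℝ) => (Mat p.1 e).det := by
      apply Continuous.matrix_det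
      exact (continuous_Mat e).comp continuous_fst
    exact (isClosed_singleton.preimage this).measurableSet

lemma Mat_add_single {x : Fin n → Fin d → ℝ} {e : Fin d → Fin n} {k : Fin n}
    (hk : k ∉ Set.range e) (u : Fin d → ℝ) (t : ℝ) :
    Mat (x + t • (Pi.single k u : Fin n → Fin d → ℝ)) e = Mat x e := by
  ext i j
  have : e i ≠ k := fun h => hk ⟨i, h⟩
  simp [Mat, this]

theorem genC_ae (e : Fin d → Fin n) (he : Function.Injective e) :
    ∀ᵐ p ∂((volume : Measure (Fin n → Fin d → ℝ)).prod (volume : Measure (Fin d → ℝ))),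
      GenC p.1 p.2 e := by
  classical
  have hM : ∀ i j, Measurable fun p : (Fin n → Fin d → ℝ) × (Fin d → ℝ) => Mat p.1 e i j :=
    fun i j => (measurable_Mat_entry e i j).comp measurable_fst
  have hb : ∀ k, ∀ᵐ p ∂((volume : Measure (Fin n → Fin d → ℝ)).prod
      (volume : Measure (Fin d → ℝ))), k ∉ Set.range e → wvec (Mat p.1 e) ⬝ᵥ p.1 k ≠ 1 := by
    intro k
    by_cases hk : k ∈ Set.range e
    · exact Filter.Eventually.of_forall fun p h => absurd hk h
    · have := null_affine (n := n) (d := d) (L := fun p => wvec (Mat p.1 e))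
        (measurable_wvec hM) (z := fun p => p.1 k) (by fun_prop) 1
        (fun j => ((Pi.single k (Pi.single j (1:ℝ) : Fin d → ℝ) : Fin n → Fin d → ℝ), (0 : Fin d → ℝ)))
        (by
          intro j p t
          simp only [Prod.fst_add, Prod.smul_fst]
          rw [Mat_add_single hk])
        (by
          intro j p t
          simp [Pi.add_apply])
      filter_upwards [this] with p hp _ h
      by_cases h0 : wvec (Mat p.1 e) = 0
      · rw [h0, zero_dotProduct] at h; exact zero_ne_one h
      · exact hp h0 h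
  have hd : ∀ r : ℝ, r ≠ 0 → ∀ᵐ p ∂((volume : Measure (Fin n → Fin d → ℝ)).prod
      (volume : Measure (Fin d → ℝ))), wvec (Mat p.1 e) ⬝ᵥ p.2 ≠ r := by
    intro r hr
    have := null_affine (n := n) (d := d) (L := fun p => wvec (Mat p.1 e))
      (measurable_wvec hM) (z := fun p => p.2) (by fun_prop) r
      (fun j => ((0 : Fin n → Fin d → ℝ), (Pi.single j (1:ℝ) : Fin d → ℝ)))
      (by intro j p t; simp)
      (by intro j p t; simp)
    filter_upwards [this] with p hp h
    by_cases h0 : wvec (Mat p.1 e) = 0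
    · rw [h0, zero_dotProduct] at h; exact hr h.symm
    · exact hp h0 h
  have hc : ∀ i, ∀ᵐ p ∂((volume : Measure (Fin n → Fin d → ℝ)).prod
      (volume : Measure (Fin d → ℝ))), (Mat p.1 e).det ≠ 0 →
        Matrix.vecMul p.2 (Mat p.1 e)⁻¹ i ≠ 0 := by
    intro i
    have := null_affine (n := n) (d := d) (L := fun p j => (Mat p.1 e)⁻¹ j i)
      (by
        rw [measurable_pi_iff]; intro j
        exact measurable_inv_entry hM j i)
      (z := fun p => p.2) (by fun_prop) 0
      (fun j => ((0 : Fin n → Fin d → ℝ), (Pi.single j (1:ℝ) : Fin d → ℝ)))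
      (by intro j p t; simp)
      (by intro j p t; simp)
    filter_upwards [this] with p hp hdet h
    apply hp
    · intro h0
      have h1 : (Mat p.1 e)⁻¹.det = 0 := by
        apply Matrix.det_eq_zero_of_column_eq_zero i
        intro j
        exact congrFun h0 j
      have h2 : (Mat p.1 e)⁻¹.det ≠ 0 := by
        rw [Matrix.det_nonsing_inv]
        rw [Ring.inverse_eq_inv']
        exact inv_ne_zero hdet
      exact h2 h1
    · simp only [Matrix.vecMul] at h
      rw [← h, dotProduct_comm]
  have hb' := ae_all_iff.mpr hb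
  have hc' := ae_all_iff.mpr hc
  filter_upwards [det_ae e he, hb', hc', hd 1 one_ne_zero, hd (-1) (by norm_num)]
    with p h1 h2 h3 h4 h5
  exact ⟨h1, h2, fun i => h3 i h1, h4, h5⟩

/-- General position holds almost surely, with all explicit conditions. -/
theorem gen_ae (n d : ℕ) :
    ∀ᵐ p ∂((Gam n d).prod (gam d)), ∀ e : Fin d → Fin n, Function.Injective e →
      GenC p.1 p.2 e := by
  have hac : (Gam n d).prod (gam d) ≪ (volume : Measure (Fin n → Fin d → ℝ)).prod
      (volume : Measure (Fin d → ℝ)) := (Gam_ac n d).prod (gam_ac d)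
  have h : ∀ᵐ p ∂((volume : Measure (Fin n → Fin d → ℝ)).prod (volume : Measure (Fin d → ℝ))),
      ∀ e : Fin d → Fin n, Function.Injective e → GenC p.1 p.2 e := by
    rw [ae_all_iff]
    intro e
    by_cases he : Function.Injective e
    · filter_upwards [genC_ae e he] with p hp _ using hp
    · exact Filter.Eventually.of_forall fun p h => absurd h he
  exact hac.ae_le h

end Pool.Agent.H58Radon
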