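import Mathlib
import Pool.Agent.H58Radon.Meas

set_option autoImplicit false

namespace Pool.Agent.H58Radon

open MeasureTheory ProbabilityTheory Finset
open scoped ENNReal NNReal

lemma dot_self_nonneg {d : ℕ} (n : Fin d → ℝ) : 0 ≤ n ⬝ᵥ n :=
  Finset.sum_nonneg fun i _ => mul_self_nonneg _

/-- law of a linear functional, in terms of lower integrals -/
lemma lintegral_dot (d : ℕ) (n : Fin d → ℝ) (f : ℝ → ℝ≥0∞) (hf : Measurable f) :
    ∫⁻ z, f (n ⬝ᵥ z) ∂(gam d) = ∫⁻ t, f t ∂(gaussianReal 0 (Real.toNNReal (n ⬝ᵥ n))) := by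
  induction d generalizing f with
  | zero =>
    have : gam 0 = Measure.dirac (fun i : Fin 0 => i.elim0) := by
      unfold gam; exact Measure.pi_of_empty _ _
    rw [this]
    simp [dotProduct]
  | succ d ih =>
    have hm : ∀ m (n : Fin m → ℝ), Measurable fun z : Fin m → ℝ => n ⬝ᵥ z := by
      intro m n; unfold dotProduct; fun_prop
    unfold gam
    rw [lintegral_pi_succ (fun _ => gaussianReal 0 1) (fun z => f (n ⬝ᵥ z)) (hf.comp (hm _ n))]
    have h1 : ∀ (a : ℝ) (y : Fin d → ℝ), n ⬝ᵥ (Fin.cons a y : Fin (d+1) → ℝ)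
        = n 0 * a + (fun i => n (Fin.succ i)) ⬝ᵥ y := by
      intro a y
      simp [dotProduct, Fin.sum_univ_succ]
    simp_rw [h1]
    have h2 : ∀ a : ℝ, ∫⁻ y, f (n 0 * a + (fun i => n (Fin.succ i)) ⬝ᵥ y)
        ∂(Measure.pi fun _ : Fin d => gaussianReal 0 1)
        = ∫⁻ t, f (n 0 * a + t) ∂(gaussianReal 0 (Real.toNNReal
            ((fun i : Fin d => n (Fin.succ i)) ⬝ᵥ (fun i : Fin d => n (Fin.succ i))))) := by
      intro a
      exact ih (fun i => n (Fin.succ i)) (fun t => f (n 0 * a + t)) (by fun_prop)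
    simp_rw [h2]
    have h3 : ∫⁻ a, ∫⁻ t, f (n 0 * a + t) ∂(gaussianReal 0 (Real.toNNReal
            ((fun i : Fin d => n (Fin.succ i)) ⬝ᵥ (fun i : Fin d => n (Fin.succ i)))))
            ∂(gaussianReal 0 1)
        = ∫⁻ b, ∫⁻ t, f (b + t) ∂(gaussianReal 0 (Real.toNNReal
            ((fun i : Fin d => n (Fin.succ i)) ⬝ᵥ (fun i : Fin d => n (Fin.succ i)))))
            ∂((gaussianReal 0 1).map (n 0 * ·)) := by
      rw [lintegral_map _ (by fun_prop)]
      exact Measurable.lintegral_prod_right' (f := fun p : ℝ × ℝ => f (p.1 + p.2)) (by fun_prop)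
    rw [h3, gaussianReal_map_const_mul, ← Measure.lintegral_conv (by fun_prop),
      gaussianReal_conv_gaussianReal]
    congr 2
    · simp
    · apply NNReal.coe_injective
      rw [Real.coe_toNNReal _ (dot_self_nonneg _)]
      simp only [mul_one, NNReal.coe_add, NNReal.coe_mk]
      rw [Real.coe_toNNReal _ (dot_self_nonneg _)]
      simp [dotProduct, Fin.sum_univ_succ, sq]

/-- scaling form -/
lemma lintegral_dot' (d : ℕ) (n : Fin d → ℝ) (f : ℝ → ℝ≥0∞) (hf : Measurable f) :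
    ∫⁻ z, f (n ⬝ᵥ z) ∂(gam d) = ∫⁻ c, f (√(n ⬝ᵥ n) * c) ∂(gaussianReal 0 1) := by
  rw [lintegral_dot d n f hf]
  have h : gaussianReal 0 (Real.toNNReal (n ⬝ᵥ n))
      = (gaussianReal 0 1).map (√(n ⬝ᵥ n) * ·) := by
    rw [gaussianReal_map_const_mul]
    congr 1
    · simp
    · apply NNReal.coe_injective
      have h0 : 0 ≤ n ⬝ᵥ n := dot_self_nonneg n
      rw [Real.coe_toNNReal _ h0]
      simp [Real.sq_sqrt h0]
  rw [h, lintegral_map hf (by fun_prop)]

end Pool.Agent.H58Radon
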