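import Mathlib
import Pool.Agent.H58Radon.Gauss1

set_option autoImplicit false

namespace Pool.Agent.H58Radon

open MeasureTheory ProbabilityTheory Finset
open scoped ENNReal NNReal

variable {d : ℕ}

/-- cofactor vector of the rows `1, …, d` -/
noncomputable def cof (R : Fin d → Fin (d+1) → ℝ) (j : Fin (d+1)) : ℝ :=
  (-1)^(j:ℕ) * ((Matrix.of R).submatrix id j.succAbove).det

lemma det_cons (z : Fin (d+1) → ℝ) (R : Fin d → Fin (d+1) → ℝ) :
    (Matrix.of (Fin.cons z R : Fin (d+1) → Fin (d+1) → ℝ)).det = cof R ⬝ᵥ z := by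
  rw [Matrix.det_succ_row_zero]
  unfold cof dotProduct
  apply Finset.sum_congr rfl
  intro j _
  have : (Matrix.of (Fin.cons z R : Fin (d+1) → Fin (d+1) → ℝ)).submatrix Fin.succ j.succAbove
      = (Matrix.of R).submatrix id j.succAbove := by
    ext a b; simp
  rw [this]
  simp only [Matrix.of_apply, Fin.cons_zero]
  ring

lemma adj_cons (z : Fin (d+1) → ℝ) (R : Fin d → Fin (d+1) → ℝ) (j : Fin (d+1)) :
    (Matrix.of (Fin.cons z R : Fin (d+1) → Fin (d+1) → ℝ)).adjugate j 0 = cof R j := by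
  rw [Matrix.adjugate_fin_succ_eq_det_submatrix]
  unfold cof
  have : (Matrix.of (Fin.cons z R : Fin (d+1) → Fin (d+1) → ℝ)).submatrix
      (Fin.succAbove 0) j.succAbove
      = (Matrix.of R).submatrix id j.succAbove := by
    ext a b; simp
  rw [this]
  simp

lemma inv_cons (z : Fin (d+1) → ℝ) (R : Fin d → Fin (d+1) → ℝ) (j : Fin (d+1)) :
    (Matrix.of (Fin.cons z R : Fin (d+1) → Fin (d+1) → ℝ))⁻¹ j 0
      = (cof R ⬝ᵥ z)⁻¹ * cof R j := by
  rw [Matrix.inv_def, Matrix.smul_apply, adj_cons, det_cons, Ring.inverse_eq_inv', smul_eq_mul]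

/-- normalising constant -/
noncomputable def KK (d : ℕ) : ℝ≥0∞ :=
  ∫⁻ R : Fin d → Fin (d+1) → ℝ, ENNReal.ofReal √(cof R ⬝ᵥ cof R) ∂(Gam d (d+1))

lemma continuous_cof (j : Fin (d+1)) : Continuous fun R : Fin d → Fin (d+1) → ℝ => cof R j := by
  unfold cof
  apply Continuous.mul continuous_const
  apply Continuous.matrix_det
  apply Continuous.matrix_submatrix
  exact continuous_id

lemma measurable_cof : Measurable fun R : Fin d → Fin (d+1) → ℝ => cof R :=
  measurable_pi_iff.mpr fun j => (continuous_cof j).measurable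

/-- the integral over the row `0` -/
lemma row_zero (m : Fin (d+1) → ℝ) (r : ℝ) (ψ : ℝ → ℝ≥0∞) (hψ : Measurable ψ) :
    ∫⁻ z, ENNReal.ofReal |m ⬝ᵥ z| * ψ (r * ((m ⬝ᵥ m) / (m ⬝ᵥ z) ^ 2)) ∂(gam (d+1))
      = ENNReal.ofReal √(m ⬝ᵥ m) *
        ∫⁻ c, ENNReal.ofReal |c| * ψ (r / c ^ 2) ∂(gaussianReal 0 1) := by
  rw [lintegral_dot' (d+1) m (fun t => ENNReal.ofReal |t| * ψ (r * ((m ⬝ᵥ m) / t ^ 2)))
    (by fun_prop)]
  rw [← lintegral_const_mul _ (by fun_prop)]
  apply lintegral_congr
  intro c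
  by_cases h0 : m ⬝ᵥ m = 0
  · rw [h0]; simp
  · have hpos : 0 < m ⬝ᵥ m := lt_of_le_of_ne (dot_self_nonneg m) (Ne.symm h0)
    rw [abs_mul, abs_of_nonneg (Real.sqrt_nonneg _), ENNReal.ofReal_mul (Real.sqrt_nonneg _)]
    rw [mul_assoc]
    congr 3
    rw [mul_pow, Real.sq_sqrt hpos.le]
    field_simp

lemma measurable_det : Measurable fun X : Fin d → Fin d → ℝ => (Matrix.of X).det := by
  apply Continuous.measurable
  apply Continuous.matrix_det
  exact continuous_id

lemma measurable_inv_entry' (i j : Fin d) :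
    Measurable fun X : Fin d → Fin d → ℝ => (Matrix.of X)⁻¹ i j := by
  simp only [Matrix.inv_def, Ring.inverse_eq_inv', Matrix.smul_apply, smul_eq_mul]
  apply Measurable.mul
  · exact measurable_det.inv
  · apply Continuous.measurable
    have : Continuous fun X : Fin d → Fin d → ℝ => (Matrix.of X).adjugate := by
      apply Continuous.matrix_adjugate
      exact continuous_id
    exact (continuous_apply j).comp ((continuous_apply i).comp this)

/-- the determinant-weighted law of the first column of the inverse -/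
theorem J_formula (r : ℝ) (ψ : ℝ → ℝ≥0∞) (hψ : Measurable ψ) :
    ∫⁻ X : Fin (d+1) → Fin (d+1) → ℝ, ENNReal.ofReal |(Matrix.of X).det|
        * ψ (r * ∑ j, ((Matrix.of X)⁻¹ j 0) ^ 2) ∂(Gam (d+1) (d+1))
      = KK d * ∫⁻ c, ENNReal.ofReal |c| * ψ (r / c ^ 2) ∂(gaussianReal 0 1) := by
  have hF : Measurable fun X : Fin (d+1) → Fin (d+1) → ℝ => ENNReal.ofReal |(Matrix.of X).det|
        * ψ (r * ∑ j, ((Matrix.of X)⁻¹ j 0) ^ 2) := by
    apply Measurable.mul
    · exact ENNReal.measurable_ofReal.comp (measurable_det.abs)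
    · apply hψ.comp
      apply Measurable.const_mul
      exact Finset.measurable_sum _ fun j _ => (measurable_inv_entry' j 0).pow_const 2
  unfold Gam
  rw [lintegral_pi_succ (fun _ => gam (d+1)) _ hF]
  rw [lintegral_lintegral_swap]
  · have h1 : ∀ R : Fin d → Fin (d+1) → ℝ, ∫⁻ z, ENNReal.ofReal
        |(Matrix.of (Fin.cons z R : Fin (d+1) → Fin (d+1) → ℝ)).det| *
        ψ (r * ∑ j, ((Matrix.of (Fin.cons z R : Fin (d+1) → Fin (d+1) → ℝ))⁻¹ j 0) ^ 2)
          ∂(gam (d+1)) = ENNReal.ofReal √(cof R ⬝ᵥ cof R) *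
        ∫⁻ c, ENNReal.ofReal |c| * ψ (r / c ^ 2) ∂(gaussianReal 0 1) := by
      intro R
      rw [← row_zero (cof R) r ψ hψ]
      apply lintegral_congr
      intro z
      rw [det_cons]
      congr 3
      simp_rw [inv_cons, mul_pow]
      rw [← Finset.mul_sum]
      simp only [dotProduct, ← sq]
      rw [div_eq_inv_mul, inv_pow]
    simp_rw [h1]
    rw [lintegral_mul_const _ (by
      have := measurable_cof (d := d)
      apply ENNReal.measurable_ofReal.comp
      apply Measurable.sqrt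
      unfold dotProduct
      fun_prop)]
    rfl
  · apply Measurable.aemeasurable
    apply hF.comp
    rw [measurable_pi_iff]
    intro i
    refine Fin.cases ?_ ?_ i
    · simpa using measurable_fst
    · intro j
      simp only [Fin.cons_succ]
      exact (measurable_pi_apply j).comp measurable_snd

end Pool.Agent.H58Radon
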