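import Mathlib
import Pool.Agent.H58Radon.Law1
import Pool.Agent.H58Radon.GenAE

set_option autoImplicit false

namespace Pool.Agent.H58Radon

open MeasureTheory ProbabilityTheory Finset
open scoped ENNReal NNReal

variable {d : ℕ}

/-- flip as a linear equivalence -/
def flipE (d : ℕ) : (Fin d → Fin d → ℝ) ≃ₗ[ℝ] (Fin d → Fin d → ℝ) where
  toFun X := fun i j => X j i
  invFun X := fun i j => X j i
  map_add' _ _ := rfl
  map_smul' _ _ := rfl
  left_inv _ := rfl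
  right_inv _ := rfl

/-- left multiplication by `B` -/
noncomputable def Lmul (B : Matrix (Fin d) (Fin d) ℝ) :
    (Fin d → Fin d → ℝ) →ₗ[ℝ] (Fin d → Fin d → ℝ) :=
  ((flipE d).symm.toLinearMap ∘ₗ
    (LinearMap.pi fun j : Fin d => (Matrix.toLin' B).comp (LinearMap.proj j))) ∘ₗ
      (flipE d).toLinearMap

lemma Lmul_apply (B : Matrix (Fin d) (Fin d) ℝ) (X : Fin d → Fin d → ℝ) :
    Matrix.of (Lmul B X) = B * Matrix.of X := by
  ext i j
  simp [Lmul, flipE, Matrix.mul_apply, Matrix.mulVec, dotProduct]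

lemma det_Lmul (B : Matrix (Fin d) (Fin d) ℝ) : LinearMap.det (Lmul B) = B.det ^ d := by
  have h : LinearMap.det (Lmul B) = LinearMap.det
      (LinearMap.pi fun j : Fin d => (Matrix.toLin' B).comp
        (LinearMap.proj (R := ℝ) (φ := fun _ : Fin d => Fin d → ℝ) j)) := by
    have := LinearMap.det_conj (LinearMap.pi fun j : Fin d => (Matrix.toLin' B).comp
        (LinearMap.proj (R := ℝ) (φ := fun _ : Fin d => Fin d → ℝ) j)) (flipE d).symm
    rw [← this]
    rfl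
  rw [h, LinearMap.det_pi]
  simp [LinearMap.det_toLin']

lemma lintegral_Lmul {B : Matrix (Fin d) (Fin d) ℝ} (hB : B.det ≠ 0)
    (F : (Fin d → Fin d → ℝ) → ℝ≥0∞) (hF : Measurable F) :
    ∫⁻ X, F (Lmul B X) = ENNReal.ofReal |(B.det ^ d)⁻¹| * ∫⁻ X, F X := by
  have hH := haarPiPi d d
  have h := Measure.map_linearMap_addHaar_eq_smul_addHaar
    (volume : Measure (Fin d → Fin d → ℝ)) (f := Lmul B) (by rw [det_Lmul]; exact pow_ne_zero _ hB)
  have hc : Measurable (Lmul B) := (Lmul B).continuous_of_finiteDimensional.measurable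
  rw [← lintegral_map hF hc, h, lintegral_smul_measure, det_Lmul, smul_eq_mul]

/-- Householder reflection -/
lemma exists_householder (a b : Fin d → ℝ) (hab : a ⬝ᵥ a = b ⬝ᵥ b) :
    ∃ H : Matrix (Fin d) (Fin d) ℝ, H.transpose * H = 1 ∧ H.mulVec a = b := by
  by_cases h0 : a - b = 0
  · exact ⟨1, by simp, by rw [Matrix.one_mulVec]; exact sub_eq_zero.mp h0⟩
  · set h := a - b with hh
    have hpos : 0 < h ⬝ᵥ h := by
      apply lt_of_le_of_ne (dot_self_nonneg h)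
      intro hz
      exact h0 (dotProduct_self_eq_zero.mp hz.symm)
    have hne : h ⬝ᵥ h ≠ 0 := hpos.ne'
    have hha : 2 * (h ⬝ᵥ a) = h ⬝ᵥ h := by
      have e1 : h ⬝ᵥ h = a ⬝ᵥ a - 2 * (a ⬝ᵥ b) + b ⬝ᵥ b := by
        rw [hh]; simp only [sub_dotProduct, dotProduct_sub]
        rw [dotProduct_comm b a]; ring
      have e2 : h ⬝ᵥ a = a ⬝ᵥ a - a ⬝ᵥ b := by
        rw [hh]; simp only [sub_dotProduct]
        rw [dotProduct_comm b a]
      rw [e1, e2, ← hab]; ring
    refine ⟨1 - (2 / (h ⬝ᵥ h)) • Matrix.vecMulVec h h, ?_, ?_⟩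
    · have ht : (1 - (2 / (h ⬝ᵥ h)) • Matrix.vecMulVec h h).transpose
          = 1 - (2 / (h ⬝ᵥ h)) • Matrix.vecMulVec h h := by
        ext i j
        simp [Matrix.transpose_apply, Matrix.vecMulVec_apply, Matrix.one_apply, mul_comm, eq_comm]
      rw [ht]
      have hv : Matrix.vecMulVec h h * Matrix.vecMulVec h h = (h ⬝ᵥ h) • Matrix.vecMulVec h h := by
        rw [Matrix.vecMulVec_mul_vecMulVec]
        ext i j
        simp [Matrix.vecMulVec_apply]; ring
      rw [sub_mul, mul_sub, mul_sub, one_mul, mul_one, one_mul, Matrix.smul_mul, Matrix.mul_smul, hv,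
        smul_smul, smul_smul]
      have : 2 / (h ⬝ᵥ h) * (2 / (h ⬝ᵥ h)) * (h ⬝ᵥ h) = 2 * (2 / (h ⬝ᵥ h)) := by
        field_simp
      rw [this, ← smul_smul, two_smul]
      abel
    · rw [Matrix.sub_mulVec, Matrix.one_mulVec, Matrix.smul_mulVec]
      have : (Matrix.vecMulVec h h).mulVec a = (h ⬝ᵥ a) • h := by
        ext i
        simp only [Matrix.mulVec, Matrix.vecMulVec_apply, dotProduct, Pi.smul_apply, smul_eq_mul]
        rw [Finset.sum_mul]
        apply Finset.sum_congr rfl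
        intro j _; ring
      rw [this, smul_smul]
      have : 2 / (h ⬝ᵥ h) * (h ⬝ᵥ a) = 1 := by
        field_simp; linarith
      rw [this, one_smul, hh]
      abel

/-- the matrix used for the substitution -/
lemma exists_B (ν : Fin (d+1) → ℝ) :
    ∃ B : Matrix (Fin (d+1)) (Fin (d+1)) ℝ, B.transpose * B = 1 + Matrix.vecMulVec ν ν ∧
      B.mulVec 1 = √((d + 1 : ℝ) + (∑ k, ν k) ^ 2) • (Pi.single 0 1 : Fin (d+1) → ℝ) := by
  have hνν := dot_self_nonneg ν
  set ρ := √(1 + ν ⬝ᵥ ν) with hρ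
  have hρ1 : 0 < ρ := Real.sqrt_pos.mpr (by linarith)
  have hρ2 : ρ ^ 2 = 1 + ν ⬝ᵥ ν := Real.sq_sqrt (by linarith)
  set N : Matrix (Fin (d+1)) (Fin (d+1)) ℝ := 1 + (1 / (1 + ρ)) • Matrix.vecMulVec ν ν with hN
  have hNt : N.transpose = N := by
    ext i j
    simp [hN, Matrix.transpose_apply, Matrix.vecMulVec_apply, Matrix.one_apply, mul_comm, eq_comm]
  have hv : Matrix.vecMulVec ν ν * Matrix.vecMulVec ν ν = (ν ⬝ᵥ ν) • Matrix.vecMulVec ν ν := by
    rw [Matrix.vecMulVec_mul_vecMulVec]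
    ext i j
    simp [Matrix.vecMulVec_apply]; ring
  have hNN : N * N = 1 + Matrix.vecMulVec ν ν := by
    rw [hN, add_mul, mul_add, mul_add, one_mul, mul_one, one_mul, Matrix.smul_mul, Matrix.mul_smul,
      hv, smul_smul, smul_smul, add_assoc, ← add_assoc (_ • _), ← add_smul, ← add_smul]
    congr 1
    conv_rhs => rw [← one_smul ℝ (Matrix.vecMulVec ν ν)]
    congr 1
    have : ν ⬝ᵥ ν = ρ ^ 2 - 1 := by linarith
    rw [this]
    field_simp
    ring
  have hN1 : (N.mulVec 1) ⬝ᵥ (N.mulVec 1)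
      = (√((d + 1 : ℝ) + (∑ k, ν k) ^ 2) • (Pi.single 0 1 : Fin (d+1) → ℝ)) ⬝ᵥ
        (√((d + 1 : ℝ) + (∑ k, ν k) ^ 2) • (Pi.single 0 1 : Fin (d+1) → ℝ)) := by
    have e1 : (N.mulVec 1) ⬝ᵥ (N.mulVec 1) = (1 : Fin (d+1) → ℝ) ⬝ᵥ ((N * N).mulVec 1) := by
      rw [← Matrix.mulVec_mulVec, Matrix.dotProduct_mulVec 1 N, ← Matrix.mulVec_transpose, hNt]
    rw [e1, hNN, Matrix.add_mulVec, Matrix.one_mulVec, dotProduct_add]
    have e2 : (Matrix.vecMulVec ν ν).mulVec 1 = (∑ k, ν k) • ν := by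
      ext i
      simp only [Matrix.mulVec, Matrix.vecMulVec_apply, dotProduct, Pi.smul_apply, smul_eq_mul,
        Pi.one_apply, mul_one]
      rw [← Finset.mul_sum]; ring
    have e3 : (1 : Fin (d+1) → ℝ) ⬝ᵥ (1 : Fin (d+1) → ℝ) = d + 1 := by simp [dotProduct]
    have e4 : (1 : Fin (d+1) → ℝ) ⬝ᵥ ν = ∑ k, ν k := by simp [dotProduct]
    have e5 : (Pi.single 0 1 : Fin (d+1) → ℝ) ⬝ᵥ (Pi.single 0 1 : Fin (d+1) → ℝ) = 1 := by
      simp
    rw [e2, dotProduct_smul, e3, e4, smul_dotProduct, dotProduct_smul, e5, smul_eq_mul, smul_eq_mul,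
      smul_eq_mul, mul_one, Real.mul_self_sqrt (by positivity)]
    ring
  obtain ⟨H, hH, hHa⟩ := exists_householder _ _ hN1
  refine ⟨H * N, ?_, ?_⟩
  · rw [Matrix.transpose_mul, hNt, Matrix.mul_assoc, ← Matrix.mul_assoc H.transpose, hH,
      Matrix.one_mul, hNN]
  · rw [← Matrix.mulVec_mulVec, hHa]

lemma det_B {ν : Fin (d+1) → ℝ} {B : Matrix (Fin (d+1)) (Fin (d+1)) ℝ}
    (h : B.transpose * B = 1 + Matrix.vecMulVec ν ν) : B.det ^ 2 = 1 + ν ⬝ᵥ ν := by
  have := congrArg Matrix.det h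
  rw [Matrix.det_mul, Matrix.det_transpose, ← sq] at this
  rw [this, Matrix.vecMulVec_eq (Fin 1), Matrix.det_one_add_replicateCol_mul_replicateRow]

end Pool.Agent.H58Radon
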