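import Mathlib
import Pool.Agent.H58Radon.Law2

set_option autoImplicit false

namespace Pool.Agent.H58Radon

open MeasureTheory ProbabilityTheory Finset
open scoped ENNReal NNReal

variable {d : ℕ}

lemma det_ae' (d : ℕ) : ∀ᵐ X ∂(volume : Measure (Fin d → Fin d → ℝ)), (Matrix.of X).det ≠ 0 := by
  have h := det_ae (n := d) (d := d) id Function.injective_id
  have h2 := Measure.ae_ae_of_ae_prod h
  filter_upwards [h2] with X hX
  obtain ⟨g, hg⟩ := hX.exists
  exact hg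

lemma inner_G {m : ℕ} (X : Fin m → Fin m → ℝ) (hX : (Matrix.of X).det ≠ 0)
    (f : (Fin m → ℝ) → ℝ≥0∞) (hf : Measurable f) :
    ∫⁻ G, f (Matrix.vecMul G (Matrix.of X)⁻¹) ∂(gam m)
      = ∫⁻ ν, f ν * (ENNReal.ofReal |(Matrix.of X).det| * dens m (Matrix.vecMul ν (Matrix.of X))) := by
  have hd := measurable_dens m
  have hmv : ∀ M : Matrix (Fin m) (Fin m) ℝ, Measurable fun G : Fin m → ℝ => Matrix.vecMul G M := by
    intro M
    unfold Matrix.vecMul dotProduct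
    fun_prop
  have hfm : Measurable fun G : Fin m → ℝ => f (Matrix.vecMul G (Matrix.of X)⁻¹) :=
    hf.comp (hmv _)
  rw [gam_eq, lintegral_withDensity_eq_lintegral_mul _ hd hfm]
  simp only [Pi.mul_apply]
  set F : (Fin m → ℝ) → ℝ≥0∞ := fun G => dens m G * f (Matrix.vecMul G (Matrix.of X)⁻¹) with hF
  have hFm : Measurable F := hd.mul (hf.comp (hmv _))
  have hdt : ((Matrix.of X).transpose).det ≠ 0 := by rwa [Matrix.det_transpose]
  have h := Real.map_matrix_volume_pi_eq_smul_volume_pi hdt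
  have h2 : ∫⁻ ν, F (Matrix.toLin' (Matrix.of X).transpose ν)
      = ENNReal.ofReal |((Matrix.of X).det)⁻¹| * ∫⁻ G, F G := by
    have hc : Measurable (Matrix.toLin' (Matrix.of X).transpose) :=
      (Matrix.toLin' (Matrix.of X).transpose).continuous_of_finiteDimensional.measurable
    rw [← lintegral_map hFm hc, h, lintegral_smul_measure, Matrix.det_transpose, smul_eq_mul]
  have h3 : ∀ ν : Fin m → ℝ, F (Matrix.toLin' (Matrix.of X).transpose ν)
      = dens m (Matrix.vecMul ν (Matrix.of X)) * f ν := by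
    intro ν
    simp only [hF, Matrix.toLin'_apply, Matrix.mulVec_transpose]
    rw [Matrix.vecMul_vecMul, Matrix.mul_nonsing_inv _ (isUnit_iff_ne_zero.mpr hX),
      Matrix.vecMul_one]
  have h4 : ∫⁻ G, F G = ENNReal.ofReal |(Matrix.of X).det| *
      ∫⁻ ν, F (Matrix.toLin' (Matrix.of X).transpose ν) := by
    rw [h2, ← mul_assoc, ← ENNReal.ofReal_mul (abs_nonneg _), ← abs_mul,
      mul_inv_cancel₀ hX, abs_one, ENNReal.ofReal_one, one_mul]
  rw [h4, ← lintegral_const_mul _ (by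
    apply hFm.comp
    exact (Matrix.toLin' (Matrix.of X).transpose).continuous_of_finiteDimensional.measurable)]
  apply lintegral_congr
  intro ν
  rw [h3]
  ring

lemma wvec_mul {m : ℕ} {B X : Matrix (Fin (m+1)) (Fin (m+1)) ℝ} (hB : B.det ≠ 0) {r : ℝ}
    (h1 : B.mulVec 1 = r • (Pi.single 0 1 : Fin (m+1) → ℝ)) (i : Fin (m+1)) :
    wvec X i = r * (B * X)⁻¹ i 0 := by
  have h2 : wvec X = (B * X)⁻¹.mulVec (B.mulVec 1) := by
    rw [Matrix.mul_inv_rev, Matrix.mulVec_mulVec, Matrix.mul_assoc,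
      Matrix.nonsing_inv_mul _ (isUnit_iff_ne_zero.mpr hB), Matrix.mul_one, wvec]
  rw [h2, h1, Matrix.mulVec_smul, Matrix.mulVec_single_one]
  simp

/-- the quadratic form identity -/
lemma dens_mul {m : ℕ} {ν : Fin m → ℝ} {B X : Matrix (Fin m) (Fin m) ℝ}
    (h : B.transpose * B = 1 + Matrix.vecMulVec ν ν) :
    dens m (Matrix.vecMul ν X) * ∏ k, dens m (X k)
      = ENNReal.ofReal ((√(2 * Real.pi))⁻¹ ^ m) * ∏ k, dens m ((B * X) k) := by
  simp only [dens_eq]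
  rw [← ENNReal.ofReal_prod_of_nonneg (fun i _ => by positivity),
    ← ENNReal.ofReal_prod_of_nonneg (fun i _ => by positivity),
    ← ENNReal.ofReal_mul (by positivity), ← ENNReal.ofReal_mul (by positivity)]
  congr 1
  rw [Finset.prod_mul_distrib, Finset.prod_mul_distrib, ← Real.exp_sum, ← Real.exp_sum]
  have key : Matrix.vecMul ν X ⬝ᵥ Matrix.vecMul ν X + ∑ k, X k ⬝ᵥ X k
      = ∑ k, (B * X) k ⬝ᵥ (B * X) k := by
    have t1 : ∀ Y : Matrix (Fin m) (Fin m) ℝ, ∑ k, Y k ⬝ᵥ Y k = (Y.transpose * Y).trace := by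
      intro Y
      simp only [Matrix.trace, Matrix.diag_apply, Matrix.mul_apply, Matrix.transpose_apply,
        dotProduct]
      rw [Finset.sum_comm]
    rw [t1, t1, Matrix.transpose_mul, Matrix.mul_assoc, ← Matrix.mul_assoc B.transpose, h,
      Matrix.add_mul, Matrix.mul_add, Matrix.trace_add, Matrix.one_mul, add_comm]
    congr 1
    have t2 : Matrix.vecMulVec ν ν * X = Matrix.vecMulVec ν (Matrix.vecMul ν X) := by
      rw [Matrix.vecMulVec_mul]
    rw [t2, Matrix.mul_vecMulVec, Matrix.mulVec_transpose, Matrix.trace_vecMulVec]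
  have e1 : (√(2 * Real.pi))⁻¹ ^ m * Real.exp (-(Matrix.vecMul ν X ⬝ᵥ Matrix.vecMul ν X) / 2) *
      ((∏ _i : Fin m, (√(2 * Real.pi))⁻¹ ^ m) * Real.exp (∑ k, -(X k ⬝ᵥ X k) / 2))
      = (√(2 * Real.pi))⁻¹ ^ m * ((∏ _i : Fin m, (√(2 * Real.pi))⁻¹ ^ m) *
        Real.exp (-(Matrix.vecMul ν X ⬝ᵥ Matrix.vecMul ν X) / 2 + ∑ k, -(X k ⬝ᵥ X k) / 2)) := by
    rw [Real.exp_add]; ring
  rw [e1]
  congr 3
  rw [← Finset.sum_div, ← Finset.sum_div, Finset.sum_neg_distrib, Finset.sum_neg_distrib, ← key]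
  ring

theorem law (f : (Fin (d+1) → ℝ) → ℝ≥0∞) (hf : Measurable f) (ψ : ℝ → ℝ≥0∞) (hψ : Measurable ψ) :
    ∫⁻ X, ∫⁻ G, f (Matrix.vecMul G (Matrix.of X)⁻¹) *
        ψ (wvec (Matrix.of X) ⬝ᵥ wvec (Matrix.of X)) ∂(gam (d+1)) ∂(Gam (d+1) (d+1))
      = ENNReal.ofReal ((√(2 * Real.pi))⁻¹ ^ (d+1)) * KK d * ∫⁻ ν, f ν *
        (ENNReal.ofReal (((√(1 + ν ⬝ᵥ ν)) ^ (d+2))⁻¹) *
          ∫⁻ c, ENNReal.ofReal |c| * ψ ((d + 1 + (∑ k, ν k) ^ 2) / c ^ 2) ∂(gaussianReal 0 1)) := by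
  have hdm := measurable_dens (d+1)
  have hdet := measurable_det (d := d+1)
  have hwm : Measurable fun X : Fin (d+1) → Fin (d+1) → ℝ => wvec (Matrix.of X) := by
    apply measurable_wvec
    intro i j
    simp only [Matrix.of_apply]
    fun_prop
  have hww : Measurable fun X : Fin (d+1) → Fin (d+1) → ℝ =>
      wvec (Matrix.of X) ⬝ᵥ wvec (Matrix.of X) := by
    unfold dotProduct
    fun_prop
  have hψw : Measurable fun X : Fin (d+1) → Fin (d+1) → ℝ =>
      ψ (wvec (Matrix.of X) ⬝ᵥ wvec (Matrix.of X)) := hψ.comp hww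
  have hvm : Measurable fun p : (Fin (d+1) → Fin (d+1) → ℝ) × (Fin (d+1) → ℝ) =>
      Matrix.vecMul p.2 (Matrix.of p.1) := by
    unfold Matrix.vecMul dotProduct
    simp only [Matrix.of_apply]
    fun_prop
  have hdX : Measurable fun X : Fin (d+1) → Fin (d+1) → ℝ => ENNReal.ofReal |(Matrix.of X).det| :=
    ENNReal.measurable_ofReal.comp hdet.abs
  -- step 1
  have s1 : ∫⁻ X, ∫⁻ G, f (Matrix.vecMul G (Matrix.of X)⁻¹) *
        ψ (wvec (Matrix.of X) ⬝ᵥ wvec (Matrix.of X)) ∂(gam (d+1)) ∂(Gam (d+1) (d+1))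
      = ∫⁻ X, ∫⁻ ν, f ν * (ENNReal.ofReal |(Matrix.of X).det| *
          dens (d+1) (Matrix.vecMul ν (Matrix.of X)) *
          ψ (wvec (Matrix.of X) ⬝ᵥ wvec (Matrix.of X))) ∂volume ∂(Gam (d+1) (d+1)) := by
    apply lintegral_congr_ae
    filter_upwards [(Gam_ac (d+1) (d+1)).ae_le (det_ae' (d+1))] with X hX
    have hmv : Measurable fun G : Fin (d+1) → ℝ => Matrix.vecMul G (Matrix.of X)⁻¹ := by
      unfold Matrix.vecMul dotProduct
      fun_prop
    have hmv2 : Measurable fun G : Fin (d+1) → ℝ => Matrix.vecMul G (Matrix.of X) := by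
      unfold Matrix.vecMul dotProduct
      fun_prop
    have hfm : Measurable fun G : Fin (d+1) → ℝ => f (Matrix.vecMul G (Matrix.of X)⁻¹) :=
      hf.comp hmv
    rw [lintegral_mul_const _ hfm, inner_G X hX f hf, ← lintegral_mul_const _ (by
      apply hf.mul
      apply Measurable.const_mul
      exact hdm.comp hmv2)]
    apply lintegral_congr
    intro ν
    ring
  rw [s1, lintegral_lintegral_swap]
  swap
  · apply Measurable.aemeasurable
    apply Measurable.mul (hf.comp measurable_snd)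
    apply Measurable.mul
    · exact (hdX.comp measurable_fst).mul (hdm.comp hvm)
    · exact hψw.comp measurable_fst
  have hνm : Measurable fun ν : Fin (d+1) → ℝ => f ν *
        (ENNReal.ofReal (((√(1 + ν ⬝ᵥ ν)) ^ (d+2))⁻¹) *
          ∫⁻ c, ENNReal.ofReal |c| * ψ ((d + 1 + (∑ k, ν k) ^ 2) / c ^ 2)
            ∂(gaussianReal 0 1)) := by
    apply hf.mul
    apply Measurable.mul
    · unfold dotProduct
      fun_prop
    · exact Measurable.lintegral_prod_right' (f := fun p : (Fin (d+1) → ℝ) × ℝ =>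
        ENNReal.ofReal |p.2| * ψ ((d + 1 + (∑ k, p.1 k) ^ 2) / p.2 ^ 2)) (by fun_prop)
  rw [← lintegral_const_mul _ hνm]
  apply lintegral_congr
  intro ν
  have hm1 : Measurable fun X : Fin (d+1) → Fin (d+1) → ℝ => ENNReal.ofReal |(Matrix.of X).det| *
          dens (d+1) (Matrix.vecMul ν (Matrix.of X)) *
          ψ (wvec (Matrix.of X) ⬝ᵥ wvec (Matrix.of X)) := by
    apply Measurable.mul _ hψw
    exact hdX.mul (hdm.comp (hvm.comp (measurable_id.prodMk measurable_const)))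
  rw [lintegral_const_mul _ hm1]
  obtain ⟨B, hB1, hB2⟩ := exists_B ν
  have hB3 := det_B hB1
  have hνν := dot_self_nonneg ν
  have hB4 : |B.det| = √(1 + ν ⬝ᵥ ν) := by
    rw [← hB3, Real.sqrt_sq_eq_abs]
  have hB5 : B.det ≠ 0 := by
    intro h0
    rw [h0] at hB3
    nlinarith
  have hr : (0 : ℝ) ≤ (d + 1 : ℝ) + (∑ k, ν k) ^ 2 := by positivity
  have hpm : Measurable fun X : Fin (d+1) → Fin (d+1) → ℝ => ∏ k, dens (d+1) (X k) := by
    apply Finset.measurable_prod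
    intro k _
    exact hdm.comp (measurable_pi_apply k)
  set Φ : (Fin (d+1) → Fin (d+1) → ℝ) → ℝ≥0∞ := fun Y => ENNReal.ofReal |(Matrix.of Y).det|
        * ψ (((d + 1 : ℝ) + (∑ k, ν k) ^ 2) * ∑ j, ((Matrix.of Y)⁻¹ j 0) ^ 2) with hΦ
  have hΦm : Measurable Φ := by
    apply Measurable.mul hdX
    apply hψ.comp
    apply Measurable.const_mul
    exact Finset.measurable_sum _ fun j _ => (measurable_inv_entry' j 0).pow_const 2
  have s2 : ∫⁻ X, ENNReal.ofReal |(Matrix.of X).det| *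
          dens (d+1) (Matrix.vecMul ν (Matrix.of X)) *
          ψ (wvec (Matrix.of X) ⬝ᵥ wvec (Matrix.of X)) ∂(Gam (d+1) (d+1))
      = ∫⁻ X, (ENNReal.ofReal ((√(2 * Real.pi))⁻¹ ^ (d+1)) * ENNReal.ofReal (|B.det|⁻¹)) *
          ((fun Y => (∏ k, dens (d+1) (Y k)) * Φ Y) (Lmul B X)) := by
    rw [Gam_eq, lintegral_withDensity_eq_lintegral_mul _ hpm hm1]
    apply lintegral_congr
    intro X
    simp only [Pi.mul_apply]
    have h1 := dens_mul (X := Matrix.of X) hB1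
    have h2 : ENNReal.ofReal |(Matrix.of X).det| =
        ENNReal.ofReal (|B.det|⁻¹) * ENNReal.ofReal |(Matrix.of (Lmul B X)).det| := by
      rw [Lmul_apply, Matrix.det_mul, abs_mul, ← ENNReal.ofReal_mul (by positivity), ← mul_assoc,
        inv_mul_cancel₀ (abs_ne_zero.mpr hB5), one_mul]
    have h3 : wvec (Matrix.of X) ⬝ᵥ wvec (Matrix.of X)
        = ((d + 1 : ℝ) + (∑ k, ν k) ^ 2) * ∑ j, ((Matrix.of (Lmul B X))⁻¹ j 0) ^ 2 := by
      simp only [dotProduct]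
      rw [Finset.mul_sum]
      apply Finset.sum_congr rfl
      intro j _
      rw [wvec_mul hB5 hB2, Lmul_apply]
      have := Real.mul_self_sqrt hr
      linear_combination ((B * Matrix.of X)⁻¹ j 0) ^ 2 * this
    rw [h2, h3]
    have h4 : ∀ k, dens (d+1) ((Lmul B X) k) = dens (d+1) ((B * Matrix.of X) k) := by
      intro k
      rw [← Lmul_apply]; rfl
    simp only [hΦ, h4]
    have h5 : ∀ k, dens (d+1) (X k) = dens (d+1) ((Matrix.of X) k) := fun k => rfl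
    simp only [h5]
    calc _ = (dens (d+1) (Matrix.vecMul ν (Matrix.of X)) * ∏ k, dens (d+1) ((Matrix.of X) k)) *
        (ENNReal.ofReal (|B.det|⁻¹) * ENNReal.ofReal |(Matrix.of (Lmul B X)).det| *
          ψ (((d + 1 : ℝ) + (∑ k, ν k) ^ 2) * ∑ j, ((Matrix.of (Lmul B X))⁻¹ j 0) ^ 2)) := by ring
      _ = _ := by rw [h1]; ring
  have hprod : Measurable fun Y : Fin (d+1) → Fin (d+1) → ℝ => (∏ k, dens (d+1) (Y k)) * Φ Y :=
    hpm.mul hΦm
  have hLm : Measurable (Lmul B) := (Lmul B).continuous_of_finiteDimensional.measurable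
  have hcm : Measurable fun X : Fin (d+1) → Fin (d+1) → ℝ =>
      (fun Y => (∏ k, dens (d+1) (Y k)) * Φ Y) (Lmul B X) := hprod.comp hLm
  rw [s2, lintegral_const_mul _ hcm, lintegral_Lmul hB5 _ hprod]
  have s3 : ∫⁻ Y : Fin (d+1) → Fin (d+1) → ℝ, (∏ k, dens (d+1) (Y k)) * Φ Y
      = ∫⁻ Y, Φ Y ∂(Gam (d+1) (d+1)) := by
    rw [Gam_eq, lintegral_withDensity_eq_lintegral_mul _ hpm hΦm]
    rfl
  rw [s3, hΦ, J_formula _ ψ hψ]
  have s4 : ENNReal.ofReal (|B.det|⁻¹) * ENNReal.ofReal |(B.det ^ (d+1))⁻¹|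
      = ENNReal.ofReal (((√(1 + ν ⬝ᵥ ν)) ^ (d+2))⁻¹) := by
    rw [← ENNReal.ofReal_mul (by positivity), abs_inv, abs_pow, hB4]
    congr 1
    rw [← mul_inv, pow_succ' _ (d+1)]
  calc _ = f ν * (ENNReal.ofReal ((√(2 * Real.pi))⁻¹ ^ (d+1)) *
        ((ENNReal.ofReal (|B.det|⁻¹) * ENNReal.ofReal |(B.det ^ (d+1))⁻¹|) * (KK d *
          ∫⁻ c, ENNReal.ofReal |c| * ψ ((d + 1 + (∑ k, ν k) ^ 2) / c ^ 2) ∂(gaussianReal 0 1)))) := by
        ring
    _ = _ := by rw [s4]; ring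

end Pool.Agent.H58Radon
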