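import Mathlib
import Pool.Agent.H58Radon.Law3

set_option autoImplicit false

namespace Pool.Agent.H58Radon

open MeasureTheory ProbabilityTheory Finset
open scoped ENNReal NNReal

variable {d : ℕ}

lemma lintegral_scale {a : ℝ} (ha : a ≠ 0) (F : ℝ → ℝ≥0∞) (hF : Measurable F) :
    ∫⁻ x, F x = ENNReal.ofReal |a| * ∫⁻ x, F (a * x) := by
  conv_lhs => rw [← Real.smul_map_volume_mul_left ha]
  rw [lintegral_smul_measure, lintegral_map hF (by fun_prop), smul_eq_mul]

lemma lintegral_gauss (F : ℝ → ℝ≥0∞) (hF : Measurable F) :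
    ∫⁻ x, F x ∂(gaussianReal 0 1)
      = ∫⁻ x, ENNReal.ofReal ((√(2 * Real.pi))⁻¹ * Real.exp (-x ^ 2 / 2)) * F x := by
  rw [gaussianReal_of_var_ne_zero 0 one_ne_zero,
    lintegral_withDensity_eq_lintegral_mul _ (measurable_gaussianPDF 0 1) hF]
  apply lintegral_congr
  intro x
  simp [gaussianPDF, gaussianPDFReal]

/-- Step A: rescaling the inner integral -/
lemma stepA {r : ℝ} (hr : 0 < r) (ψ : ℝ → ℝ≥0∞) (hψ : Measurable ψ) :
    ∫⁻ c, ENNReal.ofReal |c| * ψ (r / c ^ 2) ∂(gaussianReal 0 1)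
      = ENNReal.ofReal ((√(2 * Real.pi))⁻¹) *
        ∫⁻ c, ψ (1 / c ^ 2) * (ENNReal.ofReal |c| *
          ENNReal.ofReal (r * Real.exp (-(r * c ^ 2) / 2))) := by
  rw [lintegral_gauss _ (by fun_prop)]
  have hs : √r ≠ 0 := (Real.sqrt_pos.mpr hr).ne'
  rw [lintegral_scale hs _ (by fun_prop), ← lintegral_const_mul _ (by fun_prop),
    ← lintegral_const_mul _ (by fun_prop)]
  apply lintegral_congr
  intro c
  have h1 : r / (√r * c) ^ 2 = 1 / c ^ 2 := by
    rw [mul_pow, Real.sq_sqrt hr.le]; field_simp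
  rw [h1]
  have h2 : ENNReal.ofReal |√r| * (ENNReal.ofReal ((√(2 * Real.pi))⁻¹
        * Real.exp (-(√r * c) ^ 2 / 2)) * (ENNReal.ofReal |√r * c| * ψ (1 / c ^ 2)))
      = (ENNReal.ofReal |√r| * ENNReal.ofReal ((√(2 * Real.pi))⁻¹
        * Real.exp (-(√r * c) ^ 2 / 2)) * ENNReal.ofReal |√r * c|) * ψ (1 / c ^ 2) := by ring
  have h3 : ENNReal.ofReal (√(2 * Real.pi))⁻¹ * (ψ (1 / c ^ 2) * (ENNReal.ofReal |c| *
        ENNReal.ofReal (r * Real.exp (-(r * c ^ 2) / 2))))
      = (ENNReal.ofReal (√(2 * Real.pi))⁻¹ * ENNReal.ofReal |c| *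
        ENNReal.ofReal (r * Real.exp (-(r * c ^ 2) / 2))) * ψ (1 / c ^ 2) := by ring
  rw [h2, h3]
  congr 1
  rw [← ENNReal.ofReal_mul (by positivity), ← ENNReal.ofReal_mul (by positivity),
    ← ENNReal.ofReal_mul (by positivity), ← ENNReal.ofReal_mul (by positivity)]
  congr 1
  rw [abs_mul, mul_pow, Real.sq_sqrt hr.le]
  have := Real.mul_self_sqrt hr.le
  rw [abs_of_nonneg (Real.sqrt_nonneg r)]
  linear_combination ((√(2 * Real.pi))⁻¹ * Real.exp (-(r * c ^ 2) / 2) * |c|) * this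

/-- moment constant -/
noncomputable def MM (m : ℕ) : ℝ≥0∞ :=
  ∫⁻ ρ in Set.Ioi (0 : ℝ), ENNReal.ofReal (ρ ^ m * Real.exp (-ρ ^ 2 / 2))

lemma mix {a : ℝ} (ha : 0 < a) (m : ℕ) :
    ∫⁻ ρ in Set.Ioi (0 : ℝ), ENNReal.ofReal (ρ ^ m * Real.exp (-(a * ρ) ^ 2 / 2))
      = ENNReal.ofReal ((a ^ (m + 1))⁻¹) * MM m := by
  unfold MM
  rw [← lintegral_indicator measurableSet_Ioi, ← lintegral_indicator measurableSet_Ioi]
  rw [lintegral_scale ha.ne' ((Set.Ioi (0 : ℝ)).indicator
    fun ρ => ENNReal.ofReal (ρ ^ m * Real.exp (-ρ ^ 2 / 2)))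
    (Measurable.indicator (by fun_prop) measurableSet_Ioi)]
  have hm2 : Measurable fun x : ℝ => (Set.Ioi (0 : ℝ)).indicator
      (fun ρ => ENNReal.ofReal (ρ ^ m * Real.exp (-ρ ^ 2 / 2))) (a * x) :=
    (Measurable.indicator (by fun_prop) measurableSet_Ioi).comp (measurable_const_mul a)
  rw [← lintegral_const_mul _ hm2, ← lintegral_const_mul _ (hm2.const_mul _)]
  apply lintegral_congr
  intro x
  by_cases hx : 0 < x
  · rw [Set.indicator_of_mem (Set.mem_Ioi.mpr hx), Set.indicator_of_mem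
      (Set.mem_Ioi.mpr (mul_pos ha hx)), ← ENNReal.ofReal_mul (by positivity),
      ← ENNReal.ofReal_mul (by positivity)]
    congr 1
    rw [abs_of_pos ha, mul_pow a x m]
    field_simp
    ring
  · rw [Set.indicator_of_notMem (by simpa using hx), Set.indicator_of_notMem (by
      simp only [Set.mem_Ioi, not_lt]
      exact mul_nonpos_of_nonneg_of_nonpos ha.le (not_lt.mp hx))]
    simp

lemma MM_ne_zero (m : ℕ) : MM m ≠ 0 := by
  unfold MM
  rw [← lintegral_indicator measurableSet_Ioi]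
  intro h
  rw [lintegral_eq_zero_iff (Measurable.indicator (by fun_prop) measurableSet_Ioi)] at h
  have h2 : volume (Set.Ioi (0 : ℝ)) = 0 := by
    apply measure_mono_null _ (ae_iff.mp h)
    intro x hx
    simp only [Set.mem_ofPred_eq, Pi.zero_apply]
    rw [Set.indicator_of_mem hx]
    have : 0 < x := hx
    simp only [ENNReal.ofReal_eq_zero, not_le]
    positivity
  simp at h2

lemma MM_ne_top (m : ℕ) : MM m ≠ ⊤ := by
  unfold MM
  have h : IntegrableOn (fun ρ : ℝ => ρ ^ m * Real.exp (-ρ ^ 2 / 2)) (Set.Ioi 0) := by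
    have := integrableOn_rpow_mul_exp_neg_mul_sq (b := 1/2) (by norm_num) (s := (m : ℝ))
      (by have : (0 : ℝ) ≤ m := by positivity
          linarith)
    refine this.congr_fun ?_ measurableSet_Ioi
    intro x _
    simp only [Real.rpow_natCast]
    congr 2
    ring
  have h2 := h.2
  rw [hasFiniteIntegral_iff_ofReal] at h2
  · exact h2.ne
  · rw [Filter.EventuallyLE, ae_restrict_iff' measurableSet_Ioi]
    refine Filter.Eventually.of_forall fun x hx => ?_
    have : (0 : ℝ) < x := hx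
    simp only [Pi.zero_apply]
    positivity

/-- the function `g_c` -/
noncomputable def gq (d : ℕ) (c σ : ℝ) : ℝ≥0∞ :=
  ENNReal.ofReal (((d + 1 : ℝ) + σ ^ 2) * Real.exp (-(((d + 1 : ℝ) + σ ^ 2) * c ^ 2) / 2))

/-- the mixed radial function `Θ_c` -/
noncomputable def Th (d : ℕ) (c D : ℝ) : ℝ≥0∞ :=
  ∫⁻ ρ in Set.Ioi |D|, ENNReal.ofReal (Real.exp (-ρ ^ 2 / 2)) * gq d c (D / ρ)

/-- half Gaussian weight -/
noncomputable def hp (t : ℝ) : ℝ≥0∞ :=
  (Set.Ioi (0 : ℝ)).indicator (fun t => ENNReal.ofReal (Real.exp (-t ^ 2 / 2))) t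

lemma measurable_hp : Measurable hp := Measurable.indicator (by fun_prop) measurableSet_Ioi

/-- the sign-pattern region -/
def Sg {m : ℕ} (s : Fin m → ℝ) : Set (Fin m → ℝ) := {ν | (∀ i, 0 < s i * ν i) ∧ |∑ i, ν i| < 1}

lemma measurableSet_Sg {m : ℕ} (s : Fin m → ℝ) : MeasurableSet (Sg s) := by
  have h1 : ∀ i, Measurable fun a : Fin m → ℝ => s i * a i := by intro i; fun_prop
  have h2 : Measurable fun a : Fin m → ℝ => |∑ i, a i| := by fun_prop
  have h3 : Sg s = (⋂ i, {a : Fin m → ℝ | 0 < s i * a i}) ∩ {a : Fin m → ℝ | |∑ i, a i| < 1} := by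
    ext a; simp [Sg]
  rw [h3]
  apply MeasurableSet.inter
  · exact MeasurableSet.iInter fun i => measurableSet_lt measurable_const (h1 i)
  · exact measurableSet_lt h2 measurable_const

/-- the indicator of the region -/
noncomputable def iSg {m : ℕ} (s : Fin m → ℝ) (ν : Fin m → ℝ) : ℝ≥0∞ :=
  (Sg s).indicator (fun _ => 1) ν

lemma measurable_iSg {m : ℕ} (s : Fin m → ℝ) : Measurable (iSg s) :=
  measurable_const.indicator (measurableSet_Sg s)

/-- the weight of a sign pattern -/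
noncomputable def HH (s : Fin (d+1) → ℝ) (c : ℝ) : ℝ≥0∞ :=
  ∫⁻ l : Fin (d+1) → ℝ, (∏ i, hp (s i * l i)) * Th d c (∑ i, l i)

lemma measurable_gq (d : ℕ) : Measurable fun p : ℝ × ℝ => gq d p.1 p.2 := by
  unfold gq; fun_prop

lemma prod_hp (s : Fin (d+1) → ℝ) (hs : ∀ i, s i * s i = 1) (l : Fin (d+1) → ℝ) :
    ∏ i, hp (s i * l i) = if ∀ i, 0 < s i * l i then ENNReal.ofReal (Real.exp (-(l ⬝ᵥ l) / 2))
      else 0 := by
  split_ifs with h
  · have : ∀ i, hp (s i * l i) = ENNReal.ofReal (Real.exp (-(l i) ^ 2 / 2)) := by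
      intro i
      unfold hp
      rw [Set.indicator_of_mem (Set.mem_Ioi.mpr (h i))]
      congr 3
      rw [mul_pow, sq (s i), hs i, one_mul]
    simp_rw [this]
    rw [← ENNReal.ofReal_prod_of_nonneg (fun i _ => by positivity), ← Real.exp_sum]
    congr 2
    rw [← Finset.sum_div, Finset.sum_neg_distrib]
    simp [dotProduct, sq]
  · push Not at h
    obtain ⟨i, hi⟩ := h
    apply Finset.prod_eq_zero (Finset.mem_univ i)
    unfold hp
    rw [Set.indicator_of_notMem (by simpa using hi)]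

/-- Step C -/
theorem stepC (s : Fin (d+1) → ℝ) (hs : ∀ i, s i * s i = 1) (c : ℝ) :
    MM (d+1) * ∫⁻ ν : Fin (d+1) → ℝ, iSg s ν *
        (ENNReal.ofReal (((√(1 + ν ⬝ᵥ ν)) ^ (d+2))⁻¹) * gq d c (∑ i, ν i)) = HH s c := by
  have hg : Measurable (gq d c) := (measurable_gq d).comp (measurable_const.prodMk measurable_id)
  have hi := measurable_iSg s
  have hdot : Measurable fun ν : Fin (d+1) → ℝ => ν ⬝ᵥ ν := by
    unfold dotProduct; fun_prop
  have hsum : Measurable fun ν : Fin (d+1) → ℝ => ∑ i, ν i := by fun_prop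
  have hgs : Measurable fun ν : Fin (d+1) → ℝ => gq d c (∑ i, ν i) := hg.comp hsum
  have h1 : MM (d+1) * ∫⁻ ν : Fin (d+1) → ℝ, iSg s ν *
        (ENNReal.ofReal (((√(1 + ν ⬝ᵥ ν)) ^ (d+2))⁻¹) * gq d c (∑ i, ν i))
      = ∫⁻ ν : Fin (d+1) → ℝ, ∫⁻ ρ in Set.Ioi (0 : ℝ), iSg s ν * gq d c (∑ i, ν i) *
          ENNReal.ofReal (ρ ^ (d+1) * Real.exp (-(ρ ^ 2 * (1 + ν ⬝ᵥ ν)) / 2)) := by
    rw [← lintegral_const_mul _ (by
      apply hi.mul
      apply Measurable.mul _ hgs
      fun_prop)]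
    apply lintegral_congr
    intro ν
    rw [lintegral_const_mul _ (by fun_prop)]
    have hν := dot_self_nonneg ν
    have ha : 0 < √(1 + ν ⬝ᵥ ν) := Real.sqrt_pos.mpr (by linarith)
    have := mix ha (d+1)
    have h2 : ∀ ρ : ℝ, (√(1 + ν ⬝ᵥ ν) * ρ) ^ 2 = ρ ^ 2 * (1 + ν ⬝ᵥ ν) := by
      intro ρ
      rw [mul_pow, Real.sq_sqrt (by linarith)]; ring
    simp_rw [h2] at this
    rw [this]
    ring
  rw [h1, lintegral_lintegral_swap]
  swap
  · apply Measurable.aemeasurable
    apply Measurable.mul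
    · exact (hi.comp measurable_fst).mul (hgs.comp measurable_fst)
    · have : Measurable fun p : (Fin (d+1) → ℝ) × ℝ => p.1 ⬝ᵥ p.1 := hdot.comp measurable_fst
      apply ENNReal.measurable_ofReal.comp
      apply Measurable.mul (by fun_prop)
      apply Real.measurable_exp.comp
      apply Measurable.div_const
      apply Measurable.neg
      apply Measurable.mul (by fun_prop)
      exact this.const_add 1
  have hH : (volume : Measure (Fin (d+1) → ℝ)).IsAddHaarMeasure := inferInstance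
  have h3 : ∀ ρ ∈ Set.Ioi (0 : ℝ), ∫⁻ ν : Fin (d+1) → ℝ, iSg s ν * gq d c (∑ i, ν i) *
          ENNReal.ofReal (ρ ^ (d+1) * Real.exp (-(ρ ^ 2 * (1 + ν ⬝ᵥ ν)) / 2))
      = ∫⁻ l : Fin (d+1) → ℝ, ENNReal.ofReal (Real.exp (-ρ ^ 2 / 2)) *
          (iSg s (ρ⁻¹ • l) * gq d c ((∑ i, l i) / ρ) *
            ENNReal.ofReal (Real.exp (-(l ⬝ᵥ l) / 2))) := by
    intro ρ hρ
    have hρ0 : (0 : ℝ) < ρ := hρ
    set F : (Fin (d+1) → ℝ) → ℝ≥0∞ := fun l => ENNReal.ofReal (Real.exp (-ρ ^ 2 / 2)) *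
          (iSg s (ρ⁻¹ • l) * gq d c ((∑ i, l i) / ρ) *
            ENNReal.ofReal (Real.exp (-(l ⬝ᵥ l) / 2))) with hF
    have hFm : Measurable F := by
      apply Measurable.const_mul
      apply Measurable.mul
      · apply Measurable.mul
        · exact hi.comp (by fun_prop)
        · exact hg.comp (by fun_prop)
      · apply ENNReal.measurable_ofReal.comp
        apply Real.measurable_exp.comp
        exact hdot.neg.div_const 2
    have hsm := Measure.map_addHaar_smul (volume : Measure (Fin (d+1) → ℝ)) hρ0.ne'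
    have h4 : ∫⁻ ν, F (ρ • ν) = ENNReal.ofReal ((ρ ^ (d+1))⁻¹) * ∫⁻ l, F l := by
      rw [← lintegral_map hFm (measurable_const_smul ρ), hsm, lintegral_smul_measure, smul_eq_mul]
      congr 2
      rw [Module.finrank_fin_fun, abs_of_pos (by positivity)]
    have hFm2 : Measurable fun ν : Fin (d+1) → ℝ => F (ρ • ν) :=
      hFm.comp (measurable_const_smul ρ)
    have h5 : ∫⁻ l, F l = ∫⁻ ν, ENNReal.ofReal (ρ ^ (d+1)) * F (ρ • ν) := by
      rw [lintegral_const_mul _ hFm2, h4, ← mul_assoc,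
        ← ENNReal.ofReal_mul (by positivity), mul_inv_cancel₀ (by positivity), ENNReal.ofReal_one,
        one_mul]
    rw [h5]
    apply lintegral_congr
    intro ν
    simp only [hF]
    rw [smul_smul, inv_mul_cancel₀ hρ0.ne', one_smul]
    have e1 : (∑ i, (ρ • ν) i) / ρ = ∑ i, ν i := by
      simp only [Pi.smul_apply, smul_eq_mul]
      rw [← Finset.mul_sum]; field_simp
    have e2 : (ρ • ν) ⬝ᵥ (ρ • ν) = ρ ^ 2 * (ν ⬝ᵥ ν) := by
      rw [smul_dotProduct, dotProduct_smul, smul_eq_mul, smul_eq_mul]; ring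
    rw [e1, e2]
    have e3 : ENNReal.ofReal (ρ ^ (d+1) * Real.exp (-(ρ ^ 2 * (1 + ν ⬝ᵥ ν)) / 2))
        = ENNReal.ofReal (ρ ^ (d+1)) * (ENNReal.ofReal (Real.exp (-ρ ^ 2 / 2)) *
          ENNReal.ofReal (Real.exp (-(ρ ^ 2 * (ν ⬝ᵥ ν)) / 2))) := by
      rw [← ENNReal.ofReal_mul (by positivity), ← ENNReal.ofReal_mul (by positivity),
        ← Real.exp_add]
      congr 3
      ring
    rw [e3]; ring
  rw [setLIntegral_congr_fun measurableSet_Ioi h3, lintegral_lintegral_swap]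
  swap
  · apply Measurable.aemeasurable
    apply Measurable.mul
    · fun_prop
    · apply Measurable.mul
      · apply Measurable.mul
        · apply hi.comp
          exact (measurable_fst.inv).smul measurable_snd
        · apply hg.comp
          exact (hsum.comp measurable_snd).div measurable_fst
      · apply ENNReal.measurable_ofReal.comp
        apply Real.measurable_exp.comp
        exact (hdot.comp measurable_snd).neg.div_const 2
  unfold HH
  apply lintegral_congr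
  intro l
  rw [prod_hp s hs l]
  unfold Th
  rw [← lintegral_indicator measurableSet_Ioi, ← lintegral_indicator measurableSet_Ioi]
  rw [← lintegral_const_mul _ (by
    apply Measurable.indicator _ measurableSet_Ioi
    exact (by fun_prop : Measurable fun ρ : ℝ => ENNReal.ofReal (Real.exp (-ρ ^ 2 / 2))).mul
      (hg.comp (by fun_prop)))]
  apply lintegral_congr
  intro ρ
  by_cases hρ : 0 < ρ
  · rw [Set.indicator_of_mem (Set.mem_Ioi.mpr hρ)]
    have hmem : ρ⁻¹ • l ∈ Sg s ↔ (∀ i, 0 < s i * l i) ∧ |∑ i, l i| < ρ := by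
      unfold Sg
      simp only [Set.mem_ofPred_eq, Pi.smul_apply, smul_eq_mul]
      have hinv : 0 < ρ⁻¹ := inv_pos.mpr hρ
      apply and_congr
      · apply forall_congr'
        intro i
        rw [mul_left_comm]
        exact mul_pos_iff_of_pos_left hinv
      · rw [← Finset.mul_sum, abs_mul, abs_of_pos hinv, inv_mul_lt_iff₀ hρ, mul_one]
    unfold iSg
    by_cases h1 : ∀ i, 0 < s i * l i
    · by_cases h2 : |∑ i, l i| < ρ
      · rw [Set.indicator_of_mem (hmem.mpr ⟨h1, h2⟩), if_pos h1,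
          Set.indicator_of_mem (Set.mem_Ioi.mpr h2)]
        ring
      · rw [Set.indicator_of_notMem (fun h => h2 (hmem.mp h).2),
          Set.indicator_of_notMem (fun h => h2 (Set.mem_Ioi.mp h))]
        ring
    · rw [Set.indicator_of_notMem (fun h => h1 (hmem.mp h).1), if_neg h1]
      ring
  · rw [Set.indicator_of_notMem (by simpa using hρ), Set.indicator_of_notMem]
    · ring
    · simp only [Set.mem_Ioi, not_lt]
      exact (not_lt.mp hρ).trans (abs_nonneg _)

end Pool.Agent.H58Radon
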