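import Mathlib
import Pool.Agent.H58Radon.Det

set_option autoImplicit false

namespace Pool.Agent.H58Radon

open Finset

variable {N n d : ℕ}

/-- membership in the convex hull of finitely many indexed points -/
lemma mem_hull_iff (A : Finset (Fin N)) (x : Fin N → Fin d → ℝ) (z : Fin d → ℝ) :
    z ∈ convexHull ℝ (x '' (A : Set (Fin N))) ↔ ∃ α : Fin N → ℝ, (∀ k, 0 ≤ α k) ∧
      (∀ k, k ∉ A → α k = 0) ∧ ∑ k, α k = 1 ∧ ∑ k, α k • x k = z := by
  classical
  constructor
  · intro hz
    let S : Set (Fin d → ℝ) := {z | ∃ α : Fin N → ℝ, (∀ k, 0 ≤ α k) ∧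
      (∀ k, k ∉ A → α k = 0) ∧ ∑ k, α k = 1 ∧ ∑ k, α k • x k = z}
    have hS : Convex ℝ S := by
      rintro z1 ⟨α, a1, a2, a3, a4⟩ z2 ⟨β, b1, b2, b3, b4⟩ s t hs ht hst
      refine ⟨fun k => s * α k + t * β k, fun k => ?_, fun k hk => ?_, ?_, ?_⟩
      · exact add_nonneg (mul_nonneg hs (a1 k)) (mul_nonneg ht (b1 k))
      · simp [a2 k hk, b2 k hk]
      · rw [Finset.sum_add_distrib, ← Finset.mul_sum, ← Finset.mul_sum, a3, b3]
        linarith
      · simp only [add_smul, mul_smul]
        rw [Finset.sum_add_distrib, ← Finset.smul_sum, ← Finset.smul_sum, a4, b4]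
    have hsub : x '' (A : Set (Fin N)) ⊆ S := by
      rintro _ ⟨k, hk, rfl⟩
      refine ⟨Pi.single k 1, fun j => ?_, fun j hj => ?_, by simp, ?_⟩
      · by_cases h : j = k
        · subst h; simp
        · simp [h]
      · have : j ≠ k := by rintro rfl; exact hj hk
        simp [this]
      · rw [Finset.sum_eq_single k]
        · simp
        · intro j _ hj; simp [hj]
        · intro h; exact absurd (Finset.mem_univ _) h
    exact convexHull_min hsub hS hz
  · rintro ⟨α, a1, a2, a3, rfl⟩
    have h1 : ∑ k, α k • x k = ∑ k ∈ A, α k • x k := by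
      symm
      apply Finset.sum_subset (Finset.subset_univ _)
      intro k _ hk; simp [a2 k hk]
    have h2 : ∑ k ∈ A, α k = 1 := by
      rw [← a3]
      apply Finset.sum_subset (Finset.subset_univ _)
      intro k _ hk; simp [a2 k hk]
    rw [h1]
    apply (convex_convexHull ℝ _).sum_mem (fun k _ => a1 k) h2
    intro k hk
    exact subset_convexHull ℝ _ ⟨k, hk, rfl⟩

/-- the sign vector of a part -/
noncomputable def sgnv (A : Finset (Fin N)) (k : Fin N) : ℝ := if k ∈ A then 1 else -1

lemma sgnv_ne (A : Finset (Fin N)) (k : Fin N) : sgnv A k ≠ 0 := by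
  unfold sgnv; split_ifs <;> norm_num

lemma sgnv_sq (A : Finset (Fin N)) (k : Fin N) : sgnv A k * sgnv A k = 1 := by
  unfold sgnv; split_ifs <;> norm_num

/-- the Radon property -/
def RadonP (A : Finset (Fin N)) (x : Fin N → Fin d → ℝ) : Prop :=
  (convexHull ℝ (x '' (A : Set (Fin N))) ∩ convexHull ℝ (x '' ((Aᶜ : Finset (Fin N)) : Set (Fin N)))).Nonempty

lemma radonP_iff (A : Finset (Fin N)) (x : Fin N → Fin d → ℝ) :
    RadonP A x ↔ ∃ l : Fin N → ℝ, (∀ k, 0 ≤ l k) ∧ 0 < ∑ k, l k ∧
      ∑ k, l k * sgnv A k = 0 ∧ ∑ k, (l k * sgnv A k) • x k = 0 := by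
  classical
  constructor
  · rintro ⟨z, hz1, hz2⟩
    obtain ⟨α, a1, a2, a3, a4⟩ := (mem_hull_iff _ _ _).mp hz1
    obtain ⟨β, b1, b2, b3, b4⟩ := (mem_hull_iff _ _ _).mp hz2
    have hpt : ∀ k, (α k + β k) * sgnv A k = α k - β k := by
      intro k
      by_cases hk : k ∈ A
      · have : β k = 0 := b2 k (by simp [hk])
        simp [sgnv, hk, this]
      · have : α k = 0 := a2 k hk
        simp [sgnv, hk, this]
    refine ⟨fun k => α k + β k, fun k => add_nonneg (a1 k) (b1 k), ?_, ?_, ?_⟩
    · rw [Finset.sum_add_distrib, a3, b3]; norm_num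
    · simp only [hpt]
      rw [Finset.sum_sub_distrib, a3, b3]; norm_num
    · simp only [hpt, sub_smul]
      rw [Finset.sum_sub_distrib, a4, b4]; simp
  · rintro ⟨l, h1, h2, h3, h4⟩
    set L := ∑ k ∈ A, l k with hL
    have hLc : ∑ k ∈ Aᶜ, l k = L := by
      have e1 : ∑ k, l k * sgnv A k = ∑ k ∈ A, l k - ∑ k ∈ Aᶜ, l k := by
        rw [← Finset.sum_add_sum_compl A, sub_eq_add_neg, ← Finset.sum_neg_distrib]
        congr 1
        · apply Finset.sum_congr rfl; intro k hk; simp [sgnv, hk]
        · apply Finset.sum_congr rfl; intro k hk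
          rw [Finset.mem_compl] at hk; simp [sgnv, hk]
      rw [h3] at e1
      linarith
    have hLpos : 0 < L := by
      have : ∑ k, l k = L + L := by
        rw [← Finset.sum_add_sum_compl A, hLc]
      linarith
    have hxs : ∑ k ∈ A, l k • x k = ∑ k ∈ Aᶜ, l k • x k := by
      have e1 : ∑ k, (l k * sgnv A k) • x k = ∑ k ∈ A, l k • x k - ∑ k ∈ Aᶜ, l k • x k := by
        rw [← Finset.sum_add_sum_compl A, sub_eq_add_neg, ← Finset.sum_neg_distrib]
        congr 1
        · apply Finset.sum_congr rfl; intro k hk; simp [sgnv, hk]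
        · apply Finset.sum_congr rfl; intro k hk
          rw [Finset.mem_compl] at hk; simp [sgnv, hk]
      rw [h4] at e1
      exact (sub_eq_zero.mp e1.symm)
    have key : ∀ B : Finset (Fin N), ∑ k ∈ B, l k = L →
        L⁻¹ • ∑ k ∈ B, l k • x k ∈ convexHull ℝ (x '' (B : Set (Fin N))) := by
      intro B hB
      rw [mem_hull_iff]
      refine ⟨fun k => if k ∈ B then L⁻¹ * l k else 0, ?_, ?_, ?_, ?_⟩
      · intro k
        dsimp only
        split_ifs
        · exact mul_nonneg (inv_nonneg.mpr hLpos.le) (h1 k)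
        · exact le_rfl
      · intro k hk; simp [hk]
      · rw [Finset.sum_ite_mem, Finset.univ_inter, ← Finset.mul_sum, hB,
          inv_mul_cancel₀ hLpos.ne']
      · rw [Finset.smul_sum]
        simp only [ite_smul, zero_smul]
        rw [Finset.sum_ite_mem, Finset.univ_inter]
        apply Finset.sum_congr rfl
        intro k _; rw [mul_smul]
    refine ⟨_, key A rfl, ?_⟩
    rw [hxs]
    exact key Aᶜ hLc

/-- In general position a nontrivial positive relation makes everything feasible. -/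
lemma feas_of_relation {v : Fin n → ℝ} (hv : ∀ k, v k ≠ 0) {x : Fin n → Fin d → ℝ}
    {g : Fin d → ℝ} (hG : Gen x g) (hn : d + 1 ≤ n) {l : Fin n → ℝ} (h1 : ∀ k, 0 ≤ l k)
    (h2 : ∃ k, l k ≠ 0) (h3 : ∑ k, l k * v k = 0) (h4 : ∑ k, (l k * v k) • x k = 0)
    (τ : ℝ) (z : Fin d → ℝ) : Feas v x τ z := by
  classical
  set S := univ.filter fun k => l k ≠ 0 with hS
  have hScard : d + 1 < S.card := by
    by_contra hcon
    push Not at hcon
    obtain ⟨T, hsub, hT⟩ := Finset.exists_superset_card_eq hcon (by simpa using hn)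
    have h0 := hG.g2 T hT (fun k => l k * v k) (by
      intro k hk
      have : l k = 0 := by
        by_contra h
        exact hk (hsub (by simp [hS, h]))
      simp [this]) h3 h4
    obtain ⟨k, hk⟩ := h2
    have := congrFun h0 k
    simp [hk, hv k] at this
  obtain ⟨T, hTS, hT⟩ := Finset.exists_subset_card_eq hScard.le
  set f := (Lequiv hv hG hT).symm (τ, z) with hf
  have h5 : Lequiv hv hG hT f = (τ, z) := LinearEquiv.apply_symm_apply _ _
  rw [Lequiv_apply, ← ext0_Lmap, Prod.ext_iff] at h5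
  have h6 : ∑ k, ext0 T f k * v k = τ := h5.1
  have h7 : ∑ k, (ext0 T f k * v k) • x k = z := h5.2
  -- large multiple
  obtain ⟨t, ht0, ht⟩ : ∃ t : ℝ, 0 ≤ t ∧ ∀ k ∈ T, 0 ≤ ext0 T f k + t * l k := by
    have hpos : ∀ k ∈ T, 0 < l k := by
      intro k hk
      have := hTS hk
      simp only [hS, Finset.mem_filter, Finset.mem_univ, true_and] at this
      exact lt_of_le_of_ne (h1 k) (Ne.symm this)
    refine ⟨∑ k ∈ T, |ext0 T f k| / l k, ?_, ?_⟩
    · apply Finset.sum_nonneg
      intro k hk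
      exact div_nonneg (abs_nonneg _) (hpos k hk).le
    · intro k hk
      have h8 : |ext0 T f k| / l k ≤ ∑ k ∈ T, |ext0 T f k| / l k :=
        Finset.single_le_sum (f := fun k => |ext0 T f k| / l k)
          (fun j hj => div_nonneg (abs_nonneg _) (hpos j hj).le) hk
      have h9 : |ext0 T f k| ≤ (∑ k ∈ T, |ext0 T f k| / l k) * l k := by
        rwa [div_le_iff₀ (hpos k hk)] at h8
      have := neg_abs_le (ext0 T f k)
      linarith
  refine ⟨fun k => ext0 T f k + t * l k, ?_, ?_, ?_⟩
  · intro k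
    by_cases hk : k ∈ T
    · exact ht k hk
    · have : ext0 T f k = 0 := by simp [ext0, hk]
      simp only [this, zero_add]
      exact mul_nonneg ht0 (h1 k)
  · have : ∑ k, (ext0 T f k + t * l k) * v k
        = ∑ k, ext0 T f k * v k + t * ∑ k, l k * v k := by
      rw [Finset.mul_sum, ← Finset.sum_add_distrib]
      apply Finset.sum_congr rfl; intro k _; ring
    rw [this, h6, h3]; ring
  · have : ∑ k, ((ext0 T f k + t * l k) * v k) • x k
        = ∑ k, (ext0 T f k * v k) • x k + t • ∑ k, (l k * v k) • x k := by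
      rw [Finset.smul_sum, ← Finset.sum_add_distrib]
      apply Finset.sum_congr rfl; intro k _
      rw [smul_smul, ← add_smul]; congr 1; ring
    rw [this, h7, h4]; simp

/-- Radon property and feasibility. -/
lemma radon_iff_feas (A : Finset (Fin (n + 1))) (x : Fin n → Fin d → ℝ) (z : Fin d → ℝ)
    {g : Fin d → ℝ} (hG : Gen x g) (hn : d + 1 ≤ n) :
    RadonP A (Fin.cons z x : Fin (n + 1) → Fin d → ℝ) ↔
      Feas (fun k => sgnv A k.succ) x (-sgnv A 0) ((-sgnv A 0) • z) := by
  rw [radonP_iff]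
  constructor
  · rintro ⟨l, h1, h2, h3, h4⟩
    rw [Fin.sum_univ_succ] at h2 h3 h4
    simp only [Fin.cons_zero, Fin.cons_succ] at h4
    by_cases h0 : l 0 = 0
    · rw [h0] at h2 h3 h4
      simp only [zero_add, zero_mul, zero_smul] at h2 h3 h4
      apply feas_of_relation (fun k => sgnv_ne A _) hG hn (l := fun k => l k.succ)
        (fun k => h1 _) _ h3 h4
      by_contra hcon
      push Not at hcon
      rw [Finset.sum_eq_zero (fun k _ => hcon k)] at h2
      exact lt_irrefl _ h2
    · have hpos : 0 < l 0 := lt_of_le_of_ne (h1 0) (Ne.symm h0)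
      refine ⟨fun k => (l 0)⁻¹ * l k.succ, ?_, ?_, ?_⟩
      · intro k
        exact mul_nonneg (inv_nonneg.mpr hpos.le) (h1 _)
      · have e1 : ∑ k : Fin n, (l 0)⁻¹ * l k.succ * sgnv A k.succ
            = (l 0)⁻¹ * ∑ k : Fin n, l k.succ * sgnv A k.succ := by
          rw [Finset.mul_sum]; apply Finset.sum_congr rfl; intro k _; ring
        rw [e1, show ∑ k : Fin n, l k.succ * sgnv A k.succ = - (l 0 * sgnv A 0) by linarith]
        field_simp
      · have e1 : ∑ k : Fin n, ((l 0)⁻¹ * l k.succ * sgnv A k.succ) • x k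
            = (l 0)⁻¹ • ∑ k : Fin n, (l k.succ * sgnv A k.succ) • x k := by
          rw [Finset.smul_sum]; apply Finset.sum_congr rfl; intro k _
          rw [smul_smul]; congr 1; ring
        rw [e1, show ∑ k : Fin n, (l k.succ * sgnv A k.succ) • x k = - ((l 0 * sgnv A 0) • z) by
          rw [eq_neg_iff_add_eq_zero, add_comm]; exact h4]
        rw [smul_neg, smul_smul, ← neg_smul]
        congr 1
        field_simp
  · rintro ⟨μ, h1, h2, h3⟩
    refine ⟨Fin.cons 1 μ, ?_, ?_, ?_, ?_⟩
    · intro k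
      refine Fin.cases ?_ ?_ k
      · simp
      · intro j; simpa using h1 j
    · rw [Fin.sum_univ_succ]
      simp only [Fin.cons_zero, Fin.cons_succ]
      have : 0 ≤ ∑ k, μ k := Finset.sum_nonneg fun k _ => h1 k
      linarith
    · rw [Fin.sum_univ_succ]
      simp only [Fin.cons_zero, Fin.cons_succ]
      rw [h2]; ring
    · rw [Fin.sum_univ_succ]
      simp only [Fin.cons_zero, Fin.cons_succ]
      rw [h3, ← add_smul]
      simp

end Pool.Agent.H58Radon
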