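import Mathlib
import Pool.Agent.H58Radon.Law4
import Pool.Agent.H58Radon.Link

set_option autoImplicit false

namespace Pool.Agent.H58Radon

open MeasureTheory ProbabilityTheory Finset
open scoped ENNReal NNReal

/-- the splitting map is measure preserving -/
lemma mp_split {n m : ℕ} {E : Type} [MeasurableSpace E] (μ0 : Measure E) [SigmaFinite μ0]
    {κ : Type} [Fintype κ] (f : Fin m ⊕ κ ≃ Fin n) :
    MeasurePreserving (fun x : Fin n → E =>
      ((fun i => x (f (Sum.inl i)), fun k => x (f (Sum.inr k))) : (Fin m → E) × (κ → E)))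
      (Measure.pi fun _ : Fin n => μ0)
      ((Measure.pi fun _ : Fin m => μ0).prod (Measure.pi fun _ : κ => μ0)) := by
  have h1 := (measurePreserving_piCongrLeft (α := fun _ : Fin n => E) (fun _ => μ0) f).symm
  have h2 := measurePreserving_sumPiEquivProdPi (X := fun _ : Fin m ⊕ κ => E) (fun _ => μ0)
  exact h2.comp h1

/-- half-line probability -/
noncomputable def kf (σ y : ℝ) : ℝ≥0∞ := gaussianReal 0 1 {c | 0 < σ * (1 - √y * c)}

/-- side condition indicator -/
noncomputable def Kd {m : ℕ} (σ : ℝ) (w z : Fin m → ℝ) : ℝ≥0∞ :=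
  {t : ℝ | 0 < σ * (1 - t)}.indicator (fun _ => 1) (w ⬝ᵥ z)

lemma measurableSet_half (σ : ℝ) : MeasurableSet {t : ℝ | 0 < σ * (1 - t)} :=
  measurableSet_lt measurable_const (by fun_prop)

lemma lintegral_Kd {m : ℕ} (σ : ℝ) (w : Fin m → ℝ) :
    ∫⁻ z, Kd σ w z ∂(gam m) = kf σ (w ⬝ᵥ w) := by
  unfold Kd
  rw [lintegral_dot' m w _ (measurable_const.indicator (measurableSet_half σ))]
  unfold kf
  have hm : MeasurableSet {c : ℝ | 0 < σ * (1 - √(w ⬝ᵥ w) * c)} :=
    measurableSet_lt measurable_const (by fun_prop)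
  rw [← lintegral_indicator_one hm]
  rfl

lemma measurable_Kd {m : ℕ} (σ : ℝ) :
    Measurable fun p : (Fin m → ℝ) × (Fin m → ℝ) => Kd σ p.1 p.2 := by
  unfold Kd
  apply (measurable_const.indicator (measurableSet_half σ)).comp
  unfold dotProduct
  fun_prop

lemma measurable_kf (σ : ℝ) : Measurable (kf σ) := by
  have h : Measurable fun p : ℝ × ℝ => {t : ℝ | 0 < σ * (1 - t)}.indicator
      (fun _ => (1 : ℝ≥0∞)) (√p.1 * p.2) :=
    (measurable_const.indicator (measurableSet_half σ)).comp (by fun_prop)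
  have h2 := h.lintegral_prod_right' (ν := gaussianReal 0 1)
  have h3 : kf σ = fun y => ∫⁻ c, {t : ℝ | 0 < σ * (1 - t)}.indicator
      (fun _ => (1 : ℝ≥0∞)) (√y * c) ∂(gaussianReal 0 1) := by
    ext y
    unfold kf
    have hm : MeasurableSet {c : ℝ | 0 < σ * (1 - √y * c)} :=
      measurableSet_lt measurable_const (by fun_prop)
    rw [← lintegral_indicator_one hm]
    rfl
  rw [h3]; exact h2

variable {n m r : ℕ}

/-- generic crossing indicator -/
noncomputable def crossI (ε : ℝ) (v : Fin n → ℝ) (J : Finset (Fin n)) (hJ : J.card = m)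
    (hJc : Jᶜ.card = r) (x : Fin n → Fin m → ℝ) (g : Fin m → ℝ) : ℝ≥0∞ :=
  iSg (fun i => v (J.orderEmbOfFin hJ i))
      (Matrix.vecMul g (Mat x (J.orderEmbOfFin hJ))⁻¹) *
    ∏ j : Fin r, Kd (ε * v (Jᶜ.orderEmbOfFin hJc j)) (wvec (Mat x (J.orderEmbOfFin hJ)))
      (x (Jᶜ.orderEmbOfFin hJc j))

lemma measurable_wvec' : Measurable fun X : Fin m → Fin m → ℝ => wvec (Matrix.of X) := by
  apply measurable_wvec
  intro i j
  simp only [Matrix.of_apply]
  fun_prop

lemma measurable_vecMul_inv : Measurable fun p : (Fin m → Fin m → ℝ) × (Fin m → ℝ) =>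
    Matrix.vecMul p.2 (Matrix.of p.1)⁻¹ := by
  unfold Matrix.vecMul dotProduct
  rw [measurable_pi_iff]
  intro j
  apply Finset.measurable_sum
  intro i _
  exact ((measurable_pi_apply i).comp measurable_snd).mul
    ((measurable_inv_entry' i j).comp measurable_fst)

lemma measurable_crossI (ε : ℝ) (v : Fin n → ℝ) (J : Finset (Fin n)) (hJ : J.card = m)
    (hJc : Jᶜ.card = r) : Measurable fun p : (Fin n → Fin m → ℝ) × (Fin m → ℝ) =>
      crossI ε v J hJ hJc p.1 p.2 := by
  unfold crossI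
  apply Measurable.mul
  · have : Measurable fun p : (Fin n → Fin m → ℝ) × (Fin m → ℝ) =>
        (((fun i => p.1 (J.orderEmbOfFin hJ i)), p.2) :
          (Fin m → Fin m → ℝ) × (Fin m → ℝ)) := by fun_prop
    have h3 := ((measurable_iSg (fun i => v (J.orderEmbOfFin hJ i))).comp
      measurable_vecMul_inv).comp this
    exact h3
  · apply Finset.measurable_prod
    intro j _
    have h1 : Measurable fun p : (Fin n → Fin m → ℝ) × (Fin m → ℝ) =>
        (fun i => p.1 (J.orderEmbOfFin hJ i)) := by fun_prop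
    have h2 : Measurable fun p : (Fin n → Fin m → ℝ) × (Fin m → ℝ) =>
        p.1 (Jᶜ.orderEmbOfFin hJc j) := by fun_prop
    have h3 := (measurable_wvec'.comp h1).prodMk h2
    have h4 := (measurable_Kd (ε * v (Jᶜ.orderEmbOfFin hJc j))).comp h3
    exact h4

set_option maxHeartbeats 400000 in
theorem lintegral_cross (ε : ℝ) (v : Fin n → ℝ) (J : Finset (Fin n)) (hJ : J.card = m)
    (hJc : Jᶜ.card = r) :
    ∫⁻ p, crossI ε v J hJ hJc p.1 p.2 ∂((Gam n m).prod (gam m))
      = ∫⁻ X, ∫⁻ G, iSg (fun i => v (J.orderEmbOfFin hJ i)) (Matrix.vecMul G (Matrix.of X)⁻¹) *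
          (∏ j : Fin r, kf (ε * v (Jᶜ.orderEmbOfFin hJc j))
            (wvec (Matrix.of X) ⬝ᵥ wvec (Matrix.of X))) ∂(gam m) ∂(Gam m m) := by
  set s : Fin m → ℝ := fun i => v (J.orderEmbOfFin hJ i) with hs
  set σ : Fin r → ℝ := fun j => ε * v (Jᶜ.orderEmbOfFin hJc j) with hσ
  have hiS := measurable_iSg s
  have hin : Measurable fun p : (Fin m → Fin m → ℝ) × (Fin m → ℝ) =>
      iSg s (Matrix.vecMul p.2 (Matrix.of p.1)⁻¹) := hiS.comp measurable_vecMul_inv
  set F : (Fin m → Fin m → ℝ) → ℝ≥0∞ := fun X =>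
    ∫⁻ G, iSg s (Matrix.vecMul G (Matrix.of X)⁻¹) ∂(gam m) with hF
  have hFm : Measurable F := hin.lintegral_prod_right'
  have hw := measurable_wvec' (m := m)
  set f := finSumEquivOfFinset hJ hJc with hf
  have hmp := mp_split (gam m) f
  have hK : Measurable fun q : (Fin m → Fin m → ℝ) × (Fin r → Fin m → ℝ) =>
      ∏ j : Fin r, Kd (σ j) (wvec (Matrix.of q.1)) (q.2 j) := by
    apply Finset.measurable_prod
    intro j _
    have a1 : Measurable fun q : (Fin m → Fin m → ℝ) × (Fin r → Fin m → ℝ) => q.1 :=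
      measurable_fst
    have a2 : Measurable fun q : (Fin m → Fin m → ℝ) × (Fin r → Fin m → ℝ) =>
        wvec (Matrix.of q.1) := hw.comp a1
    have a3 : Measurable fun q : (Fin m → Fin m → ℝ) × (Fin r → Fin m → ℝ) => q.2 j := by
      fun_prop
    have a4 : Measurable fun q : (Fin m → Fin m → ℝ) × (Fin r → Fin m → ℝ) =>
        ((wvec (Matrix.of q.1), q.2 j) : (Fin m → ℝ) × (Fin m → ℝ)) := a2.prodMk a3
    have a5 := (measurable_Kd (σ j)).comp a4
    exact a5
  have hGm : Measurable fun q : (Fin m → Fin m → ℝ) × (Fin r → Fin m → ℝ) =>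
      F q.1 * ∏ j : Fin r, Kd (σ j) (wvec (Matrix.of q.1)) (q.2 j) := by
    have a1 : Measurable fun q : (Fin m → Fin m → ℝ) × (Fin r → Fin m → ℝ) => q.1 :=
      measurable_fst
    exact (hFm.comp a1).mul hK
  have hcross := measurable_crossI ε v J hJ hJc
  rw [lintegral_prod _ hcross.aemeasurable]
  have h1 : ∀ x : Fin n → Fin m → ℝ, ∫⁻ g, crossI ε v J hJ hJc x g ∂(gam m)
      = (fun q : (Fin m → Fin m → ℝ) × (Fin r → Fin m → ℝ) =>
      F q.1 * ∏ j : Fin r, Kd (σ j) (wvec (Matrix.of q.1)) (q.2 j))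
        ((fun i => x (f (Sum.inl i))), fun k => x (f (Sum.inr k))) := by
    intro x
    unfold crossI
    have hm0 : Measurable fun g : Fin m → ℝ =>
        (((fun i => x (J.orderEmbOfFin hJ i)), g) : (Fin m → Fin m → ℝ) × (Fin m → ℝ)) :=
      measurable_const.prodMk measurable_id
    have hm1 : Measurable fun g : Fin m → ℝ => iSg (fun i => v (J.orderEmbOfFin hJ i))
      (Matrix.vecMul g (Mat x (J.orderEmbOfFin hJ))⁻¹) := by
      have hm2 := hin.comp hm0
      exact hm2
    rw [lintegral_mul_const _ hm1]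
    rfl
  simp_rw [h1]
  unfold Gam
  rw [hmp.lintegral_comp hGm, lintegral_prod _ hGm.aemeasurable]
  apply lintegral_congr
  intro X
  have hm20 : Measurable fun y : Fin r → Fin m → ℝ =>
      ((X, y) : (Fin m → Fin m → ℝ) × (Fin r → Fin m → ℝ)) := measurable_const.prodMk measurable_id
  have hm2 : Measurable fun y : Fin r → Fin m → ℝ =>
      ∏ j : Fin r, Kd (σ j) (wvec (Matrix.of X)) (y j) := by
    have := hK.comp hm20
    exact this
  have hm30 : Measurable fun y : Fin m → ℝ =>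
      ((X, y) : (Fin m → Fin m → ℝ) × (Fin m → ℝ)) := measurable_const.prodMk measurable_id
  have hm3 : Measurable fun G : Fin m → ℝ => iSg s (Matrix.vecMul G (Matrix.of X)⁻¹) := by
    have := hin.comp hm30
    exact this
  have hKd1 : ∀ j, Measurable fun z : Fin m → ℝ => Kd (σ j) (wvec (Matrix.of X)) z := by
    intro j
    have b1 : Measurable fun z : Fin m → ℝ =>
      ((wvec (Matrix.of X), z) : (Fin m → ℝ) × (Fin m → ℝ)) := measurable_const.prodMk measurable_id
    have b2 := (measurable_Kd (σ j)).comp b1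
    exact b2
  simp only
  rw [lintegral_const_mul _ hm2, lintegral_mul_const _ hm3]
  congr 1
  rw [lintegral_fin_prod (fun _ : Fin r => gam m) (fun j z => Kd (σ j) (wvec (Matrix.of X)) z)
    hKd1]
  apply Finset.prod_congr rfl
  intro j _
  rw [lintegral_Kd]

/-- the explicit crossing condition -/
def crossP (ε : ℝ) (v : Fin n → ℝ) (J : Finset (Fin n)) (hJ : J.card = m)
    (x : Fin n → Fin m → ℝ) (g : Fin m → ℝ) : Prop :=
  Matrix.vecMul g (Mat x (J.orderEmbOfFin hJ))⁻¹ ∈ Sg (fun i => v (J.orderEmbOfFin hJ i)) ∧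
    ∀ k, k ∉ J → 0 < (ε * v k) * (1 - wvec (Mat x (J.orderEmbOfFin hJ)) ⬝ᵥ x k)

open Classical in
lemma crossI_eq (ε : ℝ) (v : Fin n → ℝ) (J : Finset (Fin n)) (hJ : J.card = m)
    (hJc : Jᶜ.card = r) (x : Fin n → Fin m → ℝ) (g : Fin m → ℝ) :
    crossI ε v J hJ hJc x g = if crossP ε v J hJ x g then 1 else 0 := by
  have hrange : ∀ k, k ∉ J ↔ ∃ j, Jᶜ.orderEmbOfFin hJc j = k := by
    intro k
    have := Finset.range_orderEmbOfFin Jᶜ hJc
    rw [← mem_compl, ← mem_coe, ← this]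
    rfl
  unfold crossI crossP iSg
  by_cases h1 : Matrix.vecMul g (Mat x (J.orderEmbOfFin hJ))⁻¹ ∈
      Sg (fun i => v (J.orderEmbOfFin hJ i))
  · rw [Set.indicator_of_mem h1, one_mul]
    by_cases h2 : ∀ k, k ∉ J → 0 < (ε * v k) * (1 - wvec (Mat x (J.orderEmbOfFin hJ)) ⬝ᵥ x k)
    · rw [if_pos ⟨h1, h2⟩]
      apply Finset.prod_eq_one
      intro j _
      unfold Kd
      rw [Set.indicator_of_mem]
      exact h2 _ ((hrange _).mpr ⟨j, rfl⟩)
    · rw [if_neg (fun h => h2 h.2)]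
      push Not at h2
      obtain ⟨k, hk, hk2⟩ := h2
      obtain ⟨j, rfl⟩ := (hrange k).mp hk
      apply Finset.prod_eq_zero (Finset.mem_univ j)
      unfold Kd
      rw [Set.indicator_of_notMem]
      simp only [Set.mem_ofPred_eq, not_lt]
      exact hk2
  · rw [Set.indicator_of_notMem h1, zero_mul, if_neg (fun h => h1 h.1)]

lemma cross_iff {v : Fin n → ℝ} (hv : ∀ k, v k * v k = 1) {J : Finset (Fin n)} (hJ : J.card = m)
    {x : Fin n → Fin m → ℝ} {g : Fin m → ℝ}
    (hdet : (Mat x (J.orderEmbOfFin hJ)).det ≠ 0) (P : ℝ → Prop) :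
    ((∃ τ, |τ| < 1 ∧ Rep v x g J τ) ∧ ∃ w : Fin m → ℝ, (∀ k ∈ J, w ⬝ᵥ x k = 1) ∧
      ∀ k, k ∉ J → P (v k * (1 - w ⬝ᵥ x k))) ↔
    Matrix.vecMul g (Mat x (J.orderEmbOfFin hJ))⁻¹ ∈ Sg (fun i => v (J.orderEmbOfFin hJ i)) ∧
    ∀ k, k ∉ J → P (v k * (1 - wvec (Mat x (J.orderEmbOfFin hJ)) ⬝ᵥ x k)) := by
  classical
  set e := J.orderEmbOfFin hJ with he
  have hrange : ∀ k, k ∈ Set.range e ↔ k ∈ J := by
    intro k
    rw [he, Finset.range_orderEmbOfFin]; simp
  have hu : IsUnit (Mat x e).det := isUnit_iff_ne_zero.mpr hdet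
  have hw1 : ∀ w : Fin m → ℝ, (∀ k ∈ J, w ⬝ᵥ x k = 1) → w = wvec (Mat x e) := by
    intro w hw
    apply eq_wvec hdet
    ext i
    have := hw (e i) ((hrange _).mp ⟨i, rfl⟩)
    rw [dotProduct_comm] at this
    simpa [Matrix.mulVec, Mat] using this
  have hw2 : ∀ k ∈ J, wvec (Mat x e) ⬝ᵥ x k = 1 := by
    intro k hk
    obtain ⟨i, rfl⟩ := (hrange k).mpr hk
    have := congrFun (Mat_mulVec_wvec hdet) i
    rw [dotProduct_comm]
    exact this
  have hsumJ : ∀ c : Fin n → ℝ, (∀ k, k ∉ J → c k = 0) → ∑ k, c k = ∑ i, c (e i) := by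
    intro c hc
    have h1 : ∑ k, c k = ∑ k ∈ univ.image e, c k := by
      symm
      apply Finset.sum_subset (Finset.subset_univ _)
      intro k _ hk
      apply hc k
      intro hkJ
      apply hk
      obtain ⟨i, rfl⟩ := (hrange k).mpr hkJ
      exact Finset.mem_image_of_mem _ (Finset.mem_univ i)
    rw [h1, Finset.sum_image (fun a _ b _ h => e.injective h)]
  have hrep : (∃ τ, |τ| < 1 ∧ Rep v x g J τ) ↔
      Matrix.vecMul g (Mat x e)⁻¹ ∈ Sg (fun i => v (e i)) := by
    constructor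
    · rintro ⟨τ, hτ, μ, m1, m2, m3, m4⟩
      have h0 : ∀ k, k ∉ Set.range e → μ k * v k = 0 := by
        intro k hk
        rw [hrange] at hk
        rw [m2 k hk, zero_mul]
      rw [sum_range e.injective h0] at m4
      have h1 : Matrix.vecMul g (Mat x e)⁻¹ = fun i => μ (e i) * v (e i) := by
        rw [← m4, Matrix.vecMul_vecMul, Matrix.mul_nonsing_inv _ hu, Matrix.vecMul_one]
      rw [h1]
      refine ⟨?_, ?_⟩
      · intro i
        have h2 := m1 (e i) ((hrange _).mp ⟨i, rfl⟩)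
        have h3 := hv (e i)
        have : v (e i) * (μ (e i) * v (e i)) = μ (e i) := by
          rw [mul_left_comm, h3, mul_one]
        rw [this]; exact h2
      · rw [← hsumJ (fun k => μ k * v k) (fun k hk => by rw [m2 k hk, zero_mul]), m3]
        exact hτ
    · rintro ⟨h1, h2⟩
      set ν := Matrix.vecMul g (Mat x e)⁻¹ with hν
      let μ : Fin n → ℝ := fun k => if h : k ∈ J then
        v k * ν ((J.orderIsoOfFin hJ).symm ⟨k, h⟩) else 0
      have hμe : ∀ i, μ (e i) = v (e i) * ν i := by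
        intro i
        have hmem : e i ∈ J := (hrange _).mp ⟨i, rfl⟩
        simp only [μ, dif_pos hmem]
        congr 2
        have : (⟨e i, hmem⟩ : {k // k ∈ J}) = J.orderIsoOfFin hJ i := by
          ext; rfl
        rw [this, OrderIso.symm_apply_apply]
      have hμ0 : ∀ k, k ∉ J → μ k = 0 := by
        intro k hk; simp only [μ, dif_neg hk]
      refine ⟨∑ i, ν i, h2, μ, ?_, hμ0, ?_, ?_⟩
      · intro k hk
        obtain ⟨i, rfl⟩ := (hrange k).mpr hk
        rw [hμe]; exact h1 i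
      · rw [hsumJ (fun k => μ k * v k) (fun k hk => by rw [hμ0 k hk, zero_mul])]
        apply Finset.sum_congr rfl
        intro i _
        rw [hμe, mul_right_comm, hv, one_mul]
      · rw [sum_range e.injective (c := fun k => μ k * v k) (fun k hk => by
          rw [hrange] at hk
          rw [hμ0 k hk, zero_mul])]
        have : (fun i => μ (e i) * v (e i)) = ν := by
          ext i
          rw [hμe, mul_right_comm, hv, one_mul]
        rw [this, hν, Matrix.vecMul_vecMul, Matrix.nonsing_inv_mul _ hu, Matrix.vecMul_one]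
  constructor
  · rintro ⟨h1, w, hw, hw3⟩
    rw [← hw1 w hw]
    exact ⟨hrep.mp h1, hw3⟩
  · rintro ⟨h1, h2⟩
    exact ⟨hrep.mpr h1, wvec (Mat x e), hw2, h2⟩

lemma exit_iff {v : Fin n → ℝ} (hv : ∀ k, v k * v k = 1) {J : Finset (Fin n)} (hJ : J.card = m)
    {x : Fin n → Fin m → ℝ} {g : Fin m → ℝ}
    (hdet : (Mat x (J.orderEmbOfFin hJ)).det ≠ 0) :
    ExitJ v x g J ↔ crossP (-1) v J hJ x g := by
  have := cross_iff hv hJ (x := x) (g := g) hdet (fun t => t < 0)
  unfold ExitJ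
  rw [this]
  unfold crossP
  apply and_congr Iff.rfl
  apply forall_congr'
  intro k
  apply imp_congr Iff.rfl
  constructor <;> intro h <;> nlinarith

lemma entry_iff {v : Fin n → ℝ} (hv : ∀ k, v k * v k = 1) {J : Finset (Fin n)} (hJ : J.card = m)
    {x : Fin n → Fin m → ℝ} {g : Fin m → ℝ}
    (hdet : (Mat x (J.orderEmbOfFin hJ)).det ≠ 0) :
    EntryJ v x g J ↔ crossP 1 v J hJ x g := by
  have := cross_iff hv hJ (x := x) (g := g) hdet (fun t => 0 < t)
  unfold EntryJ
  rw [this]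
  unfold crossP
  simp only [one_mul]

end Pool.Agent.H58Radon
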