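import Mathlib
import Pool.Agent.H58Radon.Law4

set_option autoImplicit false

namespace Pool.Agent.H58Radon

open MeasureTheory ProbabilityTheory Finset
open scoped ENNReal NNReal

variable {d : ℕ}

lemma gq_neg (c σ : ℝ) : gq d c (-σ) = gq d c σ := by
  unfold gq; rw [neg_sq]

lemma Th_neg (c D : ℝ) : Th d c (-D) = Th d c D := by
  unfold Th
  rw [abs_neg]
  simp_rw [neg_div, gq_neg]

/-- the substitution function -/
noncomputable def RR (D t : ℝ) : ℝ := (t + √(t ^ 2 + 4 * D ^ 2)) / 2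

lemma RR_sub {D ρ : ℝ} (hD : 0 ≤ D) (hρ : D < ρ) : RR D (ρ - D ^ 2 / ρ) = ρ := by
  have hρ0 : 0 < ρ := lt_of_le_of_lt hD hρ
  unfold RR
  have h1 : (ρ - D ^ 2 / ρ) ^ 2 + 4 * D ^ 2 = (ρ + D ^ 2 / ρ) ^ 2 := by
    field_simp; ring
  rw [h1, Real.sqrt_sq (by positivity)]
  ring

lemma RR_pos {D t : ℝ} (ht : 0 < t) : 0 < RR D t := by
  unfold RR; positivity

lemma RR_mono {D₁ D₂ t : ℝ} (h1 : 0 ≤ D₁) (h : D₁ ≤ D₂) : RR D₁ t ≤ RR D₂ t := by
  unfold RR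
  have : √(t ^ 2 + 4 * D₁ ^ 2) ≤ √(t ^ 2 + 4 * D₂ ^ 2) := by
    apply Real.sqrt_le_sqrt
    nlinarith
  linarith

lemma ratio_mono {D₁ D₂ t : ℝ} (ht : 0 < t) (h1 : 0 ≤ D₁) (h : D₁ ≤ D₂) :
    D₁ / RR D₁ t ≤ D₂ / RR D₂ t := by
  rw [div_le_div_iff₀ (RR_pos ht) (RR_pos ht)]
  unfold RR
  have h2 : 0 ≤ D₂ := h1.trans h
  have e1 : D₁ * √(t ^ 2 + 4 * D₂ ^ 2) ≤ D₂ * √(t ^ 2 + 4 * D₁ ^ 2) := by
    have a1 : D₁ * √(t ^ 2 + 4 * D₂ ^ 2) = √(D₁ ^ 2 * (t ^ 2 + 4 * D₂ ^ 2)) := by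
      rw [Real.sqrt_mul (sq_nonneg _), Real.sqrt_sq h1]
    have a2 : D₂ * √(t ^ 2 + 4 * D₁ ^ 2) = √(D₂ ^ 2 * (t ^ 2 + 4 * D₁ ^ 2)) := by
      rw [Real.sqrt_mul (sq_nonneg _), Real.sqrt_sq h2]
    rw [a1, a2]
    apply Real.sqrt_le_sqrt
    have : D₁ ^ 2 ≤ D₂ ^ 2 := by nlinarith
    nlinarith [sq_nonneg t]
  have e2 : D₁ * t ≤ D₂ * t := by nlinarith
  linarith

/-- the first part -/
noncomputable def ThA (d : ℕ) (c D : ℝ) : ℝ≥0∞ :=
  ∫⁻ ρ in Set.Ioi D, ENNReal.ofReal (Real.exp (-ρ ^ 2 / 2) *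
    Real.exp (-(((d + 1 : ℝ) + (D / ρ) ^ 2) * c ^ 2) / 2))

/-- the second part -/
noncomputable def ThB (d : ℕ) (c D : ℝ) : ℝ≥0∞ :=
  ∫⁻ t in Set.Ioi (0 : ℝ), ENNReal.ofReal (Real.exp (-(RR D t) ^ 2 / 2) *
    Real.exp (-(((d + 1 : ℝ) + (D / RR D t) ^ 2) * c ^ 2) / 2))

lemma ThB_eq {D : ℝ} (hD : 0 ≤ D) (c : ℝ) :
    ThB d c D = ∫⁻ ρ in Set.Ioi D, ENNReal.ofReal ((1 + (D / ρ) ^ 2) *
      (Real.exp (-ρ ^ 2 / 2) * Real.exp (-(((d + 1 : ℝ) + (D / ρ) ^ 2) * c ^ 2) / 2))) := by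
  set f : ℝ → ℝ := fun ρ => ρ - D ^ 2 / ρ with hf
  have himage : f '' Set.Ioi D = Set.Ioi 0 := by
    ext t
    simp only [Set.mem_image, Set.mem_Ioi]
    constructor
    · rintro ⟨ρ, hρ, rfl⟩
      have hρ0 : 0 < ρ := lt_of_le_of_lt hD hρ
      simp only [hf, sub_pos]
      rw [div_lt_iff₀ hρ0]
      nlinarith
    · intro ht
      refine ⟨RR D t, ?_, ?_⟩
      · unfold RR
        have : √((2 * D) ^ 2) ≤ √(t ^ 2 + 4 * D ^ 2) := by
          apply Real.sqrt_le_sqrt; nlinarith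
        rw [Real.sqrt_sq (by positivity)] at this
        linarith
      · simp only [hf]
        have hR := RR_pos (D := D) ht
        have hq : RR D t ^ 2 - t * RR D t - D ^ 2 = 0 := by
          unfold RR
          have := Real.mul_self_sqrt (show 0 ≤ t ^ 2 + 4 * D ^ 2 by positivity)
          nlinarith
        field_simp
        linarith
  have hinj : Set.InjOn f (Set.Ioi D) := by
    intro a ha b hb hab
    have h1 := RR_sub hD (Set.mem_Ioi.mp ha)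
    have h2 := RR_sub hD (Set.mem_Ioi.mp hb)
    simp only [hf] at hab
    rw [← h1, ← h2, hab]
  have hder : ∀ x ∈ Set.Ioi D, HasDerivWithinAt f (1 + (D / x) ^ 2) (Set.Ioi D) x := by
    intro x hx
    have hx0 : x ≠ 0 := (lt_of_le_of_lt hD hx).ne'
    have h1 : HasDerivAt (fun y : ℝ => D ^ 2 / y) (-(D ^ 2) / x ^ 2) x := by
      have := (hasDerivAt_inv hx0).const_mul (D ^ 2)
      refine this.congr_deriv ?_
      field_simp
    have h2 : HasDerivAt f (1 - -(D ^ 2) / x ^ 2) x := (hasDerivAt_id x).sub h1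
    refine (h2.congr_deriv ?_).hasDerivWithinAt
    field_simp
    ring
  have key := lintegral_image_eq_lintegral_abs_deriv_mul measurableSet_Ioi hder hinj
    (fun t => ENNReal.ofReal (Real.exp (-(RR D t) ^ 2 / 2) *
    Real.exp (-(((d + 1 : ℝ) + (D / RR D t) ^ 2) * c ^ 2) / 2)))
  rw [himage] at key
  unfold ThB
  rw [key]
  apply setLIntegral_congr_fun measurableSet_Ioi
  intro ρ hρ
  simp only [hf]
  rw [RR_sub hD hρ, abs_of_pos (by positivity), ← ENNReal.ofReal_mul (by positivity)]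

lemma Th_split {D : ℝ} (hD : 0 ≤ D) (c : ℝ) :
    Th d c D = ENNReal.ofReal d * ThA d c D + ThB d c D := by
  rw [ThB_eq hD]
  unfold Th ThA gq
  rw [abs_of_nonneg hD, ← lintegral_const_mul _ (by fun_prop), ← lintegral_add_left (by fun_prop)]
  apply setLIntegral_congr_fun measurableSet_Ioi
  intro ρ _
  simp only
  rw [← ENNReal.ofReal_mul (by positivity), ← ENNReal.ofReal_mul (by positivity),
    ← ENNReal.ofReal_add (by positivity) (by positivity)]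
  congr 1
  ring

lemma ThA_anti {D₁ D₂ : ℝ} (c : ℝ) (h1 : 0 ≤ D₁) (h : D₁ ≤ D₂) : ThA d c D₂ ≤ ThA d c D₁ := by
  unfold ThA
  calc _ ≤ ∫⁻ ρ in Set.Ioi D₂, ENNReal.ofReal (Real.exp (-ρ ^ 2 / 2) *
      Real.exp (-(((d + 1 : ℝ) + (D₁ / ρ) ^ 2) * c ^ 2) / 2)) := by
        apply setLIntegral_mono' measurableSet_Ioi
        intro ρ hρ
        have hρ0 : 0 < ρ := lt_of_le_of_lt (h1.trans h) hρ
        apply ENNReal.ofReal_le_ofReal
        apply mul_le_mul_of_nonneg_left _ (by positivity)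
        apply Real.exp_le_exp.mpr
        have h2 : D₁ / ρ ≤ D₂ / ρ := by gcongr
        have h3 : (0 : ℝ) ≤ D₁ / ρ := by positivity
        have h4 : (D₁ / ρ) ^ 2 ≤ (D₂ / ρ) ^ 2 := by gcongr
        have h5 : (D₁ / ρ) ^ 2 * c ^ 2 ≤ (D₂ / ρ) ^ 2 * c ^ 2 :=
          mul_le_mul_of_nonneg_right h4 (sq_nonneg c)
        linarith
    _ ≤ _ := lintegral_mono_set (Set.Ioi_subset_Ioi h)

lemma ThB_anti {D₁ D₂ : ℝ} (c : ℝ) (h1 : 0 ≤ D₁) (h : D₁ ≤ D₂) : ThB d c D₂ ≤ ThB d c D₁ := by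
  unfold ThB
  apply setLIntegral_mono' measurableSet_Ioi
  intro t ht
  have ht0 : (0 : ℝ) < t := ht
  apply ENNReal.ofReal_le_ofReal
  rw [← Real.exp_add, ← Real.exp_add]
  apply Real.exp_le_exp.mpr
  have h2 := RR_mono (t := t) h1 h
  have h3 := ratio_mono ht0 h1 h
  have h4 := RR_pos (D := D₁) ht0
  have h5 : 0 ≤ D₁ / RR D₁ t := by positivity
  have h6 : (D₁ / RR D₁ t) ^ 2 ≤ (D₂ / RR D₂ t) ^ 2 := by gcongr
  have h7 : (D₁ / RR D₁ t) ^ 2 * c ^ 2 ≤ (D₂ / RR D₂ t) ^ 2 * c ^ 2 :=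
    mul_le_mul_of_nonneg_right h6 (sq_nonneg c)
  have h8 : (RR D₁ t) ^ 2 ≤ (RR D₂ t) ^ 2 := by gcongr
  linarith

/-- `Θ_c` is non-increasing on `[0, ∞)`. -/
theorem Th_anti {D₁ D₂ : ℝ} (c : ℝ) (h1 : 0 ≤ D₁) (h : D₁ ≤ D₂) : Th d c D₂ ≤ Th d c D₁ := by
  rw [Th_split h1, Th_split (h1.trans h)]
  exact add_le_add (mul_le_mul_right (ThA_anti c h1 h) _) (ThB_anti c h1 h)

lemma Th_anti_abs {z z' : ℝ} (c : ℝ) (h : |z| ≤ |z'|) : Th d c z' ≤ Th d c z := by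
  have h1 : ∀ z : ℝ, Th d c |z| = Th d c z := by
    intro z
    rcases abs_choice z with h | h <;> rw [h]
    exact Th_neg c z
  rw [← h1 z, ← h1 z']
  exact Th_anti c (abs_nonneg _) h

lemma gq_pos (c σ : ℝ) : gq d c σ ≠ 0 := by
  unfold gq
  rw [Ne, ENNReal.ofReal_eq_zero, not_le]
  positivity

lemma measurable_Th2 (d : ℕ) : Measurable fun p : ℝ × ℝ => Th d p.1 p.2 := by
  have hg := measurable_gq d
  have h0 : Measurable fun q : (ℝ × ℝ) × ℝ => ENNReal.ofReal (Real.exp (-q.2 ^ 2 / 2)) := by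
    fun_prop
  have h1 : Measurable fun q : (ℝ × ℝ) × ℝ => gq d q.1.1 (q.1.2 / q.2) :=
    hg.comp ((measurable_fst.comp measurable_fst).prodMk
        ((measurable_snd.comp measurable_fst).div measurable_snd))
  have h : Measurable fun q : (ℝ × ℝ) × ℝ => {q : (ℝ × ℝ) × ℝ | |q.1.2| < q.2}.indicator
      (fun q => ENNReal.ofReal (Real.exp (-q.2 ^ 2 / 2)) * gq d q.1.1 (q.1.2 / q.2)) q := by
    apply Measurable.indicator
    · exact h0.mul h1
    · exact measurableSet_lt (measurable_snd.comp measurable_fst).abs measurable_snd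
  have h2 := h.lintegral_prod_right' (ν := (volume : Measure ℝ))
  have h3 : (fun p : ℝ × ℝ => Th d p.1 p.2) = fun p : ℝ × ℝ =>
      ∫⁻ ρ : ℝ, {q : (ℝ × ℝ) × ℝ | |q.1.2| < q.2}.indicator
      (fun q => ENNReal.ofReal (Real.exp (-q.2 ^ 2 / 2)) * gq d q.1.1 (q.1.2 / q.2)) (p, ρ) := by
    ext p
    unfold Th
    rw [← lintegral_indicator measurableSet_Ioi]
    apply lintegral_congr
    intro ρ
    by_cases h : |p.2| < ρ
    · rw [Set.indicator_of_mem (Set.mem_Ioi.mpr h), Set.indicator_of_mem (by simpa using h)]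
    · rw [Set.indicator_of_notMem (by simpa using h), Set.indicator_of_notMem (by simpa using h)]
  rw [h3]
  exact h2

lemma Th_ne_top (c D : ℝ) : Th d c D ≠ ⊤ := by
  have h1 : Th d c D ≤ ∫⁻ ρ in Set.Ioi |D|, ENNReal.ofReal (Real.exp (-(1/2) * ρ ^ 2)) *
      ENNReal.ofReal (d + 2) := by
    unfold Th
    apply setLIntegral_mono' measurableSet_Ioi
    intro ρ hρ
    have hρ1 : |D| < ρ := hρ
    have hρ0 : 0 < ρ := lt_of_le_of_lt (abs_nonneg D) hρ1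
    apply mul_le_mul
    · apply le_of_eq; congr 2; ring
    · unfold gq
      apply ENNReal.ofReal_le_ofReal
      have h2 : (D / ρ) ^ 2 ≤ 1 := by
        rw [div_pow, div_le_one (by positivity), sq_le_sq, abs_of_pos hρ0]
        exact hρ1.le
      have h3 : Real.exp (-(((d + 1 : ℝ) + (D / ρ) ^ 2) * c ^ 2) / 2) ≤ 1 := by
        rw [Real.exp_le_one_iff]
        have : 0 ≤ ((d + 1 : ℝ) + (D / ρ) ^ 2) * c ^ 2 := by positivity
        linarith
      calc _ ≤ ((d + 1 : ℝ) + (D / ρ) ^ 2) * 1 := by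
            apply mul_le_mul_of_nonneg_left h3 (by positivity)
        _ ≤ _ := by linarith
    · positivity
    · positivity
  have h2 : ∫⁻ ρ in Set.Ioi |D|, ENNReal.ofReal (Real.exp (-(1/2) * ρ ^ 2)) *
      ENNReal.ofReal (d + 2) ≤ ∫⁻ ρ : ℝ, ENNReal.ofReal (Real.exp (-(1/2) * ρ ^ 2)) *
      ENNReal.ofReal (d + 2) := setLIntegral_le_lintegral _ _
  have h3 : ∫⁻ ρ : ℝ, ENNReal.ofReal (Real.exp (-(1/2) * ρ ^ 2)) *
      ENNReal.ofReal (d + 2) ≠ ⊤ := by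
    rw [lintegral_mul_const _ (by fun_prop)]
    apply ENNReal.mul_ne_top _ ENNReal.ofReal_ne_top
    have := (integrable_exp_neg_mul_sq (b := 1/2) (by norm_num)).2
    rw [hasFiniteIntegral_iff_ofReal (Filter.Eventually.of_forall fun x => by positivity)] at this
    exact this.ne
  exact ne_top_of_le_ne_top h3 (h1.trans h2)

lemma Th_pos (c D : ℝ) : Th d c D ≠ 0 := by
  unfold Th
  intro h
  have hg : Measurable (gq d c) := (measurable_gq d).comp (measurable_const.prodMk measurable_id)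
  have hm : Measurable fun ρ : ℝ => ENNReal.ofReal (Real.exp (-ρ ^ 2 / 2)) * gq d c (D / ρ) :=
    (by fun_prop : Measurable fun ρ : ℝ => ENNReal.ofReal (Real.exp (-ρ ^ 2 / 2))).mul
      (hg.comp (by fun_prop))
  rw [lintegral_eq_zero_iff hm] at h
  have h1 : (volume.restrict (Set.Ioi |D|)) Set.univ = 0 := by
    apply measure_mono_null _ (ae_iff.mp h)
    intro ρ _
    simp only [Set.mem_ofPred_eq, Pi.zero_apply, mul_eq_zero, not_or]
    refine ⟨?_, gq_pos _ _⟩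
    rw [ENNReal.ofReal_eq_zero, not_le]
    positivity
  simp at h1

end Pool.Agent.H58Radon
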