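import Mathlib
import Pool.Agent.H58Radon.Theta

set_option autoImplicit false

namespace Pool.Agent.H58Radon

open MeasureTheory ProbabilityTheory Finset
open scoped ENNReal NNReal

/-- one-step operator -/
noncomputable def Pop (σ : ℝ) (Φ : ℝ → ℝ≥0∞) (z : ℝ) : ℝ≥0∞ := ∫⁻ a, hp (σ * a) * Φ (z + a)

lemma measurable_Pop (σ : ℝ) {Φ : ℝ → ℝ≥0∞} (h : Measurable Φ) : Measurable (Pop σ Φ) := by
  have hh := measurable_hp
  exact Measurable.lintegral_prod_right' (f := fun p : ℝ × ℝ => hp (σ * p.2) * Φ (p.1 + p.2))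
    (by fun_prop)

lemma Pop_comm (σ τ : ℝ) {Φ : ℝ → ℝ≥0∞} (h : Measurable Φ) :
    Pop σ (Pop τ Φ) = Pop τ (Pop σ Φ) := by
  have hh := measurable_hp
  ext z
  unfold Pop
  have h1 : ∀ (σ τ a : ℝ), hp (σ * a) * ∫⁻ b, hp (τ * b) * Φ (z + a + b)
      = ∫⁻ b, hp (σ * a) * (hp (τ * b) * Φ (z + a + b)) := by
    intro σ τ a
    rw [lintegral_const_mul _ (by fun_prop)]
  simp_rw [h1]
  rw [lintegral_lintegral_swap (by
    apply Measurable.aemeasurable
    fun_prop)]
  apply lintegral_congr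
  intro b
  apply lintegral_congr
  intro a
  rw [show z + a + b = z + b + a by ring]
  ring

/-- iterates -/
noncomputable def EE (a b : ℕ) (Φ : ℝ → ℝ≥0∞) : ℝ → ℝ≥0∞ := (Pop 1)^[a] ((Pop (-1))^[b] Φ)

lemma measurable_iter (σ : ℝ) (a : ℕ) {Φ : ℝ → ℝ≥0∞} (h : Measurable Φ) :
    Measurable ((Pop σ)^[a] Φ) := by
  induction a with
  | zero => exact h
  | succ a ih => rw [Function.iterate_succ_apply']; exact measurable_Pop σ ih

lemma measurable_EE (a b : ℕ) {Φ : ℝ → ℝ≥0∞} (h : Measurable Φ) : Measurable (EE a b Φ) :=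
  measurable_iter _ _ (measurable_iter _ _ h)

lemma Pop_iter_comm (σ τ : ℝ) (a : ℕ) {Φ : ℝ → ℝ≥0∞} (h : Measurable Φ) :
    Pop σ ((Pop τ)^[a] Φ) = (Pop τ)^[a] (Pop σ Φ) := by
  induction a with
  | zero => rfl
  | succ a ih =>
    rw [Function.iterate_succ_apply', Function.iterate_succ_apply', Pop_comm _ _
      (measurable_iter τ a h), ih]

lemma EE_succ_left (a b : ℕ) (Φ : ℝ → ℝ≥0∞) : Pop 1 (EE a b Φ) = EE (a+1) b Φ := by
  unfold EE; rw [Function.iterate_succ_apply']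

lemma EE_succ_right (a b : ℕ) {Φ : ℝ → ℝ≥0∞} (h : Measurable Φ) :
    Pop (-1) (EE a b Φ) = EE a (b+1) Φ := by
  unfold EE
  rw [Pop_iter_comm _ _ _ (measurable_iter _ _ h), Function.iterate_succ_apply' (Pop (-1))]

lemma EE_succ_succ (a b : ℕ) {Φ : ℝ → ℝ≥0∞} (h : Measurable Φ) :
    EE (a+1) (b+1) Φ = EE a b (Pop 1 (Pop (-1) Φ)) := by
  unfold EE
  rw [Function.iterate_succ_apply, Function.iterate_succ_apply (Pop (-1)),
    Pop_iter_comm _ _ _ (measurable_Pop _ h)]

/-- even and non-increasing in `|z|` -/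
def EU (Φ : ℝ → ℝ≥0∞) : Prop := ∀ z z' : ℝ, |z| ≤ |z'| → Φ z' ≤ Φ z

lemma EU.even {Φ : ℝ → ℝ≥0∞} (h : EU Φ) (z : ℝ) : Φ (-z) = Φ z :=
  le_antisymm (h _ _ (by simp)) (h _ _ (by simp))

lemma hp_mul_anti {u u' a : ℝ} (hu : 0 ≤ u) (huu : u ≤ u') : hp a * hp (a + u') ≤ hp a * hp (a + u) := by
  unfold hp
  by_cases ha : 0 < a
  · rw [Set.indicator_of_mem (Set.mem_Ioi.mpr ha), Set.indicator_of_mem
      (Set.mem_Ioi.mpr (by linarith)), Set.indicator_of_mem (Set.mem_Ioi.mpr (by linarith))]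
    apply mul_le_mul_right
    apply ENNReal.ofReal_le_ofReal
    apply Real.exp_le_exp.mpr
    have : (a + u) ^ 2 ≤ (a + u') ^ 2 := by
      have : 0 ≤ a + u := by linarith
      gcongr
    linarith
  · rw [Set.indicator_of_notMem (by simpa using ha)]
    simp

/-- density of the difference -/
noncomputable def hd (u : ℝ) : ℝ≥0∞ := ∫⁻ a, hp a * hp (a + u)

lemma measurable_hd : Measurable hd := by
  have hh := measurable_hp
  exact Measurable.lintegral_prod_right' (f := fun p : ℝ × ℝ => hp p.2 * hp (p.2 + p.1))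
    (by fun_prop)

lemma hd_neg (u : ℝ) : hd (-u) = hd u := by
  unfold hd
  rw [← lintegral_add_right_eq_self (μ := (volume : Measure ℝ)) (fun a => hp a * hp (a + -u)) u]
  apply lintegral_congr
  intro a
  rw [show a + u + -u = a by ring, mul_comm]

lemma EU_hd : EU hd := by
  have h1 : ∀ u, hd |u| = hd u := by
    intro u
    rcases abs_choice u with h | h <;> rw [h]
    exact hd_neg u
  intro z z' h
  rw [← h1 z, ← h1 z']
  unfold hd
  exact lintegral_mono fun a => hp_mul_anti (abs_nonneg _) h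

lemma PM_eq {Φ : ℝ → ℝ≥0∞} (h : Measurable Φ) (z : ℝ) :
    Pop 1 (Pop (-1) Φ) z = ∫⁻ y, hd (y - z) * Φ y := by
  have hh := measurable_hp
  unfold Pop
  have h1 : ∀ a : ℝ, hp (1 * a) * ∫⁻ b, hp (-1 * b) * Φ (z + a + b)
      = ∫⁻ y, hp a * (hp (a - (y - z)) * Φ y) := by
    intro a
    rw [lintegral_const_mul _ (by fun_prop)]
    rw [one_mul]
    congr 1
    rw [← lintegral_add_right_eq_self (μ := (volume : Measure ℝ))
      (fun y => hp (a - (y - z)) * Φ y) (z + a)]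
    apply lintegral_congr
    intro b
    rw [show a - (b + (z + a) - z) = -1 * b by ring, show b + (z + a) = z + a + b by ring]
  simp_rw [h1]
  rw [lintegral_lintegral_swap (by
    apply Measurable.aemeasurable
    fun_prop)]
  apply lintegral_congr
  intro y
  have h2 : ∀ a, hp a * (hp (a - (y - z)) * Φ y) = (hp a * hp (a + -(y - z))) * Φ y := by
    intro a
    rw [← sub_eq_add_neg]; ring
  simp_rw [h2]
  rw [lintegral_mul_const _ (by fun_prop), ← hd_neg]
  rfl

lemma rearr {a b c e : ℝ≥0∞} (h1 : a ≤ b) (h2 : c ≤ e) : a * e + b * c ≤ a * c + b * e := by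
  obtain ⟨x, rfl⟩ := exists_add_of_le h1
  obtain ⟨y, rfl⟩ := exists_add_of_le h2
  calc a * (c + y) + (a + x) * c = a * c + a * y + a * c + x * c := by ring
    _ ≤ a * c + a * y + a * c + x * c + x * y := le_self_add
    _ = _ := by ring

lemma EU_conv {h Φ : ℝ → ℝ≥0∞} (hh : EU h) (hΦ : EU Φ) (mh : Measurable h) (mΦ : Measurable Φ) :
    EU (fun z => ∫⁻ y, h (y - z) * Φ y) := by
  have heven : ∀ z : ℝ, ∫⁻ y, h (y - -z) * Φ y = ∫⁻ y, h (y - z) * Φ y := by
    intro z
    rw [← lintegral_neg_eq_self (μ := (volume : Measure ℝ)) (fun y => h (y - -z) * Φ y)]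
    apply lintegral_congr
    intro y
    rw [hΦ.even, show -y - -z = -(y - z) by ring, hh.even]
  have hmono : ∀ z z' : ℝ, 0 ≤ z → z ≤ z' →
      ∫⁻ y, h (y - z') * Φ y ≤ ∫⁻ y, h (y - z) * Φ y := by
    intro z z' hz hzz
    have hrefl : ∀ w : ℝ, ∫⁻ y, h (y - w) * Φ y
        = ∫⁻ y, h ((z + z' - y) - w) * Φ (z + z' - y) := by
      intro w
      rw [← lintegral_sub_left_eq_self (μ := (volume : Measure ℝ)) (fun y => h (y - w) * Φ y)
        (z + z')]
    have h2 : ∀ w : ℝ, 2 * ∫⁻ y, h (y - w) * Φ y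
        = ∫⁻ y, (h (y - w) * Φ y + h ((z + z' - y) - w) * Φ (z + z' - y)) := by
      intro w
      rw [lintegral_add_left (by fun_prop), ← hrefl w, two_mul]
    have h3 : 2 * ∫⁻ y, h (y - z') * Φ y ≤ 2 * ∫⁻ y, h (y - z) * Φ y := by
      rw [h2, h2]
      apply lintegral_mono
      intro y
      have e1 : h ((z + z' - y) - z) = h (y - z') := by
        rw [show z + z' - y - z = -(y - z') by ring, hh.even]
      have e2 : h ((z + z' - y) - z') = h (y - z) := by
        rw [show z + z' - y - z' = -(y - z) by ring, hh.even]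
      simp only
      rw [e1, e2]
      rcases le_total (2 * y) (z + z') with hy | hy
      · have a1 : h (y - z') ≤ h (y - z) := by
          apply hh
          rw [← sq_le_sq]
          nlinarith
        have a2 : Φ (z + z' - y) ≤ Φ y := by
          apply hΦ
          rw [← sq_le_sq]
          nlinarith
        have := rearr a1 a2
        calc _ ≤ _ := this
          _ = _ := by ring
      · have a1 : h (y - z) ≤ h (y - z') := by
          apply hh
          rw [← sq_le_sq]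
          nlinarith
        have a2 : Φ y ≤ Φ (z + z' - y) := by
          apply hΦ
          rw [← sq_le_sq]
          nlinarith
        have := rearr a1 a2
        calc _ = _ := by ring
          _ ≤ _ := this
          _ = _ := by ring
    exact (ENNReal.mul_le_mul_iff_right (by norm_num) (by norm_num)).mp h3
  intro z z' hzz
  have habs : ∀ z : ℝ, ∫⁻ y, h (y - |z|) * Φ y = ∫⁻ y, h (y - z) * Φ y := by
    intro z
    rcases abs_choice z with h | h <;> rw [h]
    exact heven z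
  simp only
  rw [← habs z, ← habs z']
  exact hmono _ _ (abs_nonneg _) hzz

lemma EU_PM {Φ : ℝ → ℝ≥0∞} (hΦ : EU Φ) (m : Measurable Φ) : EU (Pop 1 (Pop (-1) Φ)) := by
  have : Pop 1 (Pop (-1) Φ) = fun z => ∫⁻ y, hd (y - z) * Φ y := by
    ext z; exact PM_eq m z
  rw [this]
  exact EU_conv EU_hd hΦ measurable_hd m

/-- one-sided comparison property -/
def RP (Ψ : ℝ → ℝ≥0∞) : Prop := ∀ x' x : ℝ, x' ≤ x → x + x' ≤ 0 → Ψ x' ≤ Ψ x

lemma EU.rp {Φ : ℝ → ℝ≥0∞} (h : EU Φ) : RP Φ := by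
  intro x' x h1 h2
  apply h
  rw [← sq_le_sq]
  nlinarith

lemma hp_nonpos {a : ℝ} (ha : a ≤ 0) : hp a = 0 := by
  unfold hp
  rw [Set.indicator_of_notMem (by simpa using ha)]

lemma RP_Pop {Ψ : ℝ → ℝ≥0∞} (h : RP Ψ) : RP (Pop (-1) Ψ) := by
  intro x' x h1 h2
  unfold Pop
  apply lintegral_mono
  intro a
  by_cases ha : 0 < a
  · simp only
    rw [hp_nonpos (by linarith)]; simp
  · apply mul_le_mul_right
    apply h
    · linarith
    · linarith [not_lt.mp ha]

lemma RP_iter {Ψ : ℝ → ℝ≥0∞} (h : RP Ψ) (k : ℕ) : RP ((Pop (-1))^[k] Ψ) := by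
  induction k with
  | zero => exact h
  | succ k ih => rw [Function.iterate_succ_apply']; exact RP_Pop ih

lemma RP_zero {Ψ : ℝ → ℝ≥0∞} (h : RP Ψ) : Pop (-1) Ψ 0 ≤ Pop 1 Ψ 0 := by
  unfold Pop
  rw [← lintegral_neg_eq_self (μ := (volume : Measure ℝ)) (fun a => hp (-1 * a) * Ψ (0 + a))]
  apply lintegral_mono
  intro a
  by_cases ha : 0 < a
  · simp only
    rw [show -1 * -a = 1 * a by ring]
    apply mul_le_mul_right
    apply h
    · linarith
    · linarith
  · simp only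
    rw [hp_nonpos (by linarith [not_lt.mp ha])]; simp

/-- unimodality -/
theorem EE_unimodal (a : ℕ) : ∀ (k : ℕ) {Φ : ℝ → ℝ≥0∞}, EU Φ → Measurable Φ →
    EE a (a + 1 + k) Φ 0 ≤ EE (a + 1) (a + k) Φ 0 := by
  induction a with
  | zero =>
    intro k Φ h m
    have h1 : EE 0 (0 + 1 + k) Φ = Pop (-1) ((Pop (-1))^[k] Φ) := by
      unfold EE
      rw [show 0 + 1 + k = k + 1 by ring, Function.iterate_succ_apply']; rfl
    have h2 : EE (0 + 1) (0 + k) Φ = Pop 1 ((Pop (-1))^[k] Φ) := by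
      unfold EE
      rw [Nat.zero_add, Nat.zero_add]; rfl
    rw [h1, h2]
    exact RP_zero (RP_iter h.rp k)
  | succ a ih =>
    intro k Φ h m
    have h1 : EE (a + 1) (a + 1 + 1 + k) Φ = EE a (a + 1 + k) (Pop 1 (Pop (-1) Φ)) := by
      rw [show a + 1 + 1 + k = (a + 1 + k) + 1 by ring, EE_succ_succ _ _ m]
    have h2 : EE (a + 1 + 1) (a + 1 + k) Φ = EE (a + 1) (a + k) (Pop 1 (Pop (-1) Φ)) := by
      rw [show a + 1 + k = (a + k) + 1 by ring, EE_succ_succ _ _ m]
    rw [h1, h2]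
    exact ih k (EU_PM h m) (measurable_Pop _ (measurable_Pop _ m))

/-- reflection -/
lemma Pop_refl (σ : ℝ) (Φ : ℝ → ℝ≥0∞) (z : ℝ) :
    Pop σ Φ (-z) = Pop (-σ) (fun y => Φ (-y)) z := by
  unfold Pop
  rw [← lintegral_neg_eq_self (μ := (volume : Measure ℝ)) (fun a => hp (σ * a) * Φ (-z + a))]
  apply lintegral_congr
  intro a
  simp only
  rw [show σ * -a = -σ * a by ring, show -z + -a = -(z + a) by ring]

lemma iter_refl (σ : ℝ) (k : ℕ) (Φ : ℝ → ℝ≥0∞) :
    (fun z => (Pop σ)^[k] Φ (-z)) = (Pop (-σ))^[k] (fun y => Φ (-y)) := by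
  induction k with
  | zero => rfl
  | succ k ih =>
    ext z
    rw [Function.iterate_succ_apply', Pop_refl, ih, Function.iterate_succ_apply']

lemma iter_comm (σ τ : ℝ) (a b : ℕ) {Φ : ℝ → ℝ≥0∞} (h : Measurable Φ) :
    (Pop σ)^[a] ((Pop τ)^[b] Φ) = (Pop τ)^[b] ((Pop σ)^[a] Φ) := by
  induction a with
  | zero => rfl
  | succ a ih =>
    rw [Function.iterate_succ_apply', Function.iterate_succ_apply', ih,
      Pop_iter_comm _ _ _ (measurable_iter _ _ h)]

lemma EE_symm (a b : ℕ) {Φ : ℝ → ℝ≥0∞} (h : Measurable Φ) (he : EU Φ) :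
    EE a b Φ 0 = EE b a Φ 0 := by
  have h1 : (fun z => EE a b Φ (-z)) = EE b a Φ := by
    unfold EE
    rw [iter_refl 1 a ((Pop (-1))^[b] Φ), iter_refl (-1) b Φ]
    have : (fun y => Φ (-y)) = Φ := by ext y; exact he.even y
    rw [this, neg_neg]
    exact iter_comm _ _ _ _ h
  have := congrFun h1 0
  simpa using this

/-- multiple integral form -/
noncomputable def HZ {m : ℕ} (s : Fin m → ℝ) (Φ : ℝ → ℝ≥0∞) (z : ℝ) : ℝ≥0∞ :=
  ∫⁻ l : Fin m → ℝ, (∏ i, hp (s i * l i)) * Φ (z + ∑ i, l i)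

lemma HZ_succ {m : ℕ} (s : Fin (m+1) → ℝ) {Φ : ℝ → ℝ≥0∞} (h : Measurable Φ) (z : ℝ) :
    HZ s Φ z = Pop (s 0) (HZ (fun i => s i.succ) Φ) z := by
  have hh := measurable_hp
  unfold HZ Pop
  rw [volume_pi, lintegral_pi_succ (fun _ => (volume : Measure ℝ)) _ (by fun_prop)]
  apply lintegral_congr
  intro a
  rw [← lintegral_const_mul _ (by fun_prop)]
  apply lintegral_congr
  intro y
  simp only [Fin.prod_univ_succ, Fin.sum_univ_succ, Fin.cons_zero, Fin.cons_succ]
  rw [← add_assoc, mul_assoc]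

theorem HZ_eq {m : ℕ} (s : Fin m → ℝ) (hs : ∀ i, s i = 1 ∨ s i = -1) {Φ : ℝ → ℝ≥0∞}
    (h : Measurable Φ) : HZ s Φ = EE (univ.filter fun i => s i = 1).card
      (univ.filter fun i => s i = -1).card Φ := by
  induction m with
  | zero =>
    ext z
    unfold HZ EE
    simp [volume_pi]
  | succ m ih =>
    have h1 : HZ s Φ = Pop (s 0) (HZ (fun i => s i.succ) Φ) := by
      ext z; exact HZ_succ s h z
    rw [h1, ih (fun i => s i.succ) (fun i => hs i.succ)]
    rcases hs 0 with h0 | h0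
    · rw [h0, EE_succ_left]
      congr 1
      · rw [Fin.card_filter_univ_succ, if_pos h0]
      · rw [Fin.card_filter_univ_succ, if_neg (by rw [h0]; norm_num)]
    · rw [h0, EE_succ_right _ _ h]
      congr 1
      · rw [Fin.card_filter_univ_succ, if_neg (by rw [h0]; norm_num)]
      · rw [Fin.card_filter_univ_succ, if_pos h0]

end Pool.Agent.H58Radon
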