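import Mathlib
import Pool.Agent.H58Radon.Exit
import Pool.Agent.H58Radon.Unimod
import Pool.Agent.H58Radon.Comb

set_option autoImplicit false

namespace Pool.Agent.H58Radon

open MeasureTheory ProbabilityTheory Finset
open scoped ENNReal NNReal

variable {d n r : ℕ}

/-- overall constant -/
noncomputable def CC (d : ℕ) : ℝ≥0∞ :=
  ENNReal.ofReal ((√(2 * Real.pi))⁻¹ ^ (d+1)) * KK d * ENNReal.ofReal ((√(2 * Real.pi))⁻¹)

theorem law_final (s : Fin (d+1) → ℝ) (hs : ∀ i, s i * s i = 1) (ψ : ℝ → ℝ≥0∞)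
    (hψ : Measurable ψ) :
    MM (d+1) * ∫⁻ X, ∫⁻ G, iSg s (Matrix.vecMul G (Matrix.of X)⁻¹) *
        ψ (wvec (Matrix.of X) ⬝ᵥ wvec (Matrix.of X)) ∂(gam (d+1)) ∂(Gam (d+1) (d+1))
      = CC d * ∫⁻ c : ℝ, ψ (1 / c ^ 2) * (ENNReal.ofReal |c| * HH s c) := by
  have hi := measurable_iSg s
  have hg := measurable_gq d
  have hdot : Measurable fun ν : Fin (d+1) → ℝ => ν ⬝ᵥ ν := by
    unfold dotProduct; fun_prop
  have hsq : Measurable fun ν : Fin (d+1) → ℝ =>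
      ENNReal.ofReal (((√(1 + ν ⬝ᵥ ν)) ^ (d+2))⁻¹) := by fun_prop
  rw [law (iSg s) hi ψ hψ]
  have h1 : ∀ ν : Fin (d+1) → ℝ, iSg s ν * (ENNReal.ofReal (((√(1 + ν ⬝ᵥ ν)) ^ (d+2))⁻¹) *
          ∫⁻ c, ENNReal.ofReal |c| * ψ ((d + 1 + (∑ k, ν k) ^ 2) / c ^ 2) ∂(gaussianReal 0 1))
      = ENNReal.ofReal ((√(2 * Real.pi))⁻¹) * ∫⁻ c : ℝ, iSg s ν *
        ENNReal.ofReal (((√(1 + ν ⬝ᵥ ν)) ^ (d+2))⁻¹) *
          (ψ (1 / c ^ 2) * (ENNReal.ofReal |c| * gq d c (∑ k, ν k))) := by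
    intro ν
    have hm : Measurable fun c : ℝ => ψ (1 / c ^ 2) * (ENNReal.ofReal |c| * gq d c (∑ k, ν k)) := by
      unfold gq; fun_prop
    rw [stepA (by positivity : (0:ℝ) < d + 1 + (∑ k, ν k) ^ 2) ψ hψ, lintegral_const_mul _ hm]
    unfold gq
    ring
  simp_rw [h1]
  have hjoint : Measurable fun p : (Fin (d+1) → ℝ) × ℝ => iSg s p.1 *
        ENNReal.ofReal (((√(1 + p.1 ⬝ᵥ p.1)) ^ (d+2))⁻¹) *
          (ψ (1 / p.2 ^ 2) * (ENNReal.ofReal |p.2| * gq d p.2 (∑ k, p.1 k))) := by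
    have a1 : Measurable fun p : (Fin (d+1) → ℝ) × ℝ => iSg s p.1 := hi.comp measurable_fst
    have a2 : Measurable fun p : (Fin (d+1) → ℝ) × ℝ =>
        ENNReal.ofReal (((√(1 + p.1 ⬝ᵥ p.1)) ^ (d+2))⁻¹) := hsq.comp measurable_fst
    have a3 : Measurable fun p : (Fin (d+1) → ℝ) × ℝ => gq d p.2 (∑ k, p.1 k) := by
      unfold gq; fun_prop
    exact (a1.mul a2).mul (Measurable.mul (by fun_prop) (Measurable.mul (by fun_prop) a3))
  rw [lintegral_const_mul _ hjoint.lintegral_prod_right', lintegral_lintegral_swap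
    hjoint.aemeasurable]
  have h2 : ∀ c : ℝ, ∫⁻ ν : Fin (d+1) → ℝ, iSg s ν *
        ENNReal.ofReal (((√(1 + ν ⬝ᵥ ν)) ^ (d+2))⁻¹) *
          (ψ (1 / c ^ 2) * (ENNReal.ofReal |c| * gq d c (∑ k, ν k)))
      = (ψ (1 / c ^ 2) * ENNReal.ofReal |c|) * ∫⁻ ν : Fin (d+1) → ℝ, iSg s ν *
        (ENNReal.ofReal (((√(1 + ν ⬝ᵥ ν)) ^ (d+2))⁻¹) * gq d c (∑ i, ν i)) := by
    intro c
    have hm : Measurable fun ν : Fin (d+1) → ℝ => iSg s ν *
        (ENNReal.ofReal (((√(1 + ν ⬝ᵥ ν)) ^ (d+2))⁻¹) * gq d c (∑ i, ν i)) := by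
      have a3 : Measurable fun ν : Fin (d+1) → ℝ => gq d c (∑ i, ν i) := by
        unfold gq; fun_prop
      exact hi.mul (hsq.mul a3)
    rw [← lintegral_const_mul _ hm]
    apply lintegral_congr
    intro ν
    ring
  simp_rw [h2]
  have h3 : ∀ c : ℝ, ψ (1 / c ^ 2) * (ENNReal.ofReal |c| * HH s c)
      = MM (d+1) * ((ψ (1 / c ^ 2) * ENNReal.ofReal |c|) * ∫⁻ ν : Fin (d+1) → ℝ, iSg s ν *
        (ENNReal.ofReal (((√(1 + ν ⬝ᵥ ν)) ^ (d+2))⁻¹) * gq d c (∑ i, ν i))) := by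
    intro c
    rw [← stepC s hs c]
    ring
  simp_rw [h3]
  have hmeas : Measurable fun c : ℝ => (ψ (1 / c ^ 2) * ENNReal.ofReal |c|) *
      ∫⁻ ν : Fin (d+1) → ℝ, iSg s ν *
        (ENNReal.ofReal (((√(1 + ν ⬝ᵥ ν)) ^ (d+2))⁻¹) * gq d c (∑ i, ν i)) := by
    apply Measurable.mul (by fun_prop)
    have a1 : Measurable fun p : ℝ × (Fin (d+1) → ℝ) => iSg s p.2 := hi.comp measurable_snd
    have a2 : Measurable fun p : ℝ × (Fin (d+1) → ℝ) =>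
        ENNReal.ofReal (((√(1 + p.2 ⬝ᵥ p.2)) ^ (d+2))⁻¹) := hsq.comp measurable_snd
    have a3 : Measurable fun p : ℝ × (Fin (d+1) → ℝ) => gq d p.1 (∑ k, p.2 k) := by
      unfold gq; fun_prop
    exact (a1.mul (a2.mul a3)).lintegral_prod_right'
  rw [lintegral_const_mul _ hmeas]
  unfold CC
  ring

lemma HH_eq (s : Fin (d+1) → ℝ) (hs : ∀ i, s i = 1 ∨ s i = -1) (c : ℝ) :
    HH s c = EE (univ.filter fun i => s i = 1).card (univ.filter fun i => s i = -1).card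
      (Th d c) 0 := by
  have hm : Measurable (Th d c) := by
    have := (measurable_Th2 d).comp (measurable_const.prodMk measurable_id :
      Measurable fun D : ℝ => (c, D))
    exact this
  rw [← HZ_eq s hs hm]
  unfold HH HZ
  simp only [zero_add]

end Pool.Agent.H58Radon
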