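import Mathlib
import Pool.Agent.H58Radon.Cross

set_option autoImplicit false

namespace Pool.Agent.H58Radon

open MeasureTheory ProbabilityTheory Finset
open scoped ENNReal NNReal

variable {d n r : ℕ}

/-! ### finiteness and positivity of the iterates -/

/-- total mass of the half Gaussian weight -/
noncomputable def hpM : ℝ≥0∞ := ∫⁻ a, hp a

lemma hpM_ne_top : hpM ≠ ⊤ := by
  have h1 : hpM ≤ ∫⁻ a : ℝ, ENNReal.ofReal (Real.exp (-(1/2) * a ^ 2)) := by
    unfold hpM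
    apply lintegral_mono
    intro a
    unfold hp
    by_cases h : a ∈ Set.Ioi (0:ℝ)
    · rw [Set.indicator_of_mem h]
      apply le_of_eq
      congr 2
      ring
    · rw [Set.indicator_of_notMem h]; positivity
  have := (integrable_exp_neg_mul_sq (b := 1/2) (by norm_num)).2
  rw [hasFiniteIntegral_iff_ofReal (Filter.Eventually.of_forall fun x => by positivity)] at this
  exact ne_top_of_le_ne_top this.ne h1

lemma lintegral_hp_sign {σ : ℝ} (hσ : σ = 1 ∨ σ = -1) : ∫⁻ a, hp (σ * a) = hpM := by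
  rcases hσ with rfl | rfl
  · simp [hpM]
  · unfold hpM
    rw [← lintegral_neg_eq_self (μ := (volume : Measure ℝ)) (fun a => hp a)]
    apply lintegral_congr
    intro a
    rw [neg_one_mul]

lemma Pop_le {σ : ℝ} (hσ : σ = 1 ∨ σ = -1) {Φ : ℝ → ℝ≥0∞} {C : ℝ≥0∞} (h : ∀ z, Φ z ≤ C) (z : ℝ) :
    Pop σ Φ z ≤ hpM * C := by
  unfold Pop
  have hm : Measurable fun a : ℝ => hp (σ * a) := measurable_hp.comp (by fun_prop)
  rw [← lintegral_hp_sign hσ, ← lintegral_mul_const _ hm]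
  apply lintegral_mono
  intro a
  exact mul_le_mul_right (h _) _

lemma iter_le {σ : ℝ} (hσ : σ = 1 ∨ σ = -1) {Φ : ℝ → ℝ≥0∞} {C : ℝ≥0∞} (h : ∀ z, Φ z ≤ C)
    (a : ℕ) : ∀ z, (Pop σ)^[a] Φ z ≤ hpM ^ a * C := by
  induction a with
  | zero => intro z; simpa using h z
  | succ a ih =>
    intro z
    rw [Function.iterate_succ_apply', pow_succ', mul_assoc]
    exact Pop_le hσ ih z

lemma EE_ne_top (a b : ℕ) {Φ : ℝ → ℝ≥0∞} {C : ℝ≥0∞} (hC : C ≠ ⊤) (h : ∀ z, Φ z ≤ C) (z : ℝ) :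
    EE a b Φ z ≠ ⊤ := by
  unfold EE
  have h1 := iter_le (σ := 1) (Or.inl rfl) (iter_le (σ := -1) (Or.inr rfl) h b) a z
  apply ne_top_of_le_ne_top _ h1
  apply ENNReal.mul_ne_top (ENNReal.pow_ne_top hpM_ne_top)
  exact ENNReal.mul_ne_top (ENNReal.pow_ne_top hpM_ne_top) hC

lemma Pop_pos {σ : ℝ} (hσ : σ = 1 ∨ σ = -1) {Φ : ℝ → ℝ≥0∞} (hm : Measurable Φ)
    (h : ∀ z, Φ z ≠ 0) (z : ℝ) : Pop σ Φ z ≠ 0 := by
  unfold Pop
  intro h0
  have hm1 : Measurable fun a : ℝ => hp (σ * a) * Φ (z + a) := by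
    have := measurable_hp
    fun_prop
  rw [lintegral_eq_zero_iff hm1] at h0
  have h1 : volume {a : ℝ | 0 < σ * a} = 0 := by
    apply measure_mono_null _ (ae_iff.mp h0)
    intro a ha
    have ha' : 0 < σ * a := ha
    simp only [Set.mem_ofPred_eq, Pi.zero_apply, mul_eq_zero, not_or]
    refine ⟨?_, h _⟩
    unfold hp
    rw [Set.indicator_of_mem (Set.mem_Ioi.mpr ha')]
    rw [ENNReal.ofReal_eq_zero, not_le]
    positivity
  rcases hσ with rfl | rfl
  · have : {a : ℝ | 0 < 1 * a} = Set.Ioi 0 := by ext a; simp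
    rw [this] at h1; simp at h1
  · have : {a : ℝ | 0 < -1 * a} = Set.Iio 0 := by ext a; simp
    rw [this] at h1; simp at h1

lemma iter_pos {σ : ℝ} (hσ : σ = 1 ∨ σ = -1) {Φ : ℝ → ℝ≥0∞} (hm : Measurable Φ)
    (h : ∀ z, Φ z ≠ 0) (a : ℕ) : ∀ z, (Pop σ)^[a] Φ z ≠ 0 := by
  induction a with
  | zero => exact h
  | succ a ih =>
    intro z
    rw [Function.iterate_succ_apply']
    exact Pop_pos hσ (measurable_iter σ a hm) ih z

lemma EE_pos (a b : ℕ) {Φ : ℝ → ℝ≥0∞} (hm : Measurable Φ) (h : ∀ z, Φ z ≠ 0) (z : ℝ) :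
    EE a b Φ z ≠ 0 :=
  iter_pos (Or.inl rfl) (measurable_iter _ _ hm) (iter_pos (Or.inr rfl) hm h b) a z

lemma measurable_Th1 (c : ℝ) : Measurable (Th d c) := by
  have := (measurable_Th2 d).comp (measurable_const.prodMk measurable_id :
    Measurable fun D : ℝ => (c, D))
  exact this

lemma EU_Th (c : ℝ) : EU (Th d c) := fun _ _ h => Th_anti_abs c h

/-- the weights -/
noncomputable def Hc (d : ℕ) (c : ℝ) (x : ℕ) : ℝ≥0∞ := EE x (d + 1 - x) (Th d c) 0

lemma Hc_ne_top (c : ℝ) (x : ℕ) : Hc d c x ≠ ⊤ :=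
  EE_ne_top _ _ (Th_ne_top c 0) (fun z => Th_anti_abs c (by simp)) 0

lemma Hc_ne_zero (c : ℝ) (x : ℕ) : Hc d c x ≠ 0 :=
  EE_pos _ _ (measurable_Th1 c) (fun z => Th_pos c z) 0

lemma Hc_symm (c : ℝ) {x : ℕ} (hx : x ≤ d + 1) : Hc d c x = Hc d c (d + 1 - x) := by
  unfold Hc
  rw [Nat.sub_sub_self hx, EE_symm _ _ (measurable_Th1 c) (EU_Th c)]

lemma Hc_mono (c : ℝ) {x : ℕ} (hx : 2 * x + 1 ≤ d + 1) : Hc d c x ≤ Hc d c (x + 1) := by
  unfold Hc
  have := EE_unimodal x (d + 1 - (2 * x + 1)) (EU_Th (d := d) c) (measurable_Th1 c)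
  rw [show x + 1 + (d + 1 - (2 * x + 1)) = d + 1 - x by omega,
    show x + (d + 1 - (2 * x + 1)) = d + 1 - (x + 1) by omega] at this
  exact this

lemma measurable_Pop2 (σ : ℝ) {Φ : ℝ → ℝ → ℝ≥0∞} (h : Measurable fun p : ℝ × ℝ => Φ p.1 p.2) :
    Measurable fun p : ℝ × ℝ => Pop σ (Φ p.1) p.2 := by
  unfold Pop
  have h1 : Measurable fun q : (ℝ × ℝ) × ℝ => Φ q.1.1 (q.1.2 + q.2) := by
    have h2 : Measurable fun q : (ℝ × ℝ) × ℝ => ((q.1.1, q.1.2 + q.2) : ℝ × ℝ) := by fun_prop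
    have h3 := h.comp h2
    exact h3
  have h4 : Measurable fun q : (ℝ × ℝ) × ℝ => hp (σ * q.2) :=
    measurable_hp.comp (by fun_prop)
  exact (h4.mul h1).lintegral_prod_right'

lemma measurable_iter2 (σ : ℝ) {Φ : ℝ → ℝ → ℝ≥0∞} (h : Measurable fun p : ℝ × ℝ => Φ p.1 p.2)
    (a : ℕ) : Measurable fun p : ℝ × ℝ => (Pop σ)^[a] (Φ p.1) p.2 := by
  induction a with
  | zero => exact h
  | succ a ih =>
    simp only [Function.iterate_succ_apply']
    exact measurable_Pop2 σ (Φ := fun c => (Pop σ)^[a] (Φ c)) ih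

lemma measurable_Hc (x : ℕ) : Measurable fun c => Hc d c x := by
  have h1 := measurable_iter2 1 (Φ := fun c => (Pop (-1))^[d + 1 - x] (Th d c))
    (measurable_iter2 (-1) (Φ := fun c => Th d c) (measurable_Th2 d) (d + 1 - x)) x
  have h2 : Measurable fun c : ℝ => ((c, 0) : ℝ × ℝ) := by fun_prop
  have h3 := h1.comp h2
  exact h3

/-! ### the half-line probabilities -/

lemma kf_one {c : ℝ} (hc : c ≠ 0) : kf 1 (1 / c ^ 2) = gaussianReal 0 1 (Set.Iio |c|) := by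
  unfold kf
  congr 1
  ext t
  have hc' : 0 < |c| := abs_pos.mpr hc
  simp only [Set.mem_ofPred_eq, Set.mem_Iio, one_mul]
  have : √(1 / c ^ 2) = 1 / |c| := by
    rw [Real.sqrt_div zero_le_one, Real.sqrt_one, Real.sqrt_sq_eq_abs]
  rw [this, sub_pos, one_div, inv_mul_lt_iff₀ hc', mul_one]

lemma kf_neg_one {c : ℝ} (hc : c ≠ 0) : kf (-1) (1 / c ^ 2) = gaussianReal 0 1 (Set.Ioi |c|) := by
  unfold kf
  congr 1
  ext t
  have hc' : 0 < |c| := abs_pos.mpr hc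
  simp only [Set.mem_ofPred_eq, Set.mem_Ioi]
  have : √(1 / c ^ 2) = 1 / |c| := by
    rw [Real.sqrt_div zero_le_one, Real.sqrt_one, Real.sqrt_sq_eq_abs]
  rw [this, one_div]
  have : |c|⁻¹ * t = t / |c| := by ring
  rw [this]
  constructor
  · intro h
    have : 1 < t / |c| := by linarith
    rwa [lt_div_iff₀ hc', one_mul] at this
  · intro h
    have : 1 < t / |c| := by rwa [lt_div_iff₀ hc', one_mul]
    linarith

lemma gauss_pos {S : Set ℝ} (h : volume S ≠ 0) : gaussianReal 0 1 S ≠ 0 := by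
  intro h0
  exact h ((gaussianReal_absolutelyContinuous' 0 one_ne_zero) h0)

lemma q_pos (c : ℝ) : gaussianReal 0 1 (Set.Ioi |c|) ≠ 0 := gauss_pos (by simp)

lemma q_lt_p {c : ℝ} (hc : c ≠ 0) :
    gaussianReal 0 1 (Set.Ioi |c|) < gaussianReal 0 1 (Set.Iio |c|) := by
  have hc' : 0 < |c| := abs_pos.mpr hc
  have h1 : gaussianReal 0 1 (Set.Ioi |c|) = gaussianReal 0 1 (Set.Iio (-|c|)) := by
    have h2 : (gaussianReal 0 1).map (fun x => -x) = gaussianReal 0 1 := by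
      rw [gaussianReal_map_neg]; simp
    conv_lhs => rw [← h2]
    rw [Measure.map_apply measurable_neg measurableSet_Ioi]
    congr 1
    ext t
    simp only [Set.mem_preimage, Set.mem_Ioi, Set.mem_Iio]
    exact lt_neg
  rw [h1]
  have h3 : gaussianReal 0 1 (Set.Iio |c|) = gaussianReal 0 1 (Set.Iio (-|c|))
      + gaussianReal 0 1 (Set.Ico (-|c|) |c|) := by
    rw [← measure_union _ measurableSet_Ico]
    · congr 1
      rw [Set.Iio_union_Ico_eq_Iio (by linarith)]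
    · rw [Set.disjoint_left]
      intro t ht ht2
      exact absurd ht2.1 (not_le.mpr ht)
  rw [h3]
  apply ENNReal.lt_add_right (measure_ne_top _ _)
  apply gauss_pos
  rw [Real.volume_Ico]
  simp only [ne_eq, ENNReal.ofReal_eq_zero, not_le]
  linarith

end Pool.Agent.H58Radon
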