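import Mathlib
import Pool.Agent.H58Radon.Strict

set_option autoImplicit false

namespace Pool.Agent.H58Radon

open MeasureTheory ProbabilityTheory Finset
open scoped ENNReal NNReal

variable {d n r : ℕ}

/-- the integrand attached to `J` -/
noncomputable def GG (d : ℕ) (ε : ℝ) (A J : Finset (Fin n)) (c : ℝ) : ℝ≥0∞ :=
  kf ε (1 / c ^ 2) ^ (Jᶜ ∩ A).card * kf (-ε) (1 / c ^ 2) ^ (Jᶜ.card - (Jᶜ ∩ A).card) *
    Hc d c (A.card - (Jᶜ ∩ A).card)

lemma image_emb (J : Finset (Fin n)) (hJ : J.card = r) :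
    (univ : Finset (Fin r)).image (J.orderEmbOfFin hJ) = J :=
  Finset.image_orderEmbOfFin_univ J hJ

lemma prod_kf (ε y : ℝ) (A K : Finset (Fin n)) (hK : K.card = r) :
    ∏ j : Fin r, kf (ε * sgnv A (K.orderEmbOfFin hK j)) y
      = kf ε y ^ (K ∩ A).card * kf (-ε) y ^ (K.card - (K ∩ A).card) := by
  classical
  have h1 : ∏ j : Fin r, kf (ε * sgnv A (K.orderEmbOfFin hK j)) y
      = ∏ k ∈ K, kf (ε * sgnv A k) y := by
    conv_rhs => rw [← image_emb K hK]
    rw [Finset.prod_image (fun a _ b _ h => (K.orderEmbOfFin hK).injective h)]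
  rw [h1, ← Finset.prod_filter_mul_prod_filter_not K (fun k => k ∈ A)]
  congr 1
  · rw [Finset.prod_congr rfl (g := fun _ => kf ε y)]
    · rw [prod_const, filter_mem_eq_inter]
    · intro k hk
      rw [sgnv, if_pos (mem_filter.mp hk).2, mul_one]
  · rw [Finset.prod_congr rfl (g := fun _ => kf (-ε) y)]
    · rw [prod_const]
      congr 1
      have := Finset.card_filter_add_card_filter_not (s := K) (fun k => k ∈ A)
      rw [filter_mem_eq_inter] at this
      omega
    · intro k hk
      rw [sgnv, if_neg (mem_filter.mp hk).2, mul_neg, mul_one]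

lemma HH_J (A J : Finset (Fin n)) (hJ : J.card = d + 1) (c : ℝ) :
    HH (fun i => sgnv A (J.orderEmbOfFin hJ i)) c = Hc d c (A.card - (Jᶜ ∩ A).card) := by
  classical
  rw [HH_eq _ (fun i => by unfold sgnv; split_ifs <;> simp)]
  have h1 : (univ.filter fun i => sgnv A (J.orderEmbOfFin hJ i) = 1).card = (J ∩ A).card := by
    have : (univ.filter fun i => sgnv A (J.orderEmbOfFin hJ i) = 1).image (J.orderEmbOfFin hJ)
        = J ∩ A := by
      ext k
      simp only [mem_image, mem_filter, mem_univ, true_and, mem_inter]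
      constructor
      · rintro ⟨i, hi, rfl⟩
        refine ⟨orderEmbOfFin_mem _ _ _, ?_⟩
        by_contra hcon
        rw [sgnv, if_neg hcon] at hi
        norm_num at hi
      · rintro ⟨hk, hA⟩
        rw [← image_emb J hJ] at hk
        obtain ⟨i, _, rfl⟩ := mem_image.mp hk
        exact ⟨i, by rw [sgnv, if_pos hA], rfl⟩
    rw [← this, card_image_of_injective _ (J.orderEmbOfFin hJ).injective]
  have h2 : (univ.filter fun i => sgnv A (J.orderEmbOfFin hJ i) = -1).card
      = d + 1 - (J ∩ A).card := by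
    have h3 : (univ.filter fun i => sgnv A (J.orderEmbOfFin hJ i) = -1)
        = univ.filter fun i => ¬ (sgnv A (J.orderEmbOfFin hJ i) = 1) := by
      ext i
      simp only [mem_filter, mem_univ, true_and]
      unfold sgnv
      split_ifs <;> norm_num
    have := Finset.card_filter_add_card_filter_not (s := (univ : Finset (Fin (d+1))))
      (fun i => sgnv A (J.orderEmbOfFin hJ i) = 1)
    rw [h3]
    rw [card_univ, Fintype.card_fin] at this
    omega
  rw [h1, h2]
  have h4 : (J ∩ A).card = A.card - (Jᶜ ∩ A).card := by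
    have := Finset.card_filter_add_card_filter_not (s := A) (fun k => k ∈ J)
    have e1 : (A.filter fun k => k ∈ J) = J ∩ A := by ext k; simp [and_comm]
    have e2 : (A.filter fun k => ¬ k ∈ J) = Jᶜ ∩ A := by ext k; simp [and_comm]
    rw [e1, e2] at this
    omega
  rw [← h4]
  rfl

/-- the crossing probability of `J` -/
theorem cross_J (ε : ℝ) (A J : Finset (Fin n)) (hJ : J.card = d + 1) (hJc : Jᶜ.card = r) :
    MM (d+1) * ∫⁻ p, crossI ε (sgnv A) J hJ hJc p.1 p.2 ∂((Gam n (d+1)).prod (gam (d+1)))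
      = CC d * ∫⁻ c : ℝ, ENNReal.ofReal |c| * GG d ε A J c := by
  rw [lintegral_cross]
  have hψ : Measurable fun y : ℝ => ∏ j : Fin r, kf (ε * sgnv A (Jᶜ.orderEmbOfFin hJc j)) y :=
    Finset.measurable_prod _ fun j _ => measurable_kf _
  have h := law_final (fun i => sgnv A (J.orderEmbOfFin hJ i)) (fun i => sgnv_sq A _)
    (fun y => ∏ j : Fin r, kf (ε * sgnv A (Jᶜ.orderEmbOfFin hJc j)) y) hψ
  rw [h]
  congr 1
  apply lintegral_congr
  intro c
  rw [prod_kf, HH_J A J hJ c]
  unfold GG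
  ring

lemma measurable_GG (ε : ℝ) (A J : Finset (Fin n)) : Measurable (GG d ε A J) := by
  unfold GG
  have h1 := measurable_kf ε
  have h2 := measurable_kf (-ε)
  have h3 := measurable_Hc (d := d) (A.card - (Jᶜ ∩ A).card)
  fun_prop

lemma sum_compl (D : ℕ) (hn : n = D + r) (f : Finset (Fin n) → ℝ≥0∞) :
    ∑ J ∈ powersetCard D (univ : Finset (Fin n)), f Jᶜ
      = ∑ K ∈ powersetCard r (univ : Finset (Fin n)), f K := by
  classical
  refine Finset.sum_bij' (fun J _ => Jᶜ) (fun K _ => Kᶜ) ?_ ?_ ?_ ?_ ?_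
  · intro J hJ
    simp only [mem_powersetCard, subset_univ, true_and] at hJ ⊢
    rw [card_compl, Fintype.card_fin, hJ]; omega
  · intro J hJ
    simp only [mem_powersetCard, subset_univ, true_and] at hJ ⊢
    rw [card_compl, Fintype.card_fin, hJ]; omega
  · intro J _; simp
  · intro J _; simp
  · intro J _; rfl

/-- pointwise strict inequality -/
theorem pointwise_strict {A : Finset (Fin n)} (hn : n = (d + 1) + r) (hr : 0 < r)
    (hA : 2 * A.card < n) {c : ℝ} (hc : c ≠ 0) :
    ∑ J ∈ powersetCard (d+1) (univ : Finset (Fin n)), GG d 1 A J c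
      < ∑ J ∈ powersetCard (d+1) (univ : Finset (Fin n)), GG d (-1) A J c := by
  classical
  set P := gaussianReal 0 1 (Set.Iio |c|) with hP
  set Q := gaussianReal 0 1 (Set.Ioi |c|) with hQ
  have hPt : P ≠ ⊤ := measure_ne_top _ _
  have hQt : Q ≠ ⊤ := measure_ne_top _ _
  have hQ0 : Q ≠ 0 := q_pos c
  have hQP : Q < P := q_lt_p hc
  set p := P.toReal with hp
  set q := Q.toReal with hq
  have hq0 : 0 < q := ENNReal.toReal_pos hQ0 hQt
  have hqp : q < p := (ENNReal.toReal_lt_toReal hQt hPt).mpr hQP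
  have hp0 : 0 < p := hq0.trans hqp
  have eP : P = ENNReal.ofReal p := (ENNReal.ofReal_toReal hPt).symm
  have eQ : Q = ENNReal.ofReal q := (ENNReal.ofReal_toReal hQt).symm
  have eH : ∀ x, Hc d c x = ENNReal.ofReal ((Hc d c x).toReal) := fun x =>
    (ENNReal.ofReal_toReal (Hc_ne_top c x)).symm
  have hH0 : ∀ x, 0 < (Hc d c x).toReal := fun x =>
    ENNReal.toReal_pos (Hc_ne_zero c x) (Hc_ne_top c x)
  have key := comb_main A hn hr hA (H := fun x => (Hc d c x).toReal)
    (fun x hx => by rw [Hc_symm c hx]) (fun x _ => hH0 x)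
    (fun x hx => (ENNReal.toReal_le_toReal (Hc_ne_top c _) (Hc_ne_top c _)).mpr (Hc_mono c hx))
    hq0 hqp
  have h1 : ∑ J ∈ powersetCard (d+1) (univ : Finset (Fin n)), GG d 1 A J c
      = ENNReal.ofReal (∑ K ∈ powersetCard r (univ : Finset (Fin n)),
        (Hc d c (A.card - (K ∩ A).card)).toReal *
          (p ^ (K ∩ A).card * q ^ (r - (K ∩ A).card))) := by
    rw [ENNReal.ofReal_sum_of_nonneg (fun K _ => by positivity), ← sum_compl (d+1) hn]
    apply Finset.sum_congr rfl
    intro J hJ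
    have hJr : Jᶜ.card = r := by
      rw [mem_powersetCard] at hJ
      rw [card_compl, Fintype.card_fin, hJ.2]; omega
    unfold GG
    have e := eH (A.card - (Jᶜ ∩ A).card)
    set hh := (Hc d c (A.card - (Jᶜ ∩ A).card)).toReal with hhdef
    rw [kf_one hc, kf_neg_one hc, ← hP, ← hQ, hJr, e, eP, eQ,
      ← ENNReal.ofReal_pow hp0.le, ← ENNReal.ofReal_pow hq0.le, ← ENNReal.ofReal_mul (by positivity),
      ← ENNReal.ofReal_mul (by positivity)]
    congr 1
    ring
  have h2 : ∑ J ∈ powersetCard (d+1) (univ : Finset (Fin n)), GG d (-1) A J c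
      = ENNReal.ofReal (∑ K ∈ powersetCard r (univ : Finset (Fin n)),
        (Hc d c (A.card - (K ∩ A).card)).toReal *
          (q ^ (K ∩ A).card * p ^ (r - (K ∩ A).card))) := by
    rw [ENNReal.ofReal_sum_of_nonneg (fun K _ => by positivity), ← sum_compl (d+1) hn]
    apply Finset.sum_congr rfl
    intro J hJ
    have hJr : Jᶜ.card = r := by
      rw [mem_powersetCard] at hJ
      rw [card_compl, Fintype.card_fin, hJ.2]; omega
    unfold GG
    have e := eH (A.card - (Jᶜ ∩ A).card)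
    set hh := (Hc d c (A.card - (Jᶜ ∩ A).card)).toReal with hhdef
    rw [neg_neg, kf_one hc, kf_neg_one hc, ← hP, ← hQ, hJr, e, eP, eQ,
      ← ENNReal.ofReal_pow hp0.le, ← ENNReal.ofReal_pow hq0.le, ← ENNReal.ofReal_mul (by positivity),
      ← ENNReal.ofReal_mul (by positivity)]
    congr 1
    ring
  rw [h1, h2]
  apply (ENNReal.ofReal_lt_ofReal_iff_of_nonneg _).mpr key
  exact Finset.sum_nonneg fun K _ => by positivity

/-! ### the constant -/

lemma KK_ne_zero (d : ℕ) : KK d ≠ 0 := by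
  intro h0
  have h1 := J_formula (d := d) 1 (fun _ => 1) measurable_const
  rw [h0, zero_mul] at h1
  simp only [mul_one] at h1
  have hm : Measurable fun X : Fin (d+1) → Fin (d+1) → ℝ => ENNReal.ofReal |(Matrix.of X).det| :=
    ENNReal.measurable_ofReal.comp measurable_det.abs
  rw [lintegral_eq_zero_iff hm] at h1
  have h2 := (Gam_ac (d+1) (d+1)).ae_le (det_ae' (d+1))
  have h3 : ∀ᵐ X ∂(Gam (d+1) (d+1)), False := by
    filter_upwards [h1, h2] with X a b
    simp only [Pi.zero_apply, ENNReal.ofReal_eq_zero] at a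
    exact b (abs_eq_zero.mp (le_antisymm a (abs_nonneg _)))
  rw [ae_iff] at h3
  simp at h3

lemma CC_ne_zero (d : ℕ) : CC d ≠ 0 := by
  unfold CC
  apply mul_ne_zero (mul_ne_zero _ (KK_ne_zero d))
  · rw [Ne, ENNReal.ofReal_eq_zero, not_le]; positivity
  · rw [Ne, ENNReal.ofReal_eq_zero, not_le]; positivity

lemma iSg_le {m : ℕ} (s ν : Fin m → ℝ) : iSg s ν ≤ 1 := by
  unfold iSg
  exact Set.indicator_le_self' (fun _ _ => by simp) ν

lemma CC_ne_top (d : ℕ) : CC d ≠ ⊤ := by
  have h := law_final (d := d) (fun _ => 1) (fun _ => by norm_num) (fun _ => 1) measurable_const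
  have h1 : MM (d+1) * ∫⁻ X, ∫⁻ G, iSg (fun _ => 1) (Matrix.vecMul G (Matrix.of X)⁻¹) *
        (1 : ℝ≥0∞) ∂(gam (d+1)) ∂(Gam (d+1) (d+1)) ≠ ⊤ := by
    apply ENNReal.mul_ne_top (MM_ne_top _)
    apply ne_top_of_le_ne_top (b := 1) ENNReal.one_ne_top
    calc _ ≤ ∫⁻ X : Fin (d+1) → Fin (d+1) → ℝ, ∫⁻ G : Fin (d+1) → ℝ, (1 : ℝ≥0∞)
          ∂(gam (d+1)) ∂(Gam (d+1) (d+1)) := by
          apply lintegral_mono; intro X
          apply lintegral_mono; intro G
          simp only [mul_one]
          exact iSg_le _ _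
      _ = 1 := by simp
  rw [h] at h1
  intro htop
  rw [htop] at h1
  apply h1
  apply ENNReal.top_mul
  have hHm : Measurable fun c => HH (fun _ : Fin (d+1) => (1:ℝ)) c := by
    have : (fun c => HH (fun _ : Fin (d+1) => (1:ℝ)) c) = fun c => Hc d c (d+1) := by
      ext c
      rw [HH_eq _ (fun _ => Or.inl rfl)]
      unfold Hc
      simp
      norm_num
    rw [this]
    exact measurable_Hc _
  intro h0
  rw [lintegral_eq_zero_iff (by fun_prop)] at h0
  have h2 : volume (Set.Ioi (0:ℝ)) = 0 := by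
    apply measure_mono_null _ (ae_iff.mp h0)
    intro c hc
    have hc' : (0:ℝ) < c := hc
    simp only [Set.mem_ofPred_eq, Pi.zero_apply, one_mul, mul_eq_zero, not_or]
    refine ⟨?_, ?_⟩
    · rw [ENNReal.ofReal_eq_zero, not_le]; exact abs_pos.mpr hc'.ne'
    · rw [HH_eq _ (fun _ => Or.inl rfl)]
      exact EE_pos _ _ (measurable_Th1 c) (fun z => Th_pos c z) 0
  simp at h2

end Pool.Agent.H58Radon
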