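import Mathlib
import Pool.Agent.H58Radon.Strict2

set_option autoImplicit false

namespace Pool.Agent.H58Radon

open MeasureTheory ProbabilityTheory Finset
open scoped ENNReal NNReal Classical

variable {d n r : ℕ}

/-- the joint law of the `n` points and the extra point -/
noncomputable def mu (n d : ℕ) : Measure ((Fin n → Fin (d+1) → ℝ) × (Fin (d+1) → ℝ)) :=
  (Gam n (d+1)).prod (gam (d+1))

instance : IsProbabilityMeasure (mu n d) := by unfold mu; infer_instance

noncomputable def exI (A J : Finset (Fin n)) (p : (Fin n → Fin (d+1) → ℝ) × (Fin (d+1) → ℝ)) :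
    ℝ≥0∞ := if ExitJ (sgnv A) p.1 p.2 J then 1 else 0

noncomputable def enI (A J : Finset (Fin n)) (p : (Fin n → Fin (d+1) → ℝ) × (Fin (d+1) → ℝ)) :
    ℝ≥0∞ := if EntryJ (sgnv A) p.1 p.2 J then 1 else 0

lemma exI_ae (A J : Finset (Fin n)) (hJ : J.card = d + 1) :
    (fun p => exI (d := d) A J p) =ᵐ[mu n d]
      fun p => crossI (-1) (sgnv A) J hJ (rfl : Jᶜ.card = Jᶜ.card) p.1 p.2 := by
  filter_upwards [gen_ae n (d+1)] with p hp
  have hdet := (hp (J.orderEmbOfFin hJ) (J.orderEmbOfFin hJ).injective).a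
  rw [crossI_eq]
  unfold exI
  rw [exit_iff (sgnv_sq A) hJ hdet]

lemma enI_ae (A J : Finset (Fin n)) (hJ : J.card = d + 1) :
    (fun p => enI (d := d) A J p) =ᵐ[mu n d]
      fun p => crossI 1 (sgnv A) J hJ (rfl : Jᶜ.card = Jᶜ.card) p.1 p.2 := by
  filter_upwards [gen_ae n (d+1)] with p hp
  have hdet := (hp (J.orderEmbOfFin hJ) (J.orderEmbOfFin hJ).injective).a
  rw [crossI_eq]
  unfold enI
  rw [entry_iff (sgnv_sq A) hJ hdet]

lemma exI_int (A J : Finset (Fin n)) (hJ : J.card = d + 1) :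
    MM (d+1) * ∫⁻ p, exI (d := d) A J p ∂(mu n d)
      = CC d * ∫⁻ c : ℝ, ENNReal.ofReal |c| * GG d (-1) A J c := by
  rw [lintegral_congr_ae (exI_ae A J hJ)]
  exact cross_J (-1) A J hJ rfl

lemma enI_int (A J : Finset (Fin n)) (hJ : J.card = d + 1) :
    MM (d+1) * ∫⁻ p, enI (d := d) A J p ∂(mu n d)
      = CC d * ∫⁻ c : ℝ, ENNReal.ofReal |c| * GG d 1 A J c := by
  rw [lintegral_congr_ae (enI_ae A J hJ)]
  exact cross_J 1 A J hJ rfl

lemma enI_le (A J : Finset (Fin n)) : ∫⁻ p, enI (d := d) A J p ∂(mu n d) ≤ 1 := by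
  calc _ ≤ ∫⁻ p, (1 : ℝ≥0∞) ∂(mu n d) := by
        apply lintegral_mono
        intro p
        unfold enI
        split_ifs <;> simp
    _ = 1 := by simp

lemma sum_enI_ne_top (A : Finset (Fin n)) :
    ∑ J ∈ powersetCard (d+1) (univ : Finset (Fin n)), ∫⁻ p, enI (d := d) A J p ∂(mu n d) ≠ ⊤ := by
  apply ne_of_lt
  rw [ENNReal.sum_lt_top]
  intro J _
  exact lt_of_le_of_lt (enI_le A J) ENNReal.one_lt_top

/-- strict inequality between entries and exits -/
theorem strict_cross {A : Finset (Fin n)} (hn : n = (d + 1) + r) (hr : 0 < r)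
    (hA : 2 * A.card < n) :
    ∑ J ∈ powersetCard (d+1) (univ : Finset (Fin n)), ∫⁻ p, enI (d := d) A J p ∂(mu n d)
      < ∑ J ∈ powersetCard (d+1) (univ : Finset (Fin n)), ∫⁻ p, exI (d := d) A J p ∂(mu n d) := by
  have h1 : MM (d+1) * ∑ J ∈ powersetCard (d+1) (univ : Finset (Fin n)),
      ∫⁻ p, enI (d := d) A J p ∂(mu n d) = CC d * ∫⁻ c : ℝ, ENNReal.ofReal |c| *
        ∑ J ∈ powersetCard (d+1) (univ : Finset (Fin n)), GG d 1 A J c := by
    have : ∀ c : ℝ, ENNReal.ofReal |c| *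
        ∑ J ∈ powersetCard (d+1) (univ : Finset (Fin n)), GG d 1 A J c
        = ∑ J ∈ powersetCard (d+1) (univ : Finset (Fin n)),
          ENNReal.ofReal |c| * GG d 1 A J c := fun c => Finset.mul_sum _ _ _
    simp_rw [this]
    rw [lintegral_finsetSum _ (fun J _ => by
      have := measurable_GG (d := d) 1 A J
      fun_prop), Finset.mul_sum, Finset.mul_sum]
    apply Finset.sum_congr rfl
    intro J hJ
    exact enI_int A J (mem_powersetCard.mp hJ).2
  have h2 : MM (d+1) * ∑ J ∈ powersetCard (d+1) (univ : Finset (Fin n)),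
      ∫⁻ p, exI (d := d) A J p ∂(mu n d) = CC d * ∫⁻ c : ℝ, ENNReal.ofReal |c| *
        ∑ J ∈ powersetCard (d+1) (univ : Finset (Fin n)), GG d (-1) A J c := by
    have : ∀ c : ℝ, ENNReal.ofReal |c| *
        ∑ J ∈ powersetCard (d+1) (univ : Finset (Fin n)), GG d (-1) A J c
        = ∑ J ∈ powersetCard (d+1) (univ : Finset (Fin n)),
          ENNReal.ofReal |c| * GG d (-1) A J c := fun c => Finset.mul_sum _ _ _
    simp_rw [this]
    rw [lintegral_finsetSum _ (fun J _ => by
      have := measurable_GG (d := d) (-1) A J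
      fun_prop), Finset.mul_sum, Finset.mul_sum]
    apply Finset.sum_congr rfl
    intro J hJ
    exact exI_int A J (mem_powersetCard.mp hJ).2
  have hfin : ∫⁻ c : ℝ, ENNReal.ofReal |c| *
        ∑ J ∈ powersetCard (d+1) (univ : Finset (Fin n)), GG d 1 A J c ≠ ⊤ := by
    intro htop
    rw [htop, ENNReal.mul_top (CC_ne_zero d)] at h1
    exact ENNReal.mul_ne_top (MM_ne_top _) (sum_enI_ne_top A) h1
  have h3 : ∫⁻ c : ℝ, ENNReal.ofReal |c| *
        ∑ J ∈ powersetCard (d+1) (univ : Finset (Fin n)), GG d 1 A J c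
      < ∫⁻ c : ℝ, ENNReal.ofReal |c| *
        ∑ J ∈ powersetCard (d+1) (univ : Finset (Fin n)), GG d (-1) A J c := by
    apply lintegral_strict_mono
    · exact NeZero.ne _
    · apply Measurable.aemeasurable
      apply Measurable.mul (by fun_prop)
      exact Finset.measurable_sum _ fun J _ => measurable_GG (-1) A J
    · exact hfin
    · have h0 : ∀ᵐ c : ℝ, c ≠ 0 := by
        rw [ae_iff]
        simp
      filter_upwards [h0] with c hc
      apply ENNReal.mul_lt_mul_right
      · rw [Ne, ENNReal.ofReal_eq_zero, not_le]; exact abs_pos.mpr hc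
      · exact ENNReal.ofReal_ne_top
      · exact pointwise_strict hn hr hA hc
  have h4 : CC d * (∫⁻ c : ℝ, ENNReal.ofReal |c| *
        ∑ J ∈ powersetCard (d+1) (univ : Finset (Fin n)), GG d 1 A J c)
      < CC d * ∫⁻ c : ℝ, ENNReal.ofReal |c| *
        ∑ J ∈ powersetCard (d+1) (univ : Finset (Fin n)), GG d (-1) A J c :=
    ENNReal.mul_lt_mul_right (CC_ne_zero d) (CC_ne_top d) h3
  rw [← h1, ← h2] at h4
  by_contra hcon
  push Not at hcon
  exact absurd h4 (not_lt.mpr (mul_le_mul_right hcon _))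

/-- Feasibility indicator -/
noncomputable def fI (A : Finset (Fin n)) (τ : ℝ)
    (p : (Fin n → Fin (d+1) → ℝ) × (Fin (d+1) → ℝ)) : ℝ≥0∞ :=
  if Feas (sgnv A) p.1 τ p.2 then 1 else 0

lemma fI_le (A : Finset (Fin n)) (τ : ℝ) : ∫⁻ p, fI (d := d) A τ p ∂(mu n d) ≤ 1 := by
  calc _ ≤ ∫⁻ p, (1 : ℝ≥0∞) ∂(mu n d) := by
        apply lintegral_mono
        intro p
        unfold fI
        split_ifs <;> simp
    _ = 1 := by simp

theorem feas_strict {A : Finset (Fin n)} (hn : n = (d + 1) + r) (hr : 0 < r)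
    (hA : 2 * A.card < n) :
    ∫⁻ p, fI (d := d) A 1 p ∂(mu n d) < ∫⁻ p, fI (d := d) A (-1) p ∂(mu n d) := by
  have hcount : ∀ᵐ p ∂(mu n d), fI (d := d) A (-1) p +
        ∑ J ∈ powersetCard (d+1) (univ : Finset (Fin n)), enI (d := d) A J p
      = fI (d := d) A 1 p +
        ∑ J ∈ powersetCard (d+1) (univ : Finset (Fin n)), exI (d := d) A J p := by
    filter_upwards [gen_ae n (d+1)] with p hp
    have hG : Gen p.1 p.2 := gen_of_genC (by omega) hp
    have h := count_identity (sgnv_ne A) hG (by omega)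
    have h' := congrArg (fun k : ℕ => (k : ℝ≥0∞)) h
    simp only [Nat.cast_add, Nat.cast_ite, Nat.cast_one, Nat.cast_zero] at h'
    unfold fI enI exI
    rw [Finset.sum_boole, Finset.sum_boole]
    exact h'
  have h1 := lintegral_congr_ae hcount
  have hen : ∀ J ∈ powersetCard (d+1) (univ : Finset (Fin n)),
      AEMeasurable (fun p => enI (d := d) A J p) (mu n d) := by
    intro J hJ
    have := measurable_crossI 1 (sgnv A) J (mem_powersetCard.mp hJ).2 (rfl : Jᶜ.card = Jᶜ.card)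
    exact this.aemeasurable.congr (enI_ae A J (mem_powersetCard.mp hJ).2).symm
  have hex : ∀ J ∈ powersetCard (d+1) (univ : Finset (Fin n)),
      AEMeasurable (fun p => exI (d := d) A J p) (mu n d) := by
    intro J hJ
    have := measurable_crossI (-1) (sgnv A) J (mem_powersetCard.mp hJ).2 (rfl : Jᶜ.card = Jᶜ.card)
    exact this.aemeasurable.congr (exI_ae A J (mem_powersetCard.mp hJ).2).symm
  rw [lintegral_add_right' _ (Finset.aemeasurable_fun_sum _ hen),
    lintegral_add_right' _ (Finset.aemeasurable_fun_sum _ hex),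
    lintegral_finsetSum' _ hen, lintegral_finsetSum' _ hex] at h1
  have h2 := strict_cross (d := d) hn hr hA
  have h3 : ∫⁻ p, fI (d := d) A 1 p ∂(mu n d) ≠ ⊤ :=
    ne_top_of_le_ne_top ENNReal.one_ne_top (fI_le A 1)
  have h4 := ENNReal.add_lt_add_left h3 h2
  rw [← h1] at h4
  exact (ENNReal.add_lt_add_iff_right (sum_enI_ne_top A)).mp h4

end Pool.Agent.H58Radon
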