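import Mathlib
import Pool.Agent.H58Radon.Final

set_option autoImplicit false

namespace Pool.Agent.H58Radon

open MeasureTheory ProbabilityTheory Finset
open scoped ENNReal NNReal Classical

variable {d n : ℕ}

lemma isClosed_radon {N D : ℕ} (A : Finset (Fin N)) :
    IsClosed {x : Fin N → Fin D → ℝ | RadonP A x} := by
  have hcomp : CompactSpace (stdSimplex ℝ (Fin N)) := inferInstance
  have hset : {x : Fin N → Fin D → ℝ | RadonP A x} = Prod.snd ''
      {p : (stdSimplex ℝ (Fin N)) × (Fin N → Fin D → ℝ) |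
        ∑ k, (p.1 : Fin N → ℝ) k * sgnv A k = 0 ∧
        ∑ k, ((p.1 : Fin N → ℝ) k * sgnv A k) • p.2 k = 0} := by
    ext x
    simp only [Set.mem_ofPred_eq, Set.mem_image, Prod.exists, exists_eq_right]
    rw [radonP_iff]
    constructor
    · rintro ⟨l, h1, h2, h3, h4⟩
      have hmem : (fun k => l k / ∑ j, l j) ∈ stdSimplex ℝ (Fin N) := by
        refine ⟨fun k => div_nonneg (h1 k) h2.le, ?_⟩
        rw [← Finset.sum_div, div_self h2.ne']
      refine ⟨⟨_, hmem⟩, ?_, ?_⟩
      · change ∑ k, (l k / ∑ j, l j) * sgnv A k = 0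
        have : ∀ k, l k / (∑ j, l j) * sgnv A k = (l k * sgnv A k) / ∑ j, l j := by
          intro k; ring
        simp_rw [this]
        rw [← Finset.sum_div, h3, zero_div]
      · change ∑ k, ((l k / ∑ j, l j) * sgnv A k) • x k = 0
        have : ∀ k, (l k / (∑ j, l j) * sgnv A k) • x k
            = (∑ j, l j)⁻¹ • ((l k * sgnv A k) • x k) := by
          intro k; rw [smul_smul]; congr 1; ring
        simp_rw [this]
        rw [← Finset.smul_sum, h4, smul_zero]
    · rintro ⟨⟨l, h1, h2⟩, h3, h4⟩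
      exact ⟨l, h1, by rw [h2]; exact one_pos, h3, h4⟩
  have hc : ∀ k, Continuous fun p : (stdSimplex ℝ (Fin N)) × (Fin N → Fin D → ℝ) =>
      (p.1 : Fin N → ℝ) k := fun k =>
    (continuous_apply k).comp (continuous_subtype_val.comp continuous_fst)
  have hc2 : ∀ k, Continuous fun p : (stdSimplex ℝ (Fin N)) × (Fin N → Fin D → ℝ) =>
      p.2 k := fun k => (continuous_apply k).comp continuous_snd
  rw [hset]
  apply isClosedMap_snd_of_compactSpace
  apply IsClosed.inter
  · apply isClosed_eq _ continuous_const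
    exact continuous_finsetSum _ fun k _ => (hc k).mul continuous_const
  · apply isClosed_eq _ continuous_const
    exact continuous_finsetSum _ fun k _ => ((hc k).mul continuous_const).smul (hc2 k)

lemma measurableSet_radon {N D : ℕ} (A : Finset (Fin N)) :
    MeasurableSet {x : Fin N → Fin D → ℝ | RadonP A x} := (isClosed_radon A).measurableSet

/-- Radon probability -/
noncomputable def PR (N D : ℕ) (A : Finset (Fin N)) : ℝ≥0∞ := Gam N D {x | RadonP A x}

/-- trace of `A` on the successors -/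
def down (A : Finset (Fin (n+1))) : Finset (Fin n) := univ.filter fun k => k.succ ∈ A

lemma sgnv_down (A : Finset (Fin (n+1))) : (fun k : Fin n => sgnv A k.succ) = sgnv (down A) := by
  ext k
  unfold sgnv down
  simp

/-- indicator -/
noncomputable def rI {N D : ℕ} (A : Finset (Fin N)) (x : Fin N → Fin D → ℝ) : ℝ≥0∞ :=
  {x | RadonP A x}.indicator 1 x

lemma rI_eq {N D : ℕ} (A : Finset (Fin N)) (x : Fin N → Fin D → ℝ) :
    rI A x = if RadonP A x then 1 else 0 := by
  unfold rI
  by_cases h : RadonP A x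
  · rw [if_pos h]
    exact Set.indicator_of_mem (s := {x | RadonP A x}) h 1
  · rw [if_neg h]
    exact Set.indicator_of_notMem (s := {x | RadonP A x}) h 1

lemma measurable_rI {N D : ℕ} (A : Finset (Fin N)) :
    Measurable fun x : Fin N → Fin D → ℝ => rI A x :=
  measurable_one.indicator (measurableSet_radon A)

lemma measurable_cons {N D : ℕ} : Measurable fun p : (Fin N → Fin D → ℝ) × (Fin D → ℝ) =>
    (Fin.cons p.2 p.1 : Fin (N+1) → Fin D → ℝ) := by
  rw [measurable_pi_iff]
  intro i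
  refine Fin.cases ?_ ?_ i
  · simpa using measurable_snd
  · intro j
    simp only [Fin.cons_succ]
    exact (measurable_pi_apply j).comp measurable_fst

lemma PR_eq (A : Finset (Fin (n+1))) : PR (n+1) (d+1) A
    = ∫⁻ p, rI A (Fin.cons p.2 p.1 : Fin (n+1) → Fin (d+1) → ℝ) ∂(mu n d) := by
  have h1 : PR (n+1) (d+1) A = ∫⁻ x, rI A x ∂(Gam (n+1) (d+1)) := by
    unfold PR rI
    rw [lintegral_indicator_one (measurableSet_radon A)]
  rw [h1]
  unfold Gam
  rw [lintegral_pi_succ (fun _ => gam (d+1)) _ (measurable_rI A)]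
  unfold mu Gam
  have hm : Measurable fun p : (Fin n → Fin (d+1) → ℝ) × (Fin (d+1) → ℝ) =>
      rI A (Fin.cons p.2 p.1 : Fin (n+1) → Fin (d+1) → ℝ) := by
    have := (measurable_rI (D := d+1) A).comp (measurable_cons (N := n) (D := d+1))
    exact this
  rw [lintegral_prod_symm _ hm.aemeasurable]

lemma mp_neg (m : ℕ) : MeasurePreserving (fun z : Fin m → ℝ => -z) (gam m) (gam m) := by
  have h : MeasurePreserving (fun x : ℝ => -x) (gaussianReal 0 1) (gaussianReal 0 1) :=
    ⟨measurable_neg, by rw [gaussianReal_map_neg]; simp⟩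
  exact measurePreserving_pi (fun _ : Fin m => gaussianReal 0 1) (fun _ => gaussianReal 0 1)
    (fun _ => h)

lemma PR_eq_neg (A : Finset (Fin (n+1))) : PR (n+1) (d+1) A
    = ∫⁻ p, rI A (Fin.cons (-p.2) p.1 : Fin (n+1) → Fin (d+1) → ℝ) ∂(mu n d) := by
  have hmp : MeasurePreserving (fun p : (Fin n → Fin (d+1) → ℝ) × (Fin (d+1) → ℝ) =>
      (p.1, -p.2)) (mu n d) (mu n d) := (MeasurePreserving.id _).prod (mp_neg (d+1))
  have hm : Measurable fun p : (Fin n → Fin (d+1) → ℝ) × (Fin (d+1) → ℝ) =>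
      rI A (Fin.cons p.2 p.1 : Fin (n+1) → Fin (d+1) → ℝ) := by
    have := (measurable_rI (D := d+1) A).comp (measurable_cons (N := n) (D := d+1))
    exact this
  rw [PR_eq, ← hmp.lintegral_comp hm]

lemma PR_notMem {A : Finset (Fin (n+1))} (h0 : (0 : Fin (n+1)) ∉ A) (hn : d + 2 ≤ n) :
    PR (n+1) (d+1) A = ∫⁻ p, fI (d := d) (down A) 1 p ∂(mu n d) := by
  rw [PR_eq]
  apply lintegral_congr_ae
  filter_upwards [gen_ae n (d+1)] with p hp
  have hG : Gen p.1 p.2 := gen_of_genC (by omega) hp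
  have h := radon_iff_feas A p.1 p.2 hG (by omega)
  have hs : sgnv A 0 = -1 := by rw [sgnv, if_neg h0]
  rw [hs, neg_neg, one_smul, sgnv_down] at h
  unfold fI
  rw [rI_eq]
  by_cases hf : Feas (sgnv (down A)) p.1 1 p.2
  · rw [if_pos hf, if_pos (h.mpr hf)]
  · rw [if_neg hf, if_neg (fun hh => hf (h.mp hh))]

lemma PR_mem {A : Finset (Fin (n+1))} (h0 : (0 : Fin (n+1)) ∈ A) (hn : d + 2 ≤ n) :
    PR (n+1) (d+1) A = ∫⁻ p, fI (d := d) (down A) (-1) p ∂(mu n d) := by
  rw [PR_eq_neg]
  apply lintegral_congr_ae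
  filter_upwards [gen_ae n (d+1)] with p hp
  have hG : Gen p.1 p.2 := gen_of_genC (by omega) hp
  have h := radon_iff_feas A p.1 (-p.2) hG (by omega)
  have hs : sgnv A 0 = 1 := by rw [sgnv, if_pos h0]
  rw [hs, neg_one_smul, neg_neg, sgnv_down] at h
  unfold fI
  rw [rI_eq]
  by_cases hf : Feas (sgnv (down A)) p.1 (-1) p.2
  · rw [if_pos hf, if_pos (h.mpr hf)]
  · rw [if_neg hf, if_neg (fun hh => hf (h.mp hh))]

/-- one step -/
theorem PR_step {A : Finset (Fin (n+1))} (h0 : (0 : Fin (n+1)) ∉ A) (hn : d + 2 ≤ n)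
    (hA : 2 * A.card < n) : PR (n+1) (d+1) A < PR (n+1) (d+1) (insert 0 A) := by
  rw [PR_notMem h0 hn, PR_mem (mem_insert_self _ _) hn]
  have h1 : down (insert 0 A) = down A := by
    unfold down
    ext k
    simp [Fin.succ_ne_zero]
  have h2 : (down A).card = A.card := by
    have : (down A).map ⟨Fin.succ, Fin.succ_injective n⟩ = A := by
      ext k
      simp only [mem_map, Function.Embedding.coeFn_mk, down, mem_filter, mem_univ, true_and]
      constructor
      · rintro ⟨j, hj, rfl⟩; exact hj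
      · intro hk
        obtain ⟨j, rfl⟩ := Fin.exists_succ_eq.mpr (fun h : k = 0 => h0 (h ▸ hk))
        exact ⟨j, hk, rfl⟩
    rw [← this, card_map]
    rw [this]
  rw [h1]
  exact feas_strict (r := n - (d + 1)) (by omega) (by omega) (by rw [h2]; exact hA)

/-- exchangeability -/
lemma PR_perm {N D : ℕ} (σ : Equiv.Perm (Fin N)) (A : Finset (Fin N)) :
    PR N D (A.map σ.toEmbedding) = PR N D A := by
  have hmp : MeasurePreserving (fun x : Fin N → Fin D → ℝ => fun i => x (σ i))
      (Gam N D) (Gam N D) :=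
    (measurePreserving_piCongrLeft (α := fun _ : Fin N => Fin D → ℝ) (fun _ => gam D) σ).symm
  unfold PR
  rw [← hmp.measure_preimage (measurableSet_radon A).nullMeasurableSet]
  congr 1
  ext x
  simp only [Set.mem_ofPred_eq, Set.mem_preimage]
  unfold RadonP
  have h1 : ∀ B : Finset (Fin N), x '' ((B.map σ.toEmbedding : Finset (Fin N)) : Set (Fin N))
      = (fun i => x (σ i)) '' (B : Set (Fin N)) := by
    intro B
    rw [coe_map, ← Set.image_comp]
    rfl
  have h2 : (A.map σ.toEmbedding)ᶜ = Aᶜ.map σ.toEmbedding := by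
    ext k
    simp only [mem_compl, mem_map_equiv]
  rw [h2, h1, h1]

lemma PR_card {N D : ℕ} {A B : Finset (Fin N)} (h : A.card = B.card) : PR N D A = PR N D B := by
  have e1 : {x // x ∈ A} ≃ {x // x ∈ B} := Fintype.equivOfCardEq (by simpa using h)
  let σ : Equiv.Perm (Fin N) := e1.extendSubtype
  have h2 : A.map σ.toEmbedding = B := by
    apply Finset.eq_of_subset_of_card_le
    · intro k hk
      rw [mem_map] at hk
      obtain ⟨j, hj, rfl⟩ := hk
      exact e1.extendSubtype_mem j hj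
    · rw [card_map, h]
  rw [← h2, PR_perm]

theorem PR_succ {N D : ℕ} (hD : 1 ≤ D) (hN : D + 2 ≤ N) {A B : Finset (Fin N)}
    (hB : B.card = A.card + 1) (h : 2 * B.card ≤ N) : PR N D A < PR N D B := by
  obtain ⟨d, rfl⟩ : ∃ d, D = d + 1 := ⟨D - 1, by omega⟩
  obtain ⟨n, rfl⟩ : ∃ n, N = n + 1 := ⟨N - 1, by omega⟩
  obtain ⟨A0, _, hA0⟩ := Finset.exists_subset_card_eq (s := (univ : Finset (Fin n)))
    (n := A.card) (by rw [card_univ, Fintype.card_fin]; omega)
  set A1 : Finset (Fin (n+1)) := A0.map ⟨Fin.succ, Fin.succ_injective n⟩ with hA1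
  have h0 : (0 : Fin (n+1)) ∉ A1 := by
    rw [hA1, mem_map]
    rintro ⟨j, _, hj⟩
    exact Fin.succ_ne_zero j hj
  have hc1 : A1.card = A.card := by rw [hA1, card_map, hA0]
  have hc2 : (insert 0 A1).card = B.card := by rw [card_insert_of_notMem h0, hc1, hB]
  rw [← PR_card hc1, ← PR_card hc2]
  exact PR_step h0 (by omega) (by omega)

theorem PR_lt {N D : ℕ} (hD : 1 ≤ D) (hN : D + 2 ≤ N) (k : ℕ) : ∀ {A B : Finset (Fin N)},
    B.card = A.card + 1 + k → 2 * B.card ≤ N → PR N D A < PR N D B := by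
  induction k with
  | zero => intro A B h1 h2; exact PR_succ hD hN h1 h2
  | succ k ih =>
    intro A B h1 h2
    obtain ⟨C, _, hC⟩ := Finset.exists_subset_card_eq (s := B) (n := A.card + 1 + k) (by omega)
    exact (ih hC (by omega)).trans (PR_succ hD hN (by omega) h2)

end Pool.Agent.H58Radon
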